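import Pool.Agent.H191Z.RDefs
import Pool.Agent.H191Z.GenusDefs

set_option autoImplicit false

open TensorProduct CategoryTheory AlgebraicGeometry Polynomial
open Pool.Agent.H191Z.Gerbe Pool.Agent.H191Z.Rig

namespace Pool.Agent.H647Z.TwoInt

section

variable {R M : Type} [CommRing R] [CommRing M] [Algebra R M]

lemma int_of_stable (N : Submodule R M) (hN : N.FG) (h1 : (1 : M) ∈ N) (x : M)
    (hx : ∀ n ∈ N, x * n ∈ N) : IsIntegral R x := by
  let A' : Subalgebra R M :=
    { carrier := { x | ∀ n ∈ N, x * n ∈ N }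
      mul_mem' := fun {a b} ha hb n hn => by rw [mul_assoc]; exact ha _ (hb _ hn)
      one_mem' := fun n hn => by rwa [one_mul]
      add_mem' := fun {a b} ha hb n hn => by rw [add_mul]; exact N.add_mem (ha _ hn) (hb _ hn)
      zero_mem' := fun n _hn => by rw [zero_mul]; exact N.zero_mem
      algebraMap_mem' := fun r n hn => by rw [← Algebra.smul_def]; exact N.smul_mem r hn }
  let f : A' →ₐ[R] Module.End R N :=
    AlgHom.ofLinearMap
      { toFun := fun x => (LinearMap.mulLeft R (x : M)).restrict x.prop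
        map_add' := by intro x y; ext; exact add_mul _ _ _
        map_smul' := by intro r s; ext; exact smul_mul_assoc _ _ _ }
      (by ext; apply one_mul)
      (by intro x y; ext; apply mul_assoc)
  have hf : Function.Injective f := by
    intro a b h
    have := congrArg (fun g : Module.End R N => (g ⟨1, h1⟩ : M)) h
    exact Subtype.ext (by simpa [f] using this)
  have : Module.Finite R N := .of_fg hN
  change IsIntegral R (A'.val ⟨x, hx⟩)
  rw [isIntegral_algHom_iff A'.val Subtype.val_injective,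
    ← isIntegral_algHom_iff (B := Module.End R N) f hf]
  apply Algebra.IsIntegral.isIntegral

variable (R) in
/-- span of the first powers -/
def W (x : M) (D : ℕ) : Submodule R M := Submodule.span R ((fun i => x ^ i) '' Set.Iio D)

lemma W_fg (x : M) (D : ℕ) : (W R x D).FG :=
  Submodule.fg_span ((Set.finite_Iio D).image _)

lemma pow_mem_W (x : M) {i D : ℕ} (h : i < D) : x ^ i ∈ W R x D :=
  Submodule.subset_span ⟨i, h, rfl⟩

lemma aeval_mem_W (x : M) (q : R[X]) : ∀ᶠ D in Filter.atTop, aeval x q ∈ W R x D := by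
  filter_upwards [Filter.eventually_gt_atTop q.natDegree] with D hD
  rw [aeval_eq_sum_range]
  exact Submodule.sum_mem _ fun i hi => Submodule.smul_mem _ _
    (pow_mem_W x (by have := Finset.mem_range.1 hi; omega))

lemma W_mul_W {U V : M} (h : U * V = 1) (D : ℕ) : W R U D * W R V D ≤ W R U D ⊔ W R V D := by
  rw [W, W, Submodule.span_mul_span, Submodule.span_le]
  rintro _ ⟨_, ⟨i, hi, rfl⟩, _, ⟨k, hk, rfl⟩, rfl⟩
  have hi' : i < D := hi
  have hk' : k < D := hk
  rcases le_total k i with h1 | h1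
  · obtain ⟨j, rfl⟩ := Nat.exists_eq_add_of_le h1
    have : U ^ (k + j) * V ^ k = U ^ j := by
      rw [pow_add, mul_right_comm, ← mul_pow, h, one_pow, one_mul]
    change U ^ (k + j) * V ^ k ∈ _
    rw [this]
    exact Submodule.mem_sup_left (pow_mem_W U (by omega))
  · obtain ⟨j, rfl⟩ := Nat.exists_eq_add_of_le h1
    have : U ^ i * V ^ (i + j) = V ^ j := by
      rw [pow_add, ← mul_assoc, ← mul_pow, h, one_pow, one_mul]
    change U ^ i * V ^ (i + j) ∈ _
    rw [this]
    exact Submodule.mem_sup_right (pow_mem_W V (by omega))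

lemma pow_mem_mul (U c : M) (p : R[X][X]) (hp : p.Monic)
    (h : eval₂ (aeval U : R[X] →ₐ[R] M).toRingHom c p = 0) (N : ℕ) (hN : p.natDegree ≤ N) :
    ∀ᶠ D in Filter.atTop, c ^ N ∈ W R U D * W R c N := by
  have h1 : ∀ᶠ D in Filter.atTop, ∀ j ∈ Finset.range p.natDegree,
      aeval U (p.coeff j) ∈ W R U D :=
    (Filter.eventually_all_finset _).2 fun j _ => aeval_mem_W U _
  filter_upwards [h1] with D hD
  obtain ⟨k, rfl⟩ := Nat.exists_eq_add_of_le hN
  rw [eval₂_eq_sum_range, Finset.sum_range_succ, hp.coeff_natDegree, map_one, one_mul] at h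
  rw [pow_add, eq_neg_of_add_eq_zero_right h, neg_mul, Finset.sum_mul]
  refine Submodule.neg_mem _ (Submodule.sum_mem _ fun j hj => ?_)
  rw [mul_assoc, ← pow_add]
  exact Submodule.mul_mem_mul (hD j hj) (pow_mem_W c (by have := Finset.mem_range.1 hj; omega))

lemma int_of_both {U V c : M} (huv : U * V = 1)
    (h0 : (aeval U : R[X] →ₐ[R] M).toRingHom.IsIntegralElem c)
    (h1 : (aeval V : R[X] →ₐ[R] M).toRingHom.IsIntegralElem c) : IsIntegral R c := by
  obtain ⟨p, hp, hpc⟩ := h0
  obtain ⟨q, hq, hqc⟩ := h1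
  set N := p.natDegree + q.natDegree + 1 with hN
  obtain ⟨D, ⟨h2, h3⟩, hD⟩ := (((pow_mem_mul U c p hp hpc N (by omega)).and
    (pow_mem_mul V c q hq hqc N (by omega))).and (Filter.eventually_gt_atTop 0)).exists
  refine int_of_stable ((W R U D ⊔ W R V D) * W R c N)
    (((W_fg U D).sup (W_fg V D)).mul (W_fg c N)) ?_ c ?_
  · have := Submodule.mul_mem_mul (Submodule.mem_sup_left (T := W R V D) (pow_mem_W (R := R) U hD))
      (pow_mem_W (R := R) c (show 0 < N by omega))
    simpa using this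
  · intro n hn
    refine Submodule.mul_induction_on hn (fun a ha b hb => ?_) fun a b ha hb => by
      rw [mul_add]; exact Submodule.add_mem _ ha hb
    have h4 : a * c ^ N ∈ (W R U D ⊔ W R V D) * W R c N := by
      obtain ⟨y, hy, z, hz, rfl⟩ := Submodule.mem_sup.1 ha
      rw [add_mul]
      refine Submodule.add_mem _ ?_ ?_
      · have := Submodule.mul_mem_mul hy h3
        rw [← mul_assoc] at this
        exact mul_le_mul' (W_mul_W huv D) le_rfl this
      · have := Submodule.mul_mem_mul hz h2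
        rw [← mul_assoc, mul_comm (W R V D)] at this
        exact mul_le_mul' (W_mul_W huv D) le_rfl this
    rw [mul_left_comm]
    induction hb using Submodule.span_induction with
    | mem x hx =>
      obtain ⟨j, hj, rfl⟩ := hx
      have hj' : j < N := hj
      rw [← pow_succ']
      rcases Nat.lt_or_ge (j + 1) N with h5 | h5
      · exact Submodule.mul_mem_mul ha (pow_mem_W c h5)
      · rwa [show j + 1 = N by omega]
    | zero => simp
    | add x y _ _ hx hy =>
      rw [mul_add, mul_add]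
      exact Submodule.add_mem _ hx hy
    | smul r x _ hx =>
      rw [mul_smul_comm, mul_smul_comm]
      exact Submodule.smul_mem _ _ hx

lemma int_of_killed {u z : M} {n : ℕ} (hn : u ^ n * z = 0)
    (h : (aeval u : R[X] →ₐ[R] M).toRingHom.IsIntegralElem z) : IsIntegral R z := by
  obtain ⟨p, hp, hz⟩ := h
  have h1 : aeval z (p.map (evalRingHom 0)) ∈ Ideal.span {u} := by
    rw [← Ideal.Quotient.eq_zero_iff_mem]
    have h2 := congrArg (Ideal.Quotient.mk (Ideal.span {u})) hz
    rw [hom_eval₂, map_zero] at h2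
    rw [aeval_def, eval₂_map, hom_eval₂, ← h2]
    congr 1
    refine Polynomial.ringHom_ext (fun a => by simp) ?_
    simp [Ideal.Quotient.eq_zero_iff_mem.2 (Ideal.mem_span_singleton_self u)]
  obtain ⟨w, hw⟩ := Ideal.mem_span_singleton'.1 h1
  refine ⟨(p.map (evalRingHom 0)) ^ n * X, ((hp.map _).pow n).mul monic_X, ?_⟩
  rw [← aeval_def, map_mul, map_pow, ← hw, aeval_X, mul_pow, mul_assoc, hn, mul_zero]

end

section

variable {R M0 M1 M : Type} [CommRing R] [CommRing M0] [CommRing M1] [CommRing M]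
    [Algebra R M0] [Algebra R M1] [Algebra R M]

lemma elem_map (f : M0 →ₐ[R] M) (u c : M0)
    (h : (aeval u : R[X] →ₐ[R] M0).toRingHom.IsIntegralElem c) :
    (aeval (f u) : R[X] →ₐ[R] M).toRingHom.IsIntegralElem (f c) := by
  obtain ⟨p, hp, hc⟩ := h
  refine ⟨p, hp, ?_⟩
  have h2 := congrArg f.toRingHom hc
  rw [hom_eval₂, map_zero] at h2
  rw [← h2]
  congr 1
  refine Polynomial.ringHom_ext (fun a => by simp) (by simp)

lemma int_down (f : M0 →ₐ[R] M) (u : M0) (hl : IsLoc f.toRingHom u)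
    (hf : (aeval u : R[X] →ₐ[R] M0).Finite) (c : M0) (h : IsIntegral R (f c)) :
    IsIntegral R c := by
  obtain ⟨g, hg, hc⟩ := h
  have h1 : f (aeval c (g * X)) = 0 := by
    rw [← aeval_algHom_apply, map_mul, aeval_def, hc, zero_mul]
  obtain ⟨n, hn⟩ := hl.ker _ h1
  rcases subsingleton_or_nontrivial R with hR | hR
  · have : Subsingleton M0 := (algebraMap R M0).codomain_trivial
    rw [Subsingleton.elim c 0]
    exact isIntegral_zero
  refine IsIntegral.of_aeval_monic (hg.mul monic_X) ?_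
    (int_of_killed hn (RingHom.Finite.to_isIntegral hf _))
  rw [natDegree_mul_X hg.ne_zero]
  omega

end

theorem Two.isIntegral {R M0 M1 M : Type} [CommRing R] [CommRing M0] [CommRing M1] [CommRing M]
    [Algebra R M0] [Algebra R M1] [Algebra R M] (D : Two R M0 M1 M) (c0 : M0) (c1 : M1)
    (h : D.f0 c0 = D.f1 c1) : IsIntegral R c0 ∧ IsIntegral R c1 := by
  have h0 := elem_map D.f0 D.u c0 (RingHom.Finite.to_isIntegral D.fin0 _)
  have h1 := elem_map D.f1 D.v c1 (RingHom.Finite.to_isIntegral D.fin1 _)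
  have h2 : IsIntegral R (D.f0 c0) := int_of_both D.huv h0 (h ▸ h1)
  exact ⟨int_down D.f0 D.u D.loc0 D.fin0 c0 h2, int_down D.f1 D.v D.loc1 D.fin1 c1 (h ▸ h2)⟩

lemma exists_compl {R M0 M1 M : Type} [CommRing R] [CommRing M0] [CommRing M1] [CommRing M]
    [Algebra R M0] [Algebra R M1] [Algebra R M] (D : Two R M0 M1 M) :
    ∃ G : Submodule R M, G.FG ∧
      G ⊔ (LinearMap.range D.f0.toLinearMap ⊔ LinearMap.range D.f1.toLinearMap) = ⊤ := by
  classical
  let _ : Algebra R[X] M0 := (aeval D.u : R[X] →ₐ[R] M0).toRingHom.toAlgebra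
  have hfin : Module.Finite R[X] M0 := D.fin0
  obtain ⟨s, hs⟩ := hfin.fg_top
  choose n b hb using fun e : M0 => D.loc1.sur (D.f0 e)
  let G : Submodule R M := s.sup fun e => W R (D.f1 D.v) (n e) * Submodule.span R {D.f0 e}
  refine ⟨G, Submodule.fg_finset_sup _ _ fun e _ => (W_fg _ _).mul (Submodule.fg_span_singleton _),
    ?_⟩
  set T := G ⊔ (LinearMap.range D.f0.toLinearMap ⊔ LinearMap.range D.f1.toLinearMap) with hT
  have m0 : ∀ a, D.f0 a ∈ T := fun a =>
    Submodule.mem_sup_right (Submodule.mem_sup_left ⟨a, rfl⟩)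
  have m1 : ∀ a, D.f1 a ∈ T := fun a =>
    Submodule.mem_sup_right (Submodule.mem_sup_right ⟨a, rfl⟩)
  have hu : ∀ a : M0, (∀ k : ℕ, D.f1 D.v ^ k * D.f0 a ∈ T) →
      ∀ k : ℕ, D.f1 D.v ^ k * D.f0 (D.u * a) ∈ T := by
    intro a ha k
    rcases k with _ | k
    · rw [pow_zero, one_mul]
      exact m0 _
    · have : D.f1 D.v ^ (k + 1) * D.f0 (D.u * a) = D.f1 D.v ^ k * D.f0 a := by
        rw [map_mul, pow_succ]
        linear_combination (D.f1 D.v ^ k * D.f0 a) * D.huv
      rw [this]
      exact ha k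
  have key : ∀ a : M0, ∀ k : ℕ, D.f1 D.v ^ k * D.f0 a ∈ T := by
    intro a
    have ha : a ∈ Submodule.span R[X] (s : Set M0) := hs ▸ Submodule.mem_top
    induction ha using Submodule.span_induction with
    | mem e he =>
      intro k
      rcases Nat.lt_or_ge k (n e) with h | h
      · refine Submodule.mem_sup_left (Finset.le_sup (f := fun e =>
          W R (D.f1 D.v) (n e) * Submodule.span R {D.f0 e}) he ?_)
        exact Submodule.mul_mem_mul (pow_mem_W _ h) (Submodule.mem_span_singleton_self _)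
      · obtain ⟨j, rfl⟩ := Nat.exists_eq_add_of_le h
        have h1 : D.f0 e * D.f1 D.v ^ n e = D.f1 (b e) := hb e
        have : D.f1 D.v ^ (n e + j) * D.f0 e = D.f1 (D.v ^ j * b e) := by
          rw [map_mul, map_pow, ← h1]
          ring
        rw [this]
        exact m1 _
    | zero => intro k; simp
    | add x y _ _ hx hy =>
      intro k
      rw [map_add, mul_add]
      exact T.add_mem (hx k) (hy k)
    | smul q x _ hx =>
      change ∀ k : ℕ, D.f1 D.v ^ k * D.f0 (aeval D.u q * x) ∈ T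
      induction q using Polynomial.induction_on with
      | C r =>
        intro k
        rw [aeval_C, ← Algebra.smul_def, map_smul, mul_smul_comm]
        exact T.smul_mem _ (hx k)
      | add p q hp hq =>
        intro k
        rw [map_add, add_mul, map_add, mul_add]
        exact T.add_mem (hp k) (hq k)
      | monomial m r h =>
        have : aeval D.u (C r * X ^ (m + 1)) * x = D.u * (aeval D.u (C r * X ^ m) * x) := by
          simp only [map_mul, map_pow, aeval_X]
          ring
        rw [this]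
        exact hu _ h
  rw [eq_top_iff]
  intro m _
  obtain ⟨k, a, h⟩ := D.loc0.sur m
  have h1 : m * D.f0 D.u ^ k = D.f0 a := h
  have : m = D.f1 D.v ^ k * D.f0 a := by
    rw [← h1, mul_left_comm, ← mul_pow, mul_comm (D.f1 D.v), D.huv, one_pow, mul_one]
  rw [this]
  exact key a k

lemma artin_rees' {R M : Type} [CommRing R] [AddCommGroup M] [Module R M] [IsNoetherianRing R]
    (I : Ideal R) (G N : Submodule R M) (hG : G.FG) (h : G ⊔ N = ⊤) :
    ∃ k : ℕ, ∀ x ∈ N, x ∈ I ^ k • (⊤ : Submodule R M) → x ∈ I • N := by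
  have : Module.Finite R G := .of_fg hG
  obtain ⟨k, hk⟩ := I.exists_pow_inf_eq_pow_smul (N.comap G.subtype)
  refine ⟨k + 1, fun x hx h1 => ?_⟩
  rw [← h, Submodule.smul_sup] at h1
  obtain ⟨g, hg, n, hn, rfl⟩ := Submodule.mem_sup.1 h1
  have hn' : n ∈ I • N := Submodule.smul_mono_left (Ideal.pow_le_self (by omega)) hn
  refine Submodule.add_mem _ ?_ hn'
  have hgN : g ∈ N := by
    have := N.sub_mem hx (Submodule.smul_le_right hn')
    simpa using this
  rw [← G.map_subtype_top, ← Submodule.map_smul''] at hg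
  obtain ⟨y, hy, rfl⟩ := hg
  have h2 : y ∈ I ^ (k + 1) • (⊤ : Submodule R G) ⊓ N.comap G.subtype := ⟨hy, hgN⟩
  rw [hk (k + 1) (by omega), show k + 1 - k = 1 by omega, pow_one] at h2
  have h3 := Submodule.mem_map_of_mem (f := G.subtype) h2
  rw [Submodule.map_smul''] at h3
  refine Submodule.smul_mono le_rfl ?_ h3
  rintro _ ⟨z, hz, rfl⟩
  exact hz.2

theorem Two.exists_lift {R M0 M1 M : Type} [CommRing R] [CommRing M0] [CommRing M1] [CommRing M]
    [Algebra R M0] [Algebra R M1] [Algebra R M] [IsNoetherianRing R] (D : Two R M0 M1 M)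
    (I : Ideal R) : ∃ N : ℕ, ∀ (a0 : M0) (a1 : M1),
      D.f0 a0 - D.f1 a1 ∈ (I ^ N).map (algebraMap R M) →
      ∃ (c0 : M0) (c1 : M1), D.f0 c0 = D.f1 c1 ∧ c0 - a0 ∈ I.map (algebraMap R M0) ∧
        c1 - a1 ∈ I.map (algebraMap R M1) := by
  obtain ⟨G, hG, h⟩ := exists_compl D
  obtain ⟨k, hk⟩ := artin_rees' I G _ hG h
  refine ⟨k, fun a0 a1 ha => ?_⟩
  have h1 := hk (D.f0 a0 - D.f1 a1)
    (Submodule.sub_mem _ (Submodule.mem_sup_left ⟨a0, rfl⟩) (Submodule.mem_sup_right ⟨a1, rfl⟩))
    (by rw [Ideal.smul_top_eq_map]; exact ha)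
  rw [Submodule.smul_sup, LinearMap.range_eq_map, LinearMap.range_eq_map, ← Submodule.map_smul'',
    ← Submodule.map_smul'', Ideal.smul_top_eq_map, Ideal.smul_top_eq_map] at h1
  obtain ⟨_, ⟨y0, hy0, rfl⟩, _, ⟨y1, hy1, rfl⟩, h2⟩ := Submodule.mem_sup.1 h1
  have h3 : D.f0 y0 + D.f1 y1 = D.f0 a0 - D.f1 a1 := h2
  refine ⟨a0 - y0, a1 + y1, ?_, ?_, ?_⟩
  · rw [map_sub, map_add]
    linear_combination -h3
  · rw [sub_sub_cancel_left]
    exact neg_mem hy0
  · rw [add_sub_cancel_left]
    exact hy1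

end Pool.Agent.H647Z.TwoInt
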