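import Mathlib

set_option autoImplicit false

open Set Filter

namespace Pool.Agent.H647Z.Fub

/-- The `n`-th column. -/
def col (n : ℕ) : Set ℕ := {x | x.unpair.1 = n}

lemma col_infinite (n : ℕ) : (col n).Infinite :=
  infinite_of_injective_forall_mem (f := fun m => Nat.pair n m)
    (fun _ _ h => (Nat.pair_eq_pair.1 h).2) fun m => by simp [col]

lemma col_eq {x n m : ℕ} (h : x ∈ col n) (h' : x ∈ col m) : n = m := h.symm.trans h'

/-- All but finitely many columns are finite. -/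
def Null (S : Set ℕ) : Prop := {n | (S ∩ col n).Infinite}.Finite

lemma Null.mono {S T : Set ℕ} (hT : Null T) (h : S ⊆ T) : Null S :=
  Finite.subset hT fun _ hn => Infinite.mono (inter_subset_inter_left _ h) hn

lemma Null.union {S T : Set ℕ} (hS : Null S) (hT : Null T) : Null (S ∪ T) := by
  refine Finite.subset (Finite.union hS hT) fun n hn => ?_
  rw [mem_ofPred_eq, union_inter_distrib_right, infinite_union] at hn
  exact hn

lemma Null.of_union {S T R : Set ℕ} (hS : Null S) (hT : Null T) (h : R ⊆ S ∪ T) : Null R :=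
  (hS.union hT).mono h

lemma null_of_finite {S : Set ℕ} (h : ∀ n, (S ∩ col n).Finite) : Null S := by
  have : {n | (S ∩ col n).Infinite} = ∅ := eq_empty_of_forall_notMem fun n hn => hn (h n)
  rw [Null, this]
  exact finite_empty

lemma null_empty : Null ∅ := null_of_finite fun n => by simp

lemma null_diff_self (S : Set ℕ) : Null (S \ S) := by
  rw [Set.diff_self]
  exact null_empty

lemma null_of_cols {S : Set ℕ} {N : Set ℕ} (hN : N.Finite) (h : ∀ x ∈ S, ∃ n ∈ N, x ∈ col n) :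
    Null S := by
  refine hN.subset fun n hn => ?_
  obtain ⟨x, hx, hx'⟩ := Set.Infinite.nonempty hn
  obtain ⟨m, hm, h1⟩ := h x hx
  rwa [col_eq hx' h1]

lemma Null.trans {S T R : Set ℕ} (h : Null (S \ T)) (h' : Null (T \ R)) : Null (S \ R) :=
  h.of_union h' fun x hx => by
    by_cases hT : x ∈ T
    · exact Or.inr ⟨hT, hx.2⟩
    · exact Or.inl ⟨hx.1, hT⟩

lemma Null.inter {S T R : Set ℕ} (h : Null (S \ T)) (h' : Null (S \ R)) : Null (S \ (T ∩ R)) :=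
  h.of_union h' fun x hx => by
    by_cases hT : x ∈ T
    · exact Or.inr ⟨hx.1, fun hR => hx.2 ⟨hT, hR⟩⟩
    · exact Or.inl ⟨hx.1, hT⟩

lemma not_null_of {S T : Set ℕ} (hS : ¬ Null S) (h : Null (S \ T)) : ¬ Null T := fun hT =>
  hS (h.of_union hT fun x hx => by
    by_cases hx' : x ∈ T
    · exact Or.inr hx'
    · exact Or.inl ⟨hx, hx'⟩)

lemma exists_col {S : Set ℕ} (hS : ¬ Null S) (b : ℕ) : ∃ n, b < n ∧ (S ∩ col n).Infinite := by
  obtain ⟨n, h1, h2⟩ := Set.Infinite.exists_gt hS b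
  exact ⟨n, h2, h1⟩

lemma not_null_of_cols {S : Set ℕ} (h : ∀ b, ∃ n, b < n ∧ (S ∩ col n).Infinite) : ¬ Null S :=
  infinite_of_forall_exists_gt fun b => let ⟨n, h1, h2⟩ := h b; ⟨n, h2, h1⟩

lemma seq_rec {α : Type} (R : ℕ → α → α → Prop) (h : ∀ s z, ∃ z', R s z z') (z0 : α) :
    ∃ f : ℕ → α, f 0 = z0 ∧ ∀ s, R s (f s) (f (s + 1)) := by
  choose g hg using h
  exact ⟨fun n => Nat.rec z0 g n, rfl, fun s => hg s _⟩

lemma range_pseudo {B : ℕ → Set ℕ} (hB : Antitone B) {x : ℕ → ℕ} (hx : ∀ s, x s ∈ B s)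
    (hx' : ∀ s, s < x s) :
    range x ⊆ B 0 ∧ (range x).Infinite ∧ ∀ j, (range x \ B j).Finite := by
  refine ⟨?_, infinite_of_forall_exists_gt fun b => ⟨x b, ⟨b, rfl⟩, hx' b⟩, fun j => ?_⟩
  · rintro _ ⟨s, rfl⟩
    exact hB (Nat.zero_le s) (hx s)
  · refine ((finite_Iio j).image x).subset ?_
    rintro _ ⟨⟨s, rfl⟩, h⟩
    refine ⟨s, ?_, rfl⟩
    by_contra hc
    exact h (hB (not_lt.1 hc) (hx s))

lemma pseudo {B : ℕ → Set ℕ} (hB : Antitone B) (h : ∀ s, (B s).Infinite) :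
    ∃ W ⊆ B 0, W.Infinite ∧ ∀ j, (W \ B j).Finite := by
  choose x hx hx' using fun s => (h s).exists_gt s
  exact ⟨range x, range_pseudo hB hx hx'⟩

lemma split_infinite {B : Set ℕ} (hB : B.Infinite) (u : Ultrafilter ℕ) :
    ∃ W ⊆ B, W.Infinite ∧ W ∉ u := by
  let e := hB.natEmbedding
  have h0 : Function.Injective fun k => (e (2 * k) : ℕ) := fun a b h => by
    have := e.injective (Subtype.ext h)
    omega
  have h1 : Function.Injective fun k => (e (2 * k + 1) : ℕ) := fun a b h => by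
    have := e.injective (Subtype.ext h)
    omega
  by_cases h : range (fun k => (e (2 * k) : ℕ)) ∈ u
  · refine ⟨range fun k => (e (2 * k + 1) : ℕ), ?_, infinite_range_of_injective h1, fun h' => ?_⟩
    · rintro _ ⟨k, rfl⟩
      exact (e _).2
    · obtain ⟨_, ⟨a, rfl⟩, b, hb⟩ := Ultrafilter.nonempty_of_mem (inter_mem h h')
      have := e.injective (Subtype.ext hb)
      omega
  · refine ⟨_, ?_, infinite_range_of_injective h0, h⟩
    rintro _ ⟨k, rfl⟩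
    exact (e _).2

lemma not_mem_of_finite {u : Ultrafilter ℕ} (hu : (u : Filter ℕ) ≤ cofinite) {S : Set ℕ}
    (hS : S.Finite) : S ∉ u :=
  Ultrafilter.compl_mem_iff_notMem.1 (hu hS.compl_mem_cofinite)

lemma avoid {𝒰 : Set (Ultrafilter ℕ)} (hc : 𝒰.Countable)
    (hn : ∀ u ∈ 𝒰, (u : Filter ℕ) ≤ cofinite) {B : Set ℕ} (hB : B.Infinite) :
    ∃ W ⊆ B, W.Infinite ∧ ∀ u ∈ 𝒰, W ∉ u := by
  rcases 𝒰.eq_empty_or_nonempty with rfl | hne
  · exact ⟨B, subset_rfl, hB, by simp⟩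
  obtain ⟨e, rfl⟩ := hc.exists_eq_range hne
  obtain ⟨f, h0, hf⟩ := seq_rec (α := {C : Set ℕ // C.Infinite})
    (fun s C C' => C'.1 ⊆ C.1 ∧ C'.1 ∉ e s)
    (fun s C => let ⟨W, h1, h2, h3⟩ := split_infinite C.2 (e s); ⟨⟨W, h2⟩, h1, h3⟩) ⟨B, hB⟩
  obtain ⟨W, h1, h2, h3⟩ := pseudo (B := fun s => (f s).1)
    (antitone_nat_of_succ_le fun s => (hf s).1) fun s => (f s).2
  refine ⟨W, by simpa [h0] using h1, h2, ?_⟩
  rintro _ ⟨s, rfl⟩ hW
  have h4 : (W \ (f (s + 1)).1) ∪ (f (s + 1)).1 ∈ e s :=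
    mem_of_superset hW (subset_sdiff_union _ _)
  rcases Ultrafilter.union_mem_iff.1 h4 with h5 | h5
  · exact not_mem_of_finite (hn _ ⟨s, rfl⟩) (h3 _) h5
  · exact (hf s).2 h5

lemma kill {u : Ultrafilter ℕ} (hu : (u : Filter ℕ) ≤ cofinite) {B : Set ℕ} (hB : B ∈ u)
    {𝒯 : Set (Set ℕ)} (hc : 𝒯.Countable) (h : ∀ T ∈ 𝒯, T ∉ u) :
    ∃ W ⊆ B, W.Infinite ∧ ∀ T ∈ 𝒯, (W ∩ T).Finite := by
  have hinf : ∀ C ∈ u, C.Infinite := fun C hC hf => not_mem_of_finite hu hf hC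
  rcases 𝒯.eq_empty_or_nonempty with rfl | hne
  · exact ⟨B, subset_rfl, hinf B hB, by simp⟩
  obtain ⟨e, rfl⟩ := hc.exists_eq_range hne
  obtain ⟨W, h1, h2, h3⟩ := pseudo (B := fun s => B ∩ ⋂ j ∈ Iio s, (e j)ᶜ)
    (fun s t hst x hx => ⟨hx.1, mem_iInter₂.2 fun j hj =>
      mem_iInter₂.1 hx.2 j (lt_of_lt_of_le hj hst)⟩)
    fun s => hinf _ (inter_mem hB ((biInter_mem (finite_Iio s)).2 fun j _ =>
      Ultrafilter.compl_mem_iff_notMem.2 (h _ ⟨j, rfl⟩)))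
  refine ⟨W, fun x hx => (h1 hx).1, h2, ?_⟩
  rintro _ ⟨s, rfl⟩
  refine (h3 (s + 1)).subset fun x hx => ⟨hx.1, fun h' => ?_⟩
  exact mem_iInter₂.1 h'.2 s (Nat.lt_succ_self s) hx.2

section

variable {P : Type} [Preorder P]

lemma baire (hσ : ∀ p : ℕ → P, (∀ i, p (i + 1) ≤ p i) → ∃ q, ∀ i, q ≤ p i)
    {ι : Type} [Countable ι] (D : ι → Set P)
    (hd : ∀ i, ∀ q ∈ D i, ∀ r ≤ q, r ∈ D i) (p : P)
    (h : ∀ i, ∀ q ≤ p, ∃ r ≤ q, r ∈ D i) : ∃ q ≤ p, ∀ i, q ∈ D i := by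
  rcases isEmpty_or_nonempty ι with hι | hι
  · exact ⟨p, le_rfl, fun i => hι.elim i⟩
  obtain ⟨e, he⟩ := exists_surjective_nat ι
  choose g hg1 hg2 using h
  let u : ℕ → {q // q ≤ p} := fun n => Nat.rec ⟨p, le_rfl⟩
    (fun n q => ⟨g (e n) q.1 q.2, (hg1 _ _ _).trans q.2⟩) n
  obtain ⟨q, hq⟩ := hσ (fun n => (u n).1) fun n => hg1 _ _ _
  refine ⟨q, hq 0, fun i => ?_⟩
  obtain ⟨n, rfl⟩ := he i
  exact hd _ _ (hg2 (e n) (u n).1 (u n).2) _ (hq (n + 1))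

/-- Shrinking the designated columns. -/
def Shr (N : Finset ℕ) (W W' : ℕ → Set ℕ) : Prop := ∀ n ∈ N, W' n ⊆ W n ∧ (W' n).Infinite

lemma Shr.trans {N : Finset ℕ} {W W' W'' : ℕ → Set ℕ} (h : Shr N W W') (h' : Shr N W' W'') :
    Shr N W W'' := fun n hn => ⟨(h' n hn).1.trans (h n hn).1, (h' n hn).2⟩

lemma pseudo_shr (N : Finset ℕ) (W : ℕ → ℕ → Set ℕ) (h : ∀ s, Shr N (W s) (W (s + 1)))
    (h0 : ∀ n ∈ N, (W 0 n).Infinite) :
    ∃ V, Shr N (W 0) V ∧ ∀ s, ∀ n ∈ N, (V n \ W s n).Finite := by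
  have : ∀ n, ∃ V : Set ℕ, n ∈ N → V ⊆ W 0 n ∧ V.Infinite ∧ ∀ s, (V \ W s n).Finite := by
    intro n
    by_cases hn : n ∈ N
    · obtain ⟨V, h1, h2, h3⟩ := pseudo (B := fun s => W s n)
        (antitone_nat_of_succ_le fun s => (h s n hn).1)
        (fun s => by
          cases s with
          | zero => exact h0 n hn
          | succ s => exact (h s n hn).2)
      exact ⟨V, fun _ => ⟨h1, h2, h3⟩⟩
    · exact ⟨∅, fun h => absurd h hn⟩
  choose V hV using this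
  exact ⟨V, fun n hn => ⟨(hV n hn).1, (hV n hn).2.1⟩, fun s n hn => (hV n hn).2.2 s⟩

lemma inter_inf {A B C : Set ℕ} (hA : A.Infinite) (h : A ⊆ B) (h' : (B \ C).Finite) :
    (A ∩ C).Infinite := fun hf =>
  hA ((hf.union h').subset fun x hx => by
    by_cases hC : x ∈ C
    · exact Or.inl ⟨hx, hC⟩
    · exact Or.inr ⟨h hx, hC⟩)

variable {J : Type} (Val : P → J → Set ℕ → Prop)

/-- The `i`-th set is decided and contains the given data. -/
def Good (a : Set ℕ) (N : Finset ℕ) (W : ℕ → Set ℕ) (p : P) (i : J) (S : Set ℕ) : Prop :=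
  Val p i S ∧ a ⊆ S ∧ ∀ n ∈ N, W n ⊆ S

/-- New good indices can be found below every shrinking. -/
def Alive (a : Set ℕ) (N : Finset ℕ) (W : ℕ → Set ℕ) (p : P) : Prop :=
  ∀ E : Set J, E.Countable → ∀ W' p', Shr N W W' → p' ≤ p →
    ∃ W'' p'' i S, Shr N W' W'' ∧ p'' ≤ p' ∧ i ∉ E ∧ Good Val a N W'' p'' i S

/-- No new good index can be found. -/
def Dead (a : Set ℕ) (N : Finset ℕ) (W : ℕ → Set ℕ) (p : P) (E : Set J) : Prop :=
  ∀ W' p' i S, Shr N W W' → p' ≤ p → i ∉ E → ¬ Good Val a N W' p' i S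

variable {Val}

lemma Alive.mono {a : Set ℕ} {N : Finset ℕ} {W W' : ℕ → Set ℕ} {p p' : P}
    (h : Alive Val a N W p) (hW : Shr N W W') (hp : p' ≤ p) : Alive Val a N W' p' :=
  fun E hE W'' p'' h1 h2 => h E hE W'' p'' (hW.trans h1) (h2.trans hp)

lemma dead_of {a : Set ℕ} {N : Finset ℕ} {W : ℕ → Set ℕ} {p : P} (h : ¬ Alive Val a N W p) :
    ∃ E : Set J, E.Countable ∧ ∃ W' p', Shr N W W' ∧ p' ≤ p ∧ Dead Val a N W' p' E := by
  by_contra hc
  refine h fun E hE W' p' h1 h2 => ?_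
  by_contra hc'
  exact hc ⟨E, hE, W', p', h1, h2, fun W'' p'' i S h3 h4 h5 h6 =>
    hc' ⟨W'', p'', i, S, h3, h4, h5, h6⟩⟩

lemma step_point (hσ : ∀ p : ℕ → P, (∀ i, p (i + 1) ≤ p i) → ∃ q, ∀ i, q ≤ p i)
    {a : Set ℕ} {N : Finset ℕ} {W : ℕ → Set ℕ} {p : P} (h : Alive Val a N W p)
    (hW : ∀ n ∈ N, (W n).Infinite) {n0 : ℕ} (hn0 : n0 ∈ N) (b : ℕ) :
    ∃ W' p' x, Shr N W W' ∧ p' ≤ p ∧ x ∈ W n0 ∧ b < x ∧ Alive Val (insert x a) N W' p' := by
  classical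
  by_contra hc
  obtain ⟨f, h0, hf⟩ := seq_rec (α := {z : (ℕ → Set ℕ) × P // Shr N W z.1 ∧ z.2 ≤ p})
    (fun s z z' => Shr N z.1.1 z'.1.1 ∧ z'.1.2 ≤ z.1.2 ∧ ∃ x ∈ z.1.1 n0, s < x ∧
      ∃ E : Set J, E.Countable ∧ Dead Val (insert x a) N z'.1.1 z'.1.2 E)
    (fun s z => by
      obtain ⟨x, hx, hx'⟩ := (z.2.1 n0 hn0).2.exists_gt (max b s)
      obtain ⟨E, hE, W', p', h1, h2, h3⟩ := dead_of (Val := Val) (a := insert x a) (N := N)
        (W := z.1.1) (p := z.1.2) fun hA => hc ⟨_, _, x, z.2.1, z.2.2, (z.2.1 n0 hn0).1 hx,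
          (le_max_left _ _).trans_lt hx', hA⟩
      exact ⟨⟨(W', p'), z.2.1.trans h1, h2.trans z.2.2⟩, h1, h2, x, hx,
        (le_max_right _ _).trans_lt hx', E, hE, h3⟩)
    ⟨(W, p), fun n hn => ⟨subset_rfl, hW n hn⟩, le_rfl⟩
  choose h1 h2 x hx hx' E hE hD using hf
  obtain ⟨q, hq⟩ := hσ (fun s => (f s).1.2) h2
  obtain ⟨V, hV, hV'⟩ := pseudo_shr N (fun s => (f s).1.1) h1 fun n hn => ((f 0).2.1 n hn).2
  obtain ⟨h3, h4, h5⟩ := range_pseudo (B := fun s => (f s).1.1 n0)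
    (antitone_nat_of_succ_le fun s => (h1 s n0 hn0).1) hx hx'
  have h6 : Shr N (f 0).1.1 (Function.update V n0 (range x)) := fun n hn => by
    by_cases h7 : n = n0
    · subst h7
      rw [Function.update_self]
      exact ⟨h3, h4⟩
    · rw [Function.update_of_ne h7]
      exact hV n hn
  have h7 : ∀ s, ∀ n ∈ N, (Function.update V n0 (range x) n \ (f s).1.1 n).Finite :=
    fun s n hn => by
    by_cases h7 : n = n0
    · subst h7
      rw [Function.update_self]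
      exact h5 s
    · rw [Function.update_of_ne h7]
      exact hV' s n hn
  obtain ⟨W'', p'', i, S, g1, g2, g3, g4, g5, g6⟩ := h (⋃ s, E s) (countable_iUnion hE) _ q
    ((f 0).2.1.trans h6) ((hq 0).trans (f 0).2.2)
  obtain ⟨y, hy⟩ := (g1 n0 hn0).2.nonempty
  have hy' := (g1 n0 hn0).1 hy
  rw [Function.update_self] at hy'
  obtain ⟨s, rfl⟩ := hy'
  exact hD s (fun n => W'' n ∩ (f (s + 1)).1.1 n) p'' i S
    (fun n hn => ⟨inter_subset_right, inter_inf (g1 n hn).2 (g1 n hn).1 (h7 _ n hn)⟩)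
    (g2.trans (hq _)) (fun h8 => g3 (mem_iUnion.2 ⟨s, h8⟩))
    ⟨g4, insert_subset (g6 n0 hn0 hy) g5, fun n hn => inter_subset_left.trans (g6 n hn)⟩

lemma step_points (hσ : ∀ p : ℕ → P, (∀ i, p (i + 1) ≤ p i) → ∃ q, ∀ i, q ≤ p i)
    {a : Set ℕ} {N : Finset ℕ} {W : ℕ → Set ℕ} {p : P} (h : Alive Val a N W p)
    (hW : ∀ n ∈ N, (W n).Infinite) (b : ℕ) (M : Finset ℕ) (hM : M ⊆ N) :
    ∃ W' p' a', Shr N W W' ∧ p' ≤ p ∧ a ⊆ a' ∧ (∀ x ∈ a', x ∈ a ∨ ∃ n ∈ N, x ∈ W n) ∧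
      (∀ n ∈ M, ∃ x ∈ a', x ∈ W n ∧ b < x) ∧ Alive Val a' N W' p' := by
  classical
  induction M using Finset.induction_on with
  | empty => exact ⟨W, p, a, fun n hn => ⟨subset_rfl, hW n hn⟩, le_rfl, subset_rfl,
      fun x hx => Or.inl hx, by simp, h⟩
  | insert m M _ ih =>
    obtain ⟨W', p', a', h1, h2, h3, h4, h5, h6⟩ := ih ((Finset.subset_insert _ _).trans hM)
    have hm := hM (Finset.mem_insert_self m M)
    obtain ⟨W'', p'', x, g1, g2, g3, g4, g5⟩ := step_point hσ h6 (fun n hn => (h1 n hn).2) hm b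
    refine ⟨W'', p'', insert x a', h1.trans g1, g2.trans h2, h3.trans (subset_insert _ _), ?_, ?_,
      g5⟩
    · rintro y (rfl | hy)
      · exact Or.inr ⟨m, hm, (h1 m hm).1 g3⟩
      · exact h4 y hy
    · intro n hn
      rcases Finset.mem_insert.1 hn with rfl | hn
      · exact ⟨x, mem_insert _ _, (h1 n hm).1 g3, g4⟩
      · obtain ⟨y, k1, k2⟩ := h5 n hn
        exact ⟨y, mem_insert_of_mem _ k1, k2⟩

end

end Pool.Agent.H647Z.Fub
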