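import Mathlib
import Pool.Agent.H647Z.Fub1

set_option autoImplicit false

open Set Filter

namespace Pool.Agent.H647Z.Fub

variable {P : Type} [Preorder P] {J : Type} {Val : P → J → Set ℕ → Prop}

/-- A forcing notion with a generic ultrafilter generated by the sets `Y p`. -/
structure Tower (Y : P → Set ℕ) : Prop where
  sigma : ∀ p : ℕ → P, (∀ i, p (i + 1) ≤ p i) → ∃ q, ∀ i, q ≤ p i
  pos : ∀ p, ¬ Null (Y p)
  mono : ∀ p q, q ≤ p → Null (Y q \ Y p)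
  lb : ∀ p : ℕ → P, (∀ i, p (i + 1) ≤ p i) → ∀ Z, ¬ Null Z → (∀ i, Null (Z \ Y (p i))) →
    ∃ q, (∀ i, q ≤ p i) ∧ Y q = Z

variable {Y : P → Set ℕ}

lemma step_col (T : Tower Y) (hV : ∀ s i S, Val s i S → Null (Y s \ S))
    {a : Set ℕ} {N : Finset ℕ} {W : ℕ → Set ℕ} {p : P} (h : Alive Val a N W p)
    (hW : ∀ n ∈ N, (W n).Infinite) {R : Set ℕ} (hR : Null (Y p \ R)) (b : ℕ) :
    ∃ W' p' n, b < n ∧ n ∉ N ∧ Shr N W W' ∧ p' ≤ p ∧ W' n ⊆ R ∩ col n ∧ (W' n).Infinite ∧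
      Alive Val a (insert n N) W' p' := by
  classical
  by_contra hc
  obtain ⟨f, h0, hf⟩ := seq_rec (α := {z : (ℕ → Set ℕ) × P × Set ℕ × ℕ // Shr N W z.1 ∧
      z.2.1 ≤ p ∧ z.2.2.1 ⊆ R ∧ Null (Y z.2.1 \ z.2.2.1) ∧ z.2.2.1 ⊆ Y z.2.1})
    (fun _ z z' => Shr N z.1.1 z'.1.1 ∧ z'.1.2.1 ≤ z.1.2.1 ∧ z'.1.2.2.1 ⊆ z.1.2.2.1 ∧
      z.1.2.2.2 < z'.1.2.2.2 ∧ z'.1.2.2.2 ∉ N ∧
      z'.1.1 z'.1.2.2.2 ⊆ z.1.2.2.1 ∩ col z'.1.2.2.2 ∧ (z'.1.1 z'.1.2.2.2).Infinite ∧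
      ∃ E : Set J, E.Countable ∧ Dead Val a (insert z'.1.2.2.2 N) z'.1.1 z'.1.2.1 E)
    (fun s z => by
      obtain ⟨⟨W1, p1, R1, b1⟩, z1, z2, z3, z4, z5⟩ := z
      obtain ⟨n, hn, hn'⟩ := exists_col (not_null_of (T.pos p1) z4) (max (max b b1) (N.sup id))
      have hnN : n ∉ N := fun h' => by
        have : n ≤ N.sup id := Finset.le_sup (f := id) h'
        omega
      have hS : Shr N W1 (Function.update W1 n (R1 ∩ col n)) := fun m hm => by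
        rw [Function.update_of_ne (by rintro rfl; exact hnN hm)]
        exact ⟨subset_rfl, (z1 m hm).2⟩
      obtain ⟨E, hE, W', p', h1, h2, h3⟩ := dead_of (Val := Val) (a := a) (N := insert n N)
        (W := Function.update W1 n (R1 ∩ col n)) (p := p1) fun hA => hc ⟨_, _, n, by omega, hnN,
          z1.trans hS, z2, by
            rw [Function.update_self]
            exact inter_subset_inter_left _ z3, by rwa [Function.update_self], hA⟩
      have h4 : Shr N W1 W' := hS.trans fun m hm => h1 m (Finset.mem_insert_of_mem hm)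
      have h5 := h1 n (Finset.mem_insert_self _ _)
      rw [Function.update_self] at h5
      exact ⟨⟨(W', p', R1 ∩ Y p', n), z1.trans h4, h2.trans z2, inter_subset_left.trans z3,
        ((T.mono _ _ h2).trans z4).inter (null_diff_self _), inter_subset_right⟩, h4, h2,
        inter_subset_left, by change b1 < n; omega, hnN, h5.1, h5.2, E, hE, h3⟩)
    ⟨(W, p, R ∩ Y p, 0), fun n hn => ⟨subset_rfl, hW n hn⟩, le_rfl, inter_subset_left,
      hR.inter (null_diff_self _), inter_subset_right⟩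
  choose h1 h2 h3 h4 h5 h6 h7 E hE hD using hf
  let n : ℕ → ℕ := fun s => (f (s + 1)).1.2.2.2
  let V : ℕ → Set ℕ := fun s => (f (s + 1)).1.1 (n s)
  have hn : StrictMono n := strictMono_nat_of_lt_succ fun s => h4 (s + 1)
  have hRa : Antitone fun s => (f s).1.2.2.1 := antitone_nat_of_succ_le h3
  obtain ⟨q, hq, hq'⟩ := T.lb (fun s => (f s).1.2.1) h2 (⋃ s, V s)
    (not_null_of_cols fun c => ⟨n (c + 1), lt_of_lt_of_le (Nat.lt_succ_self c) (hn.id_le _),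
      (h7 (c + 1)).mono fun x hx => ⟨mem_iUnion.2 ⟨c + 1, hx⟩, (h6 _ hx).2⟩⟩)
    (fun j => null_of_cols ((finite_Iio j).image n) (by
      rintro x ⟨hx, hx'⟩
      obtain ⟨s, hs⟩ := mem_iUnion.1 hx
      refine ⟨n s, ⟨s, ?_, rfl⟩, (h6 s hs).2⟩
      by_contra hc'
      exact hx' ((f j).2.2.2.2.2 (hRa (not_lt.1 hc') (h6 s hs).1))))
  obtain ⟨U, hU, hU'⟩ := pseudo_shr N (fun s => (f s).1.1) h1 fun n hn => ((f 0).2.1 n hn).2
  obtain ⟨W'', p'', i, S, g1, g2, g3, g4, g5, g6⟩ := h (⋃ s, E s) (countable_iUnion hE) U q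
    ((f 0).2.1.trans hU) ((hq 0).trans (f 0).2.2.1)
  obtain ⟨m, -, hm⟩ := exists_col (not_null_of (T.pos p'')
    ((hV _ _ _ g4).inter (hq' ▸ T.mono _ _ g2))) 0
  obtain ⟨y, ⟨-, hy⟩, hy'⟩ := hm.nonempty
  obtain ⟨s, hs⟩ := mem_iUnion.1 hy
  have hms : m = n s := col_eq hy' (h6 s hs).2
  subst hms
  have h8 : (S ∩ V s).Infinite := hm.mono fun x hx => by
    obtain ⟨t, ht⟩ := mem_iUnion.1 hx.1.2
    have := hn.injective (col_eq hx.2 (h6 t ht).2)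
    subst this
    exact ⟨hx.1.1, ht⟩
  refine hD s (Function.update (fun m => W'' m ∩ (f (s + 1)).1.1 m) (n s) (S ∩ V s)) p'' i S
    (fun m hm => ?_) (g2.trans (hq _)) (fun h8 => g3 (mem_iUnion.2 ⟨s, h8⟩))
    ⟨g4, g5, fun m hm => ?_⟩
  · rcases Finset.mem_insert.1 hm with rfl | hm
    · rw [Function.update_self]
      exact ⟨inter_subset_right, h8⟩
    · rw [Function.update_of_ne (by rintro rfl; exact h5 s hm)]
      exact ⟨inter_subset_right, inter_inf (g1 m hm).2 (g1 m hm).1 (hU' _ m hm)⟩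
  · rcases Finset.mem_insert.1 hm with rfl | hm
    · rw [Function.update_self]
      exact inter_subset_left
    · rw [Function.update_of_ne (by rintro rfl; exact h5 s hm)]
      exact inter_subset_left.trans (g6 m hm)

/-- States of the fusion argument. -/
structure St (Val : P → J → Set ℕ → Prop) (Y : P → Set ℕ) where
  a : Set ℕ
  N : Finset ℕ
  W : ℕ → Set ℕ
  p : P
  R : Set ℕ
  E : Set J
  alive : Alive Val a N W p
  hW : ∀ n ∈ N, (W n).Infinite ∧ W n ⊆ col n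
  ha : ∀ x ∈ a, ∃ n ∈ N, x ∈ col n
  hR : Null (Y p \ R)
  hR' : R ⊆ Y p
  hE : E.Countable

/-- The points which are still allowed. -/
def St.all (z : St Val Y) : Set ℕ :=
  {x | x ∈ z.a ∨ (∃ n ∈ z.N, x ∈ z.W n) ∨ (x ∈ z.R ∧ ∀ n ∈ z.N, x ∉ col n)}

lemma St.step (T : Tower Y) (hV : ∀ s i S, Val s i S → Null (Y s \ S))
    (mono : ∀ s t, t ≤ s → ∀ i S, Val s i S → Val t i S) (m : ℕ) (z : St Val Y) :
    ∃ z' : St Val Y, z'.p ≤ z.p ∧ z.a ⊆ z'.a ∧ z.N ⊆ z'.N ∧ z.E ⊆ z'.E ∧ z'.all ⊆ z.all ∧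
      (∃ n ∈ z'.N, m < n) ∧ (∀ n ∈ z.N, ∃ x ∈ z'.a, x ∈ col n ∧ m < x) ∧
      ∃ i S, i ∉ z.E ∧ i ∈ z'.E ∧ Val z'.p i S ∧ z'.all ⊆ S := by
  classical
  obtain ⟨W1, p1, i, S, a1, a2, a3, a4, a5, a6⟩ := z.alive z.E z.hE z.W z.p
    (fun n hn => ⟨subset_rfl, (z.hW n hn).1⟩) le_rfl
  obtain ⟨W2, p2, a', b1, b2, b3, b4, b5, b6⟩ := step_points T.sigma (z.alive.mono a1 a2)
    (fun n hn => (a1 n hn).2) m z.N subset_rfl
  have hR : Null (Y p2 \ (z.R ∩ S)) :=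
    ((T.mono _ _ (b2.trans a2)).trans z.hR).inter (hV _ _ _ (mono _ _ b2 _ _ a4))
  obtain ⟨W3, p3, n, c1, c2, c3, c4, c5, c6, c7⟩ := step_col T hV b6 (fun n hn => (b1 n hn).2) hR m
  have hS := (a1.trans b1).trans c3
  have key : ∀ x, (x ∈ a' ∨ (∃ k ∈ insert n z.N, x ∈ W3 k) ∨
      (x ∈ z.R ∩ S ∩ Y p3 ∧ ∀ k ∈ insert n z.N, x ∉ col k)) → x ∈ z.all ∧ x ∈ S := by
    rintro x (hx | ⟨k, hk, hx⟩ | ⟨hx, hx'⟩)
    · rcases b4 x hx with h | ⟨k, hk, h⟩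
      · exact ⟨Or.inl h, a5 h⟩
      · exact ⟨Or.inr (Or.inl ⟨k, hk, (a1 k hk).1 h⟩), a6 k hk h⟩
    · rcases Finset.mem_insert.1 hk with rfl | hk
      · refine ⟨Or.inr (Or.inr ⟨(c5 hx).1.1, fun l hl h => c2 ?_⟩), (c5 hx).1.2⟩
        rwa [col_eq (c5 hx).2 h]
      · exact ⟨Or.inr (Or.inl ⟨k, hk, (hS k hk).1 hx⟩), a6 k hk (((b1.trans c3) k hk).1 hx)⟩
    · exact ⟨Or.inr (Or.inr ⟨hx.1.1, fun l hl => hx' l (Finset.mem_insert_of_mem hl)⟩), hx.1.2⟩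
  refine ⟨⟨a', insert n z.N, W3, p3, z.R ∩ S ∩ Y p3, insert i z.E, c7, fun k hk => ?_,
    fun x hx => ?_, ((T.mono _ _ c4).trans hR).inter (null_diff_self _), inter_subset_right,
    z.hE.insert i⟩, c4.trans (b2.trans a2), b3, Finset.subset_insert _ _, subset_insert _ _,
    fun x hx => (key x hx).1, ⟨n, Finset.mem_insert_self _ _, c1⟩, fun k hk => ?_, i, S, a3,
    mem_insert _ _, mono _ _ (c4.trans b2) _ _ a4, fun x hx => (key x hx).2⟩
  · rcases Finset.mem_insert.1 hk with rfl | hk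
    · exact ⟨c6, fun x hx => (c5 hx).2⟩
    · exact ⟨(hS k hk).2, (hS k hk).1.trans (z.hW k hk).2⟩
  · rcases b4 x hx with h | ⟨k, hk, h⟩
    · obtain ⟨k, hk, h'⟩ := z.ha x h
      exact ⟨k, Finset.mem_insert_of_mem hk, h'⟩
    · exact ⟨k, Finset.mem_insert_of_mem hk, (z.hW k hk).2 ((a1 k hk).1 h)⟩
  · obtain ⟨x, h1, h2, h3⟩ := b5 k hk
    exact ⟨x, h1, (z.hW k hk).2 ((a1 k hk).1 h2), h3⟩

theorem bounded [Uncountable J] (T : Tower Y) (hV : ∀ s i S, Val s i S → Null (Y s \ S))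
    (mono : ∀ s t, t ≤ s → ∀ i S, Val s i S → Val t i S) (r : P)
    (dense : ∀ i, ∀ s ≤ r, ∃ t ≤ s, ∃ S, Val t i S) :
    ∃ q ≤ r, ∃ (I : ℕ → J) (B : ℕ → Set ℕ), Function.Injective I ∧ (∀ k, Val q (I k) (B k)) ∧
      Y q ⊆ ⋂ k, B k := by
  classical
  obtain ⟨f, h0, hf⟩ := seq_rec _ (St.step T hV mono)
    ⟨∅, ∅, fun _ => ∅, r, Y r, ∅, fun E hE W' p' _ h => by
      obtain ⟨i, hi⟩ : ∃ i, i ∉ E := by
        by_contra hc
        push Not at hc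
        exact not_countable_univ (hE.mono fun i _ => hc i)
      obtain ⟨t, ht, S, hS⟩ := dense i p' h
      exact ⟨W', t, i, S, by simp [Shr], ht, hi, hS, empty_subset _, by simp⟩,
      by simp, by simp, null_diff_self _, subset_rfl, countable_empty⟩
  choose h1 h2 h3 h4 h5 h6 h7 I B g1 g2 g3 g4 using hf
  have ma : Monotone fun s => (f s).a := monotone_nat_of_le_succ h2
  have mN : Monotone fun s => (f s).N := monotone_nat_of_le_succ h3
  have mE : Monotone fun s => (f s).E := monotone_nat_of_le_succ h4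
  have mA : Antitone fun s => (f s).all := antitone_nat_of_succ_le h5
  have hall : ∀ j, (⋃ s, (f s).a) ⊆ (f j).all := fun j x hx => by
    obtain ⟨s, hs⟩ := mem_iUnion.1 hx
    exact mA (le_max_right s j) (Or.inl (ma (le_max_left s j) hs))
  obtain ⟨q, hq, hq'⟩ := T.lb (fun s => (f s).p) h1 (⋃ s, (f s).a)
    (not_null_of_cols fun c => by
      obtain ⟨n, hn, hn'⟩ := h6 c
      refine ⟨n, hn', infinite_of_forall_exists_gt fun d => ?_⟩
      obtain ⟨x, k1, k2, k3⟩ := h7 (max (c + 1) d) n (mN (le_max_left _ _) hn)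
      exact ⟨x, ⟨mem_iUnion.2 ⟨_, k1⟩, k2⟩, (le_max_right _ _).trans_lt k3⟩)
    (fun j => null_of_cols (f j).N.finite_toSet (by
      rintro x ⟨hx, hx'⟩
      rcases hall j hx with h | ⟨n, hn, h⟩ | ⟨h, -⟩
      · exact (f j).ha x h
      · exact ⟨n, hn, ((f j).hW n hn).2 h⟩
      · exact absurd ((f j).hR' h) hx'))
  refine ⟨q, by simpa [h0] using hq 0, I, B, ?_, fun k => mono _ _ (hq (k + 1)) _ _ (g3 k), ?_⟩
  · refine Function.Injective.of_lt_imp_ne fun k l hkl h => g1 l ?_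
    rw [← h]
    exact mE (Nat.succ_le_of_lt hkl) (g2 k)
  · rw [hq']
    exact subset_iInter fun k => (hall (k + 1)).trans (g4 k)

end Pool.Agent.H647Z.Fub
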