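import Mathlib
import Pool.Agent.H647Z.Fub2

set_option autoImplicit false

open Set Filter

namespace Pool.Agent.H647Z.Fub

/-- One side of a condition. -/
structure Side where
  Y : Set ℕ
  U : Set (Ultrafilter ℕ)
  pos : ¬ Null Y
  cnt : U.Countable
  free : ∀ u ∈ U, (u : Filter ℕ) ≤ cofinite ∧ ∃ n, col n ∈ u
  cov : ∀ n, (Y ∩ col n).Infinite → ∃ u ∈ U, Y ∩ col n ∈ u

lemma exists_side {Y : Set ℕ} (hY : ¬ Null Y) {U : Set (Ultrafilter ℕ)} (hc : U.Countable)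
    (hf : ∀ u ∈ U, (u : Filter ℕ) ≤ cofinite ∧ ∃ n, col n ∈ u) :
    ∃ s : Side, s.Y = Y ∧ U ⊆ s.U := by
  have h : ∀ n : {n // (Y ∩ col n).Infinite}, ∃ u : Ultrafilter ℕ,
      (u : Filter ℕ) ≤ cofinite ∧ Y ∩ col n ∈ u := fun n => by
    have := n.2.cofinite_inf_principal_neBot
    obtain ⟨u, hu⟩ := Ultrafilter.exists_le (cofinite ⊓ 𝓟 (Y ∩ col n))
    exact ⟨u, hu.trans inf_le_left, le_principal_iff.1 (hu.trans inf_le_right)⟩
  choose u hu hu' using h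
  refine ⟨⟨Y, U ∪ range u, hY, hc.union (countable_range u), ?_, fun n hn =>
    ⟨u ⟨n, hn⟩, Or.inr ⟨_, rfl⟩, hu' ⟨n, hn⟩⟩⟩, rfl, subset_union_left⟩
  rintro _ (h | ⟨n, rfl⟩)
  · exact hf _ h
  · exact ⟨hu n, n, mem_of_superset (hu' n) inter_subset_right⟩

lemma Side.exists_avoid (s : Side) : ∃ A ⊆ s.Y, ¬ Null A ∧ ∀ u ∈ s.U, A ∉ u := by
  have h : ∀ n : {n // (s.Y ∩ col n).Infinite}, ∃ W ⊆ s.Y ∩ col n, W.Infinite ∧
      ∀ u ∈ s.U, W ∉ u := fun n => avoid s.cnt (fun u hu => (s.free u hu).1) n.2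
  choose W h1 h2 h3 using h
  refine ⟨⋃ n, W n, iUnion_subset fun n x hx => (h1 n hx).1, fun hn => s.pos (hn.subset ?_),
    fun u hu hA => ?_⟩
  · intro n hn
    exact (h2 ⟨n, hn⟩).mono fun x hx => ⟨mem_iUnion.2 ⟨_, hx⟩, (h1 _ hx).2⟩
  · obtain ⟨n, hn⟩ := (s.free u hu).2
    obtain ⟨y, hy, hy'⟩ := Ultrafilter.nonempty_of_mem (inter_mem hA hn)
    obtain ⟨m, hm⟩ := mem_iUnion.1 hy
    refine h3 m u hu (mem_of_superset (inter_mem hA hn) fun x hx => ?_)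
    obtain ⟨k, hk⟩ := mem_iUnion.1 hx.1
    have : k = m := Subtype.ext
      ((col_eq (h1 k hk).2 hx.2).trans (col_eq hy' (h1 m hm).2))
    rwa [this] at hk

lemma exists_killer (s : ℕ → Side) (hs : ∀ i j, i ≤ j → Null ((s j).Y \ (s i).Y))
    (𝒯 : ℕ → Set (Set ℕ)) (hc : ∀ i, (𝒯 i).Countable) (h : ∀ i, ∀ T ∈ 𝒯 i, ∀ u ∈ (s i).U, T ∉ u) :
    ∃ Z, ¬ Null Z ∧ (∀ i, Null (Z \ (s i).Y)) ∧
      ∀ C : Set ℕ, (∀ i, ∃ T ∈ 𝒯 i, C ⊆ T) → Null (Z ∩ C) := by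
  have key : ∀ i b, ∃ n, b < n ∧ ∃ W ⊆ col n, W.Infinite ∧ (∀ j ≤ i, W ⊆ (s j).Y) ∧
      ∀ T ∈ 𝒯 i, (W ∩ T).Finite := by
    intro i b
    have h1 : (⋃ j ∈ Iic i, {n | (((s i).Y \ (s j).Y) ∩ col n).Infinite}).Finite :=
      (finite_Iic i).biUnion fun j hj => hs j i hj
    obtain ⟨n, ⟨h2, h3⟩, h4⟩ := (Set.Infinite.diff (s i).pos h1).exists_gt b
    obtain ⟨u, hu, h5⟩ := (s i).cov n h2
    have h6 : col n ∩ ⋂ j ∈ Iic i, (s j).Y ∈ u := by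
      refine inter_mem (mem_of_superset h5 inter_subset_right)
        ((biInter_mem (finite_Iic i)).2 fun j hj => ?_)
      have h7 : (((s i).Y \ (s j).Y) ∩ col n).Finite := by
        by_contra h8
        exact h3 (mem_iUnion₂.2 ⟨j, hj, h8⟩)
      have h8 := Ultrafilter.compl_mem_iff_notMem.2
        (not_mem_of_finite ((s i).free u hu).1 h7)
      filter_upwards [h5, h8] with x hx hx'
      by_contra h9
      exact hx' ⟨⟨hx.1, h9⟩, hx.2⟩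
    obtain ⟨W, g1, g2, g3⟩ := kill ((s i).free u hu).1 h6 (hc i) fun T hT => h i T hT u hu
    exact ⟨n, h4, W, fun x hx => (g1 hx).1, g2, fun j hj x hx => mem_iInter₂.1 (g1 hx).2 j hj, g3⟩
  obtain ⟨f, -, hf⟩ := seq_rec _ key 0
  choose h1 W h2 h3 h4 h5 using hf
  have hn : StrictMono f := strictMono_nat_of_lt_succ h1
  refine ⟨⋃ i, W i, not_null_of_cols fun c => ⟨f (c + 1),
    lt_of_lt_of_le (Nat.lt_succ_self c) (hn.id_le _),
    (h3 c).mono fun x hx => ⟨mem_iUnion.2 ⟨c, hx⟩, h2 c hx⟩⟩, fun j =>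
      null_of_cols ((finite_Iio j).image fun i => f (i + 1)) ?_, fun C hC =>
      null_of_finite fun n => ?_⟩
  · rintro x ⟨hx, hx'⟩
    obtain ⟨i, hi⟩ := mem_iUnion.1 hx
    refine ⟨_, ⟨i, ?_, rfl⟩, h2 i hi⟩
    by_contra hc'
    exact hx' (h4 i j (not_lt.1 hc') hi)
  · rcases ((⋃ i, W i) ∩ C ∩ col n).eq_empty_or_nonempty with h6 | ⟨y, ⟨hy, -⟩, hy'⟩
    · rw [h6]
      exact finite_empty
    obtain ⟨i, hi⟩ := mem_iUnion.1 hy
    obtain ⟨T, hT, hCT⟩ := hC i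
    refine (h5 i T hT).subset fun x hx => ⟨?_, hCT hx.1.2⟩
    obtain ⟨k, hk⟩ := mem_iUnion.1 hx.1.1
    have := hn.injective ((col_eq (h2 k hk) hx.2).trans (col_eq hy' (h2 i hi)))
    have hki : k = i := by omega
    rwa [hki] at hk

/-- Conditions. -/
structure Cond where
  G : Set (Set ℕ × Set ℕ × Set ℕ)
  L : Side
  R : Side
  cnt : G.Countable
  fn : ∀ g ∈ G, ∀ g' ∈ G, g.1 = g'.1 → g = g'
  sL : ∀ g ∈ G, Null (L.Y \ g.2.1)
  sR : ∀ g ∈ G, Null (R.Y \ g.2.2)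
  K : ∀ I ⊆ G, I.Infinite → Null (L.Y ∩ ⋂ g ∈ I, g.2.1) ∨ Null (R.Y ∩ ⋂ g ∈ I, g.2.2)

/-- The order of the conditions. -/
structure Cond.Le (q p : Cond) : Prop where
  G : p.G ⊆ q.G
  LY : Null (q.L.Y \ p.L.Y)
  RY : Null (q.R.Y \ p.R.Y)
  LU : p.L.U ⊆ q.L.U
  RU : p.R.U ⊆ q.R.U
  newL : ∀ g ∈ q.G, g ∉ p.G → ∀ u ∈ p.L.U, g.2.1 ∉ u
  newR : ∀ g ∈ q.G, g ∉ p.G → ∀ u ∈ p.R.U, g.2.2 ∉ u

instance : Preorder Cond where
  le := Cond.Le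
  le_refl _ := ⟨subset_rfl, null_diff_self _, null_diff_self _, subset_rfl, subset_rfl,
    fun _ h h' => absurd h h', fun _ h h' => absurd h h'⟩
  le_trans a b c h h' := ⟨h'.G.trans h.G, h.LY.trans h'.LY, h.RY.trans h'.RY, h'.LU.trans h.LU,
    h'.RU.trans h.RU, fun g hg hg' u hu => by
      by_cases hb : g ∈ b.G
      · exact h'.newL g hb hg' u hu
      · exact h.newL g hg hb u (h'.LU hu), fun g hg hg' u hu => by
      by_cases hb : g ∈ b.G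
      · exact h'.newR g hb hg' u hu
      · exact h.newR g hg hb u (h'.RU hu)⟩

lemma not_null_univ : ¬ Null univ :=
  not_null_of_cols fun b => ⟨b + 1, Nat.lt_succ_self b, by simpa using col_infinite _⟩

instance : Nonempty Cond := by
  obtain ⟨s, -, -⟩ := exists_side not_null_univ countable_empty (by simp)
  exact ⟨⟨∅, s, s, countable_empty, by simp, by simp, by simp, fun I hI h =>
    absurd (finite_empty.subset hI) h⟩⟩

lemma null_inter_mono {Y Y' C C' : Set ℕ} (h : Null (Y ∩ C)) (h1 : Null (Y' \ Y)) (h2 : C' ⊆ C) :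
    Null (Y' ∩ C') :=
  h.of_union h1 fun x hx => by
    by_cases hY : x ∈ Y
    · exact Or.inl ⟨hY, h2 hx.2⟩
    · exact Or.inr ⟨hx.1, hY⟩

lemma lb_gen (p : ℕ → Cond) (h : ∀ i, p (i + 1) ≤ p i) {Y Z : Set ℕ} (hY : ¬ Null Y)
    (hZ : ¬ Null Z) (hY' : ∀ i, Null (Y \ (p i).L.Y)) (hZ' : ∀ i, Null (Z \ (p i).R.Y))
    (hK : ∀ I ⊆ ⋃ i, (p i).G, (∀ i, ∃ g ∈ I, g ∉ (p i).G) →
      Null (Y ∩ ⋂ g ∈ I, g.2.1) ∨ Null (Z ∩ ⋂ g ∈ I, g.2.2)) :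
    ∃ q, (∀ i, q ≤ p i) ∧ q.L.Y = Y ∧ q.R.Y = Z := by
  have ha : Antitone p := antitone_nat_of_succ_le h
  obtain ⟨L, rfl, hL⟩ := exists_side hY (countable_iUnion fun i => (p i).L.cnt) (by
    intro u hu
    obtain ⟨i, hi⟩ := mem_iUnion.1 hu
    exact (p i).L.free u hi)
  obtain ⟨R, rfl, hR⟩ := exists_side hZ (countable_iUnion fun i => (p i).R.cnt) (by
    intro u hu
    obtain ⟨i, hi⟩ := mem_iUnion.1 hu
    exact (p i).R.free u hi)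
  refine ⟨⟨⋃ i, (p i).G, L, R, countable_iUnion fun i => (p i).cnt, fun g hg g' hg' => ?_,
    fun g hg => ?_, fun g hg => ?_, fun I hI hI' => ?_⟩, fun i => ⟨subset_iUnion (fun i => (p i).G) i,
      hY' i, hZ' i, (subset_iUnion (fun i => (p i).L.U) i).trans hL,
      (subset_iUnion (fun i => (p i).R.U) i).trans hR, fun g hg hg' => ?_, fun g hg hg' => ?_⟩,
    rfl, rfl⟩
  · obtain ⟨i, hi⟩ := mem_iUnion.1 hg
    obtain ⟨j, hj⟩ := mem_iUnion.1 hg'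
    exact (p (max i j)).fn g ((ha (le_max_left i j)).G hi) g' ((ha (le_max_right i j)).G hj)
  · obtain ⟨i, hi⟩ := mem_iUnion.1 hg
    exact (hY' i).trans ((p i).sL g hi)
  · obtain ⟨i, hi⟩ := mem_iUnion.1 hg
    exact (hZ' i).trans ((p i).sR g hi)
  · by_cases hc : ∀ i, ∃ g ∈ I, g ∉ (p i).G
    · exact hK I hI hc
    · push Not at hc
      obtain ⟨i, hi⟩ := hc
      exact ((p i).K I hi hI').imp (fun h => null_inter_mono h (hY' i) subset_rfl)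
        fun h => null_inter_mono h (hZ' i) subset_rfl
  · obtain ⟨j, hj⟩ := mem_iUnion.1 hg
    exact (ha (le_max_left i j)).newL g ((ha (le_max_right i j)).G hj) hg'
  · obtain ⟨j, hj⟩ := mem_iUnion.1 hg
    exact (ha (le_max_left i j)).newR g ((ha (le_max_right i j)).G hj) hg'

lemma killL (p : ℕ → Cond) (h : ∀ i, p (i + 1) ≤ p i) :
    ∃ Y, ¬ Null Y ∧ (∀ i, Null (Y \ (p i).L.Y)) ∧ ∀ I ⊆ ⋃ i, (p i).G,
      (∀ i, ∃ g ∈ I, g ∉ (p i).G) → Null (Y ∩ ⋂ g ∈ I, g.2.1) := by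
  have ha : Antitone p := antitone_nat_of_succ_le h
  obtain ⟨Y, h1, h2, h3⟩ := exists_killer (fun i => (p i).L) (fun i j hij => (ha hij).LY)
    (fun i => (fun g => g.2.1) '' ((⋃ j, (p j).G) \ (p i).G))
    (fun i => ((countable_iUnion fun j => (p j).cnt).mono diff_subset).image _) (by
      rintro i _ ⟨g, ⟨hg, hg'⟩, rfl⟩
      obtain ⟨j, hj⟩ := mem_iUnion.1 hg
      exact (ha (le_max_left i j)).newL g ((ha (le_max_right i j)).G hj) hg')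
  refine ⟨Y, h1, h2, fun I hI hI' => h3 _ fun i => ?_⟩
  obtain ⟨g, hg, hg'⟩ := hI' i
  exact ⟨_, ⟨g, ⟨hI hg, hg'⟩, rfl⟩, biInter_subset_of_mem hg⟩

lemma killR (p : ℕ → Cond) (h : ∀ i, p (i + 1) ≤ p i) :
    ∃ Y, ¬ Null Y ∧ (∀ i, Null (Y \ (p i).R.Y)) ∧ ∀ I ⊆ ⋃ i, (p i).G,
      (∀ i, ∃ g ∈ I, g ∉ (p i).G) → Null (Y ∩ ⋂ g ∈ I, g.2.2) := by
  have ha : Antitone p := antitone_nat_of_succ_le h
  obtain ⟨Y, h1, h2, h3⟩ := exists_killer (fun i => (p i).R) (fun i j hij => (ha hij).RY)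
    (fun i => (fun g => g.2.2) '' ((⋃ j, (p j).G) \ (p i).G))
    (fun i => ((countable_iUnion fun j => (p j).cnt).mono diff_subset).image _) (by
      rintro i _ ⟨g, ⟨hg, hg'⟩, rfl⟩
      obtain ⟨j, hj⟩ := mem_iUnion.1 hg
      exact (ha (le_max_left i j)).newR g ((ha (le_max_right i j)).G hj) hg')
  refine ⟨Y, h1, h2, fun I hI hI' => h3 _ fun i => ?_⟩
  obtain ⟨g, hg, hg'⟩ := hI' i
  exact ⟨_, ⟨g, ⟨hI hg, hg'⟩, rfl⟩, biInter_subset_of_mem hg⟩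

lemma sigma (p : ℕ → Cond) (h : ∀ i, p (i + 1) ≤ p i) : ∃ q, ∀ i, q ≤ p i := by
  obtain ⟨Y, h1, h2, h3⟩ := killL p h
  obtain ⟨Z, g1, g2, -⟩ := killR p h
  obtain ⟨q, hq, -⟩ := lb_gen p h h1 g1 h2 g2 fun I hI hI' => Or.inl (h3 I hI hI')
  exact ⟨q, hq⟩

lemma towerL : Tower fun p : Cond => p.L.Y := by
  refine ⟨sigma, fun p => p.L.pos, fun _ _ h => h.LY, fun p h Y h1 h2 => ?_⟩
  obtain ⟨Z, g1, g2, g3⟩ := killR p h
  obtain ⟨q, hq, hq', -⟩ := lb_gen p h h1 g1 h2 g2 fun I hI hI' => Or.inr (g3 I hI hI')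
  exact ⟨q, hq, hq'⟩

lemma towerR : Tower fun p : Cond => p.R.Y := by
  refine ⟨sigma, fun p => p.R.pos, fun _ _ h => h.RY, fun p h Z g1 g2 => ?_⟩
  obtain ⟨Y, h1, h2, h3⟩ := killL p h
  obtain ⟨q, hq, -, hq'⟩ := lb_gen p h h1 g1 h2 g2 fun I hI hI' => Or.inl (h3 I hI hI')
  exact ⟨q, hq, hq'⟩

lemma add_index (p : Cond) (t : Set ℕ) : ∃ q ≤ p, ∃ g ∈ q.G, g.1 = t := by
  by_cases ht : ∃ g ∈ p.G, g.1 = t
  · exact ⟨p, le_rfl, ht⟩
  obtain ⟨A, a1, a2, a3⟩ := p.L.exists_avoid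
  obtain ⟨B, b1, b2, b3⟩ := p.R.exists_avoid
  obtain ⟨L, rfl, hL⟩ := exists_side a2 p.L.cnt p.L.free
  obtain ⟨R, rfl, hR⟩ := exists_side b2 p.R.cnt p.R.free
  have hLY : Null (L.Y \ p.L.Y) := null_empty.mono fun x hx => hx.2 (a1 hx.1)
  have hRY : Null (R.Y \ p.R.Y) := null_empty.mono fun x hx => hx.2 (b1 hx.1)
  refine ⟨⟨insert (t, L.Y, R.Y) p.G, L, R, p.cnt.insert _, ?_, ?_, ?_, fun I hI hI' => ?_⟩,
    ⟨subset_insert _ _, hLY, hRY, hL, hR, ?_, ?_⟩, _, mem_insert _ _, rfl⟩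
  · rintro g (rfl | hg) g' (rfl | hg') h
    · rfl
    · exact absurd ⟨g', hg', h.symm⟩ ht
    · exact absurd ⟨g, hg, h⟩ ht
    · exact p.fn g hg g' hg' h
  · rintro g (rfl | hg)
    · exact null_diff_self _
    · exact hLY.trans (p.sL g hg)
  · rintro g (rfl | hg)
    · exact null_diff_self _
    · exact hRY.trans (p.sR g hg)
  · exact (p.K (I \ {(t, L.Y, R.Y)}) (fun g hg => (hI hg.1).resolve_left hg.2)
      (hI'.diff (finite_singleton _))).imp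
      (fun h => null_inter_mono h hLY (biInter_subset_biInter_left diff_subset))
      fun h => null_inter_mono h hRY (biInter_subset_biInter_left diff_subset)
  · rintro g (rfl | hg) hg'
    · exact a3
    · exact absurd hg hg'
  · rintro g (rfl | hg) hg'
    · exact b3
    · exact absurd hg hg'

end Pool.Agent.H647Z.Fub
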