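import Mathlib
import Pool.Agent.H647Z.FubDefs
import Pool.Agent.H647Z.Fub3

set_option autoImplicit false

open Set Filter

namespace Pool.Agent.H647Z.Fub

universe v

section

variable {P : Type} [Preorder P]

theorem mem_fex {ι : Sort v} {φ : ι → Set P} {p : P} :
    p ∈ fex φ ↔ ∀ q ≤ p, ∃ r ≤ q, ∃ i, r ∈ φ i := by
  simp only [fex, fnot, fall, Set.mem_ofPred_eq, not_forall, not_not]
  constructor
  · intro h q hq
    obtain ⟨i, r, hr, h'⟩ := h q hq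
    exact ⟨r, hr, i, h'⟩
  · intro h q hq
    obtain ⟨r, hr, i, h'⟩ := h q hq
    exact ⟨i, r, hr, h'⟩

theorem mem_fimp {φ ψ : Set P} {p : P} :
    p ∈ fimp φ ψ ↔ ∀ q ≤ p, q ∈ φ → ∃ r ≤ q, r ∈ ψ := by
  simp only [fimp, fnot, fand, Set.mem_ofPred_eq, not_and, not_forall, not_not]
  constructor
  · intro h q hq h'
    obtain ⟨r, hr, h''⟩ := h q hq h'
    exact ⟨r, hr, h''⟩
  · intro h q hq h'
    obtain ⟨r, hr, h''⟩ := h q hq h'
    exact ⟨r, hr, h''⟩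

lemma meets_down {N : Set P} {p q : P} (h : p ∈ meets N) (hq : q ≤ p) : q ∈ meets N :=
  fun r hr => h r (hr.trans hq)

lemma meets_self {N : Set P} {p : P} (h : p ∈ N) : p ∈ meets N :=
  fun r hr => ⟨r, le_rfl, p, h, hr⟩

lemma noNew (hσ : ∀ p : ℕ → P, (∀ i, p (i + 1) ≤ p i) → ∃ q, ∀ i, q ≤ p i) (p : P) :
    p ∈ NoNew P := by
  refine ⟨fun x => mem_fex.2 fun q _ => ?_, fun X R => mem_fimp.2 fun q _ hq => ?_⟩
  · obtain ⟨r, hr, h⟩ := baire hσ (fun n => {r | r ∈ meets (x n) ∨ r ∈ fnot (meets (x n))})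
      (fun n s hs t ht => hs.imp (fun h => meets_down h ht) fun h u hu => h u (hu.trans ht)) q
      (fun n s _ => by
        by_cases h : s ∈ fnot (meets (x n))
        · exact ⟨s, le_rfl, Or.inr h⟩
        · simp only [fnot, mem_ofPred_eq, not_forall, not_not] at h
          obtain ⟨t, ht, h⟩ := h
          exact ⟨t, ht, Or.inl h⟩)
    refine ⟨r, hr, {n | r ∈ meets (x n)}, fun n => ⟨mem_fimp.2 fun s hs h1 => ⟨s, le_rfl, ?_⟩,
      mem_fimp.2 fun s hs h1 => ⟨s, le_rfl, meets_down h1 hs⟩⟩⟩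
    exact (h n).resolve_right fun h2 => h2 s hs h1
  · obtain ⟨r, hr, h⟩ := baire hσ (fun k => {r | ∃ y, r ∈ meets (R k y)})
      (fun k s ⟨y, hy⟩ t ht => ⟨y, meets_down hy ht⟩) q (fun k => mem_fex.1 (hq.1 k))
    choose b hb using h
    exact ⟨r, hr, mem_fex.2 fun s hs => ⟨s, le_rfl, b, fun k => meets_down (hb k) hs⟩⟩

/-- The name of the generic ultrafilter. -/
def UU (Y : P → Set ℕ) (S : Set ℕ) : Set P := {p | Null (Y p \ S)}

variable {Y : P → Set ℕ}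

lemma of_meets (T : Tower Y) {S : Set ℕ} {p : P} (h : p ∈ meets (UU Y S)) :
    ∃ q ≤ p, Null (Y q \ S) := by
  obtain ⟨r, hr, s, hs, h1⟩ := h p le_rfl
  exact ⟨r, hr, (T.mono _ _ h1).trans hs⟩

lemma decide_set (T : Tower Y) (p : P) (S : Set ℕ) :
    ∃ q ≤ p, Null (Y q \ S) ∨ Null (Y q \ Sᶜ) := by
  have key : ∀ S, ¬ Null (Y p ∩ S) → ∃ q ≤ p, Null (Y q \ S) := fun S hS => by
    obtain ⟨q, hq, hq'⟩ := T.lb (fun _ => p) (fun _ => le_rfl) _ hS
      fun _ => null_empty.mono fun x hx => hx.2 hx.1.1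
    exact ⟨q, hq 0, hq' ▸ null_empty.mono fun x hx => hx.2 hx.1.2⟩
  by_cases h : Null (Y p ∩ S)
  · exact ⟨p, le_rfl, Or.inr (h.mono fun x hx => ⟨hx.1, not_not.1 hx.2⟩)⟩
  · obtain ⟨q, hq, h1⟩ := key S h
    exact ⟨q, hq, Or.inl h1⟩

lemma isUltra (T : Tower Y) (p : P) : p ∈ IsUltra (UU Y) := by
  refine ⟨fun q _ h => ?_, fun S S' => mem_fimp.2 fun q _ h => ?_,
    fun S S' hST => mem_fimp.2 fun q _ h => ?_, fun S => mem_fimp.2 fun q _ h => ?_⟩
  · obtain ⟨r, -, h1⟩ := of_meets T h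
    exact not_null_of (T.pos r) h1 null_empty
  · obtain ⟨r, hr, h1⟩ := of_meets T h.1
    obtain ⟨s, hs, h2⟩ := of_meets T (meets_down h.2 hr)
    exact ⟨s, hs.trans hr, meets_self (((T.mono _ _ hs).trans h1).inter h2)⟩
  · obtain ⟨r, hr, h1⟩ := of_meets T h
    exact ⟨r, hr, meets_self (h1.mono (diff_subset_diff_right hST))⟩
  · obtain ⟨r, hr, h1 | h1⟩ := decide_set T q S
    · exact absurd (meets_self (N := UU Y S) h1) (h r hr)
    · exact ⟨r, hr, meets_self h1⟩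

lemma nonPrincipal (T : Tower Y) (p : P) : p ∈ NonPrincipal (UU Y) := by
  intro n q _ h
  obtain ⟨r, -, h1⟩ := of_meets T h
  exact not_null_of (T.pos r) h1
    (null_of_finite fun m => (finite_singleton n).subset inter_subset_left)

lemma notTop (T : Tower Y) (p : P) : p ∈ fnot (Top fun S => meets (UU Y S)) := by
  intro q _ h
  obtain ⟨r, -, A, ⟨h1, -⟩, h2, h3⟩ := mem_fex.1 h q le_rfl
  have : Uncountable (Set ℕ) := by
    rw [← Cardinal.aleph0_lt_mk_iff, Cardinal.mk_set, Cardinal.mk_nat]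
    exact Cardinal.cantor _
  obtain ⟨s, hs, I, B, hI, hB, hY⟩ := bounded (Val := fun s i S => s ∈ meets (A i S) ∧
      Null (Y s \ S)) T (fun _ _ _ h => h.2)
    (fun s t ht i S h => ⟨meets_down h.1 ht, (T.mono _ _ ht).trans h.2⟩) r (fun i s hs => by
      obtain ⟨t, ht, S, hS⟩ := mem_fex.1 (h1 i) s hs
      obtain ⟨u, hu, h4⟩ := mem_fimp.1 (h2 i S) t (ht.trans hs) hS
      obtain ⟨w, hw, h5⟩ := of_meets T h4
      exact ⟨w, hw.trans (hu.trans ht), S, meets_down hS (hw.trans hu), h5⟩)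
  obtain ⟨t, ht, h4⟩ := mem_fimp.1 (h3 I hI B) s hs fun k => (hB k).1
  exact h4 t le_rfl (meets_down (meets_self (N := UU Y _)
    (null_empty.mono fun x hx => hx.2 (hY hx.1))) ht)

end

lemma top_prod (p : Cond) :
    p ∈ Top (MemProd (UU fun p : Cond => p.L.Y) (UU fun p : Cond => p.R.Y)) := by
  refine mem_fex.2 fun q _ => ⟨q, le_rfl, fun i S => {p | ∃ g ∈ p.G, g.1 = i ∧ S = g.2.1 ×ˢ g.2.2},
    ⟨fun i => mem_fex.2 fun r _ => ?_, fun i S S' => mem_fimp.2 fun r _ h => ⟨r, le_rfl, ?_⟩⟩,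
    fun i S => mem_fimp.2 fun r _ h => ?_, fun I hI B => mem_fimp.2 fun r _ h => ?_⟩
  · obtain ⟨s, hs, g, hg, h⟩ := add_index r i
    exact ⟨s, hs, _, meets_self ⟨g, hg, h, rfl⟩⟩
  · obtain ⟨s, hs, t, ⟨g, h1, h2, rfl⟩, h3⟩ := h.1 r le_rfl
    obtain ⟨u, hu, t', ⟨g', h4, h5, rfl⟩, h6⟩ := h.2 s hs
    change _ = _
    rw [u.fn g ((hu.trans h3).G h1) g' (h6.G h4) (h2.trans h5.symm)]
  · obtain ⟨s, hs, t, ⟨g, h1, -, rfl⟩, h3⟩ := h r le_rfl
    refine ⟨s, hs, mem_fex.2 fun u hu => ⟨u, le_rfl, g.2.1,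
      meets_self (u.sL g ((hu.trans h3).G h1)), fun n hn => meets_self ?_⟩⟩
    exact (u.sR g ((hu.trans h3).G h1)).mono fun x hx => ⟨hx.1, fun h' => hx.2 ⟨hn, h'⟩⟩
  · obtain ⟨s, hs, h1⟩ := baire sigma
      (fun k => {s : Cond | ∃ g ∈ s.G, g.1 = I k ∧ B k = g.2.1 ×ˢ g.2.2})
      (fun k s ⟨g, h1, h2⟩ t ht => ⟨g, ht.G h1, h2⟩) r (fun k s hs => by
        obtain ⟨t, ht, u, ⟨g, h1, h2⟩, h3⟩ := h k s hs
        exact ⟨t, ht, g, h3.G h1, h2⟩)
    choose g g1 g2 g3 using h1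
    refine ⟨s, hs, fun t ht h2 => ?_⟩
    obtain ⟨u, hu, S, h3, h4⟩ := mem_fex.1 h2 t le_rfl
    obtain ⟨w, hw, h5⟩ := of_meets towerL h3
    have hws := hw.trans (hu.trans ht)
    have hg : Function.Injective g := fun k l hkl => hI (by rw [← g2, ← g2, hkl])
    have h6 : ∀ n ∈ S, ∃ z ≤ w, Null (z.R.Y \ {m | (n, m) ∈ ⋂ k, B k}) := fun n hn =>
      of_meets towerR (meets_down (h4 n hn) hw)
    rcases s.K (range g) (range_subset_iff.2 g1) (infinite_range_of_injective hg) with h7 | h7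
    · refine not_null_of w.L.pos (h5.inter hws.LY) (h7.mono fun n hn => ⟨hn.2, ?_⟩)
      obtain ⟨z, -, h8⟩ := h6 n hn.1
      obtain ⟨c, -, h9⟩ := exists_col (not_null_of z.R.pos h8) 0
      obtain ⟨m, hm, -⟩ := h9.nonempty
      rw [biInter_range]
      refine mem_iInter.2 fun k => ?_
      have := mem_iInter.1 hm k
      rw [g3] at this
      exact this.1
    · obtain ⟨c, -, h9⟩ := exists_col (not_null_of w.L.pos h5) 0
      obtain ⟨n, hn, -⟩ := h9.nonempty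
      obtain ⟨z, hz, h8⟩ := h6 n hn
      refine not_null_of z.R.pos (h8.inter (hz.trans hws).RY) (h7.mono fun m hm => ⟨hm.2, ?_⟩)
      rw [biInter_range]
      refine mem_iInter.2 fun k => ?_
      have := mem_iInter.1 hm.1 k
      rw [g3] at this
      exact this.2

theorem main : ∃ (P : Type) (_ : Preorder P), Nonempty P ∧ ∀ p : P, p ∈ NoNew P ∧
    p ∈ fex fun U : Set ℕ → Set P => fex fun V : Set ℕ → Set P =>
      fand (fand (IsUltra U) (fand (NonPrincipal U) (fnot (Top fun S => meets (U S)))))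
        (fand (fand (IsUltra V) (fand (NonPrincipal V) (fnot (Top fun S => meets (V S)))))
          (Top (MemProd U V))) :=
  ⟨Cond, inferInstance, inferInstance, fun p => ⟨noNew sigma p, mem_fex.2 fun q _ =>
    ⟨q, le_rfl, _, mem_fex.2 fun r _ => ⟨r, le_rfl, _,
      ⟨isUltra towerL r, nonPrincipal towerL r, notTop towerL r⟩,
      ⟨isUltra towerR r, nonPrincipal towerR r, notTop towerR r⟩, top_prod r⟩⟩⟩⟩

end Pool.Agent.H647Z.Fub
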