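import Mathlib

set_option autoImplicit false

open Polynomial

namespace Pool.Agent.H647Z.LogForms

/-- The differential `φ dz` on the projective line is logarithmic: it is `df/f` for a nonzero rational
function `f = a / b`, that is `φ = a' / a - b' / b`. -/
def IsLogarithmic {k : Type} [Field k] (φ : RatFunc k) : Prop :=
  ∃ a b : k[X], a ≠ 0 ∧ b ≠ 0 ∧
    φ = algebraMap k[X] (RatFunc k) (derivative a) / algebraMap k[X] (RatFunc k) a -
      algebraMap k[X] (RatFunc k) (derivative b) / algebraMap k[X] (RatFunc k) b

/-- The differential `φ dz` has no zero on the affine line (the reduced numerator of `φ` has no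
root) and vanishes at infinity to order exactly `m - 1`; the order of `φ dz` at infinity is
`- deg φ - 2`, where `deg φ = deg (numerator) - deg (denominator)`. -/
def OnlyZeroAtInfinity {k : Type} [Field k] (m : ℕ) (φ : RatFunc k) : Prop :=
  (∀ x : k, φ.num.eval x ≠ 0) ∧ -φ.intDegree - 2 = (m : ℤ) - 1

/-- `V` is a space `L_{m+1,n}`: an `n`-dimensional `F_p`-subspace of the meromorphic differentials
`φ dz` (identified with `φ ∈ k(z)`), all of whose nonzero elements are logarithmic and have their
only zero at infinity, of order `m - 1`. -/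
def IsSpaceL (p : ℕ) [Fact p.Prime] {k : Type} [Field k] [Algebra (ZMod p) k] (m n : ℕ)
    (V : Submodule (ZMod p) (RatFunc k)) : Prop :=
  Module.finrank (ZMod p) V = n ∧
    ∀ φ ∈ V, φ ≠ 0 → IsLogarithmic φ ∧ OnlyZeroAtInfinity m φ

end Pool.Agent.H647Z.LogForms
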