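import Mathlib

set_option autoImplicit false
set_option linter.unusedSimpArgs false
set_option linter.unusedTactic false
set_option linter.unreachableTactic false

open Polynomial

namespace Pool.Agent.H647Z.LogForms

variable {k : Type} [Field k]

noncomputable def pA (i : k) : k[X] := (1 - C i) * X ^ 5 + (C i) * X ^ 3 + (-1 - C i) * X ^ 2 + (-1 + C i) * X ^ 1 + (1) * X ^ 0

noncomputable def pB (i : k) : k[X] := (-C i) * X ^ 5 + (-C i) * X ^ 3 + (-1 - C i) * X ^ 1 + (-1) * X ^ 0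

noncomputable def pF0 (i : k) : k[X] := (1) * X ^ 6 + (-1 + C i) * X ^ 4 + (-1) * X ^ 3 + (1 + C i) * X ^ 1

noncomputable def pG0 (i : k) : k[X] := (1 - C i) * X ^ 9 + (-C i) * X ^ 7 + (1) * X ^ 6 + (1) * X ^ 4 + (-1 + C i) * X ^ 3 + (-1 - C i) * X ^ 1 + (-1 + C i) * X ^ 0

lemma prod0 (i : k) (hI : (C i : k[X]) ^ 2 = -1) (h3 : (3 : k[X]) = 0) :
    pF0 i * pG0 i = pB i * ((pA i + pB i) * (pA i - pB i)) := by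
  unfold pF0 pG0 pA pB
  linear_combination ((1)*X^1*(C i)^0 + (-1)*X^2*(C i)^0 + (-8)*X^3*(C i)^0 + (1)*X^4*(C i)^0 + (-2)*X^4*(C i)^1 + (-10)*X^5*(C i)^0 + (1)*X^5*(C i)^1 + (-12)*X^6*(C i)^0 + (-4)*X^6*(C i)^1 + (-7)*X^7*(C i)^0 + (-3)*X^7*(C i)^1 + (-9)*X^8*(C i)^0 + (-2)*X^8*(C i)^1 + (-2)*X^9*(C i)^0 + (-7)*X^9*(C i)^1 + (-7)*X^10*(C i)^0 + (1)*X^11*(C i)^0 + (-8)*X^11*(C i)^1 + (2)*X^12*(C i)^1 + (-1)*X^13*(C i)^0 + (-4)*X^13*(C i)^1 + (-2)*X^15*(C i)^0) * hI + ((-2)*X^1*(C i)^0 + (-2)*X^2*(C i)^0 + (-4)*X^2*(C i)^1 + (3)*X^3*(C i)^0 + (-3)*X^3*(C i)^1 + (1)*X^4*(C i)^0 + (-1)*X^4*(C i)^1 + (5)*X^5*(C i)^0 + (-3)*X^5*(C i)^1 + (4)*X^6*(C i)^0 + (1)*X^7*(C i)^0 + (2)*X^8*(C i)^0 + (2)*X^8*(C i)^1 + (3)*X^9*(C i)^1 + (3)*X^10*(C i)^0 + (2)*X^11*(C i)^1 + (-1)*X^12*(C i)^1 + (2)*X^13*(C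 i)^1 + (1)*X^15*(C i)^0) * h3

lemma wr0 (i : k) (hI : (C i : k[X]) ^ 2 = -1) (h3 : (3 : k[X]) = 0) :
    derivative (pF0 i) * pG0 i - pF0 i * derivative (pG0 i) = 1 := by
  have hF : derivative (pF0 i) = (1)*X^0*(C i)^0 + (1)*X^0*(C i)^1 + (-3)*X^2*(C i)^0 + (-4)*X^3*(C i)^0 + (4)*X^3*(C i)^1 + (6)*X^5*(C i)^0 := by
    simp only [pF0, derivative_add, derivative_mul, derivative_sub, derivative_neg, derivative_one,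
      derivative_C, derivative_X_pow, map_natCast]
    norm_num
    ring
  have hG : derivative (pG0 i) = (-1)*X^0*(C i)^0 + (-1)*X^0*(C i)^1 + (-3)*X^2*(C i)^0 + (3)*X^2*(C i)^1 + (4)*X^3*(C i)^0 + (6)*X^5*(C i)^0 + (-7)*X^6*(C i)^1 + (9)*X^8*(C i)^0 + (-9)*X^8*(C i)^1 := by
    simp only [pG0, derivative_add, derivative_mul, derivative_sub, derivative_neg, derivative_one,
      derivative_C, derivative_X_pow, map_natCast]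
    norm_num
    ring
  rw [hF, hG]
  unfold pF0 pG0
  linear_combination ((1)*X^0*(C i)^0 + (2)*X^3*(C i)^0 + (-3)*X^4*(C i)^0 + (1)*X^6*(C i)^0 + (6)*X^7*(C i)^0 + (8)*X^9*(C i)^0 + (3)*X^10*(C i)^0 + (5)*X^12*(C i)^0) * hI + ((-1)*X^0*(C i)^0 + (1)*X^2*(C i)^0 + (-1)*X^2*(C i)^1 + (2)*X^3*(C i)^0 + (-2)*X^3*(C i)^1 + (1)*X^4*(C i)^0 + (-1)*X^4*(C i)^1 + (-2)*X^5*(C i)^0 + (2)*X^5*(C i)^1 + (-3)*X^6*(C i)^0 + (-4)*X^6*(C i)^1 + (-2)*X^7*(C i)^0 + (2)*X^7*(C i)^1 + (1)*X^8*(C i)^1 + (-4)*X^9*(C i)^0 + (-2)*X^9*(C i)^1 + (-1)*X^10*(C i)^0 + (-1)*X^10*(C i)^1 + (2)*X^11*(C i)^0 + (-2)*X^11*(C i)^1 + (-3)*X^12*(C i)^1 + (-1)*X^14*(C i)^0 + (1)*X^14*(C i)^1) * h3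

noncomputable def pF1 (i : k) : k[X] := (1) * X ^ 6 + (-1 - C i) * X ^ 4 + (-1) * X ^ 3 + (1 - C i) * X ^ 1 + (-C i) * X ^ 0

noncomputable def pG1 (i : k) : k[X] := (-1) * X ^ 9 + (1 + C i) * X ^ 7 + (1 - C i) * X ^ 6 + (1 - C i) * X ^ 4 + (1 + C i) * X ^ 3 + (-C i) * X ^ 1

lemma prod1 (i : k) (hI : (C i : k[X]) ^ 2 = -1) (h3 : (3 : k[X]) = 0) :
    pF1 i * pG1 i = pA i * ((pA i + pB i) * (pA i - pB i)) := by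
  unfold pF1 pG1 pA pB
  linear_combination ((1)*X^1*(C i)^0 + (1)*X^2*(C i)^0 + (7)*X^3*(C i)^0 + (-9)*X^4*(C i)^0 + (2)*X^4*(C i)^1 + (11)*X^5*(C i)^0 + (-3)*X^5*(C i)^1 + (8)*X^6*(C i)^0 + (5)*X^6*(C i)^1 + (-21)*X^7*(C i)^0 + (1)*X^7*(C i)^1 + (12)*X^8*(C i)^0 + (-6)*X^8*(C i)^1 + (-9)*X^9*(C i)^0 + (11)*X^9*(C i)^1 + (-5)*X^10*(C i)^0 + (-8)*X^10*(C i)^1 + (5)*X^11*(C i)^0 + (-4)*X^12*(C i)^0 + (2)*X^12*(C i)^1 + (8)*X^13*(C i)^0 + (-4)*X^13*(C i)^1 + (-2)*X^15*(C i)^0) * hI + ((1)*X^1*(C i)^0 + (-1)*X^2*(C i)^0 + (3)*X^2*(C i)^1 + (-5)*X^3*(C i)^0 + (-3)*X^3*(C i)^1 + (3)*X^4*(C i)^0 + (-2)*X^4*(C i)^1 + (-3)*X^5*(C i)^0 + (3)*X^5*(C i)^1 + (-8)*X^6*(C i)^1 + (8)*X^7*(C i)^0 + (-1)*X^7*(C i)^1 + (-6)*X^8*(C i)^0 + (2)*X^8*(C i)^1 + (2)*X^9*(C i)^0 + (-1)*X^9*(C i)^1 + (7)*X^10*(C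 i)^1 + (-1)*X^11*(C i)^0 + (-3)*X^11*(C i)^1 + (3)*X^12*(C i)^0 + (-2)*X^12*(C i)^1 + (-2)*X^13*(C i)^0 + (1)*X^13*(C i)^1 + (1)*X^15*(C i)^1) * h3

lemma wr1 (i : k) (hI : (C i : k[X]) ^ 2 = -1) (h3 : (3 : k[X]) = 0) :
    derivative (pF1 i) * pG1 i - pF1 i * derivative (pG1 i) = 1 := by
  have hF : derivative (pF1 i) = (1)*X^0*(C i)^0 + (-1)*X^0*(C i)^1 + (-3)*X^2*(C i)^0 + (-4)*X^3*(C i)^0 + (-4)*X^3*(C i)^1 + (6)*X^5*(C i)^0 := by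
    simp only [pF1, derivative_add, derivative_mul, derivative_sub, derivative_neg, derivative_one,
      derivative_C, derivative_X_pow, map_natCast]
    norm_num
    ring
  have hG : derivative (pG1 i) = (-1)*X^0*(C i)^1 + (3)*X^2*(C i)^0 + (3)*X^2*(C i)^1 + (4)*X^3*(C i)^0 + (-4)*X^3*(C i)^1 + (6)*X^5*(C i)^0 + (-6)*X^5*(C i)^1 + (7)*X^6*(C i)^0 + (7)*X^6*(C i)^1 + (-9)*X^8*(C i)^0 := by
    simp only [pG1, derivative_add, derivative_mul, derivative_sub, derivative_neg, derivative_one,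
      derivative_C, derivative_X_pow, map_natCast]
    norm_num
    ring
  rw [hF, hG]
  unfold pF1 pG1
  linear_combination ((-1)*X^0*(C i)^0 + (3)*X^2*(C i)^0 + (-2)*X^3*(C i)^0 + (-6)*X^5*(C i)^0 + (1)*X^6*(C i)^0 + (6)*X^7*(C i)^0 + (-2)*X^9*(C i)^0 + (3)*X^10*(C i)^0) * hI + ((-1)*X^2*(C i)^0 + (1)*X^2*(C i)^1 + (2)*X^3*(C i)^1 + (-1)*X^4*(C i)^0 + (3)*X^4*(C i)^1 + (2)*X^5*(C i)^0 + (2)*X^5*(C i)^1 + (-2)*X^6*(C i)^0 + (3)*X^6*(C i)^1 + (-4)*X^7*(C i)^0 + (2)*X^8*(C i)^0 + (-3)*X^8*(C i)^1 + (6)*X^9*(C i)^0 + (-2)*X^9*(C i)^1 + (2)*X^10*(C i)^1 + (-2)*X^11*(C i)^0 + (-2)*X^12*(C i)^0 + (-2)*X^12*(C i)^1 + (1)*X^14*(C i)^0) * h3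

noncomputable def pF2 (i : k) : k[X] := (1) * X ^ 12 + (1 - C i) * X ^ 10 + (1 - C i) * X ^ 9 + (1 + C i) * X ^ 6 + (-1) * X ^ 4 + (C i) * X ^ 3 + (-1) * X ^ 1 + (1) * X ^ 0

noncomputable def pG2 (i : k) : k[X] := (-1 - C i) * X ^ 3 + (1) * X ^ 1 + (1) * X ^ 0

lemma prod2 (i : k) (hI : (C i : k[X]) ^ 2 = -1) (h3 : (3 : k[X]) = 0) :
    pF2 i * pG2 i = pA i * (pB i * (pA i - pB i)) := by
  unfold pF2 pG2 pA pB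
  linear_combination ((6)*X^2*(C i)^0 + (-6)*X^3*(C i)^0 + (2)*X^3*(C i)^1 + (8)*X^4*(C i)^0 + (-3)*X^4*(C i)^1 + (-3)*X^5*(C i)^0 + (7)*X^5*(C i)^1 + (-3)*X^6*(C i)^0 + (-6)*X^6*(C i)^1 + (-1)*X^7*(C i)^0 + (7)*X^7*(C i)^1 + (-5)*X^8*(C i)^0 + (-5)*X^8*(C i)^1 + (3)*X^9*(C i)^0 + (3)*X^9*(C i)^1 + (-6)*X^10*(C i)^0 + (-2)*X^10*(C i)^1 + (5)*X^11*(C i)^0 + (-2)*X^11*(C i)^1 + (1)*X^12*(C i)^1 + (3)*X^13*(C i)^0 + (-2)*X^13*(C i)^1 + (-1)*X^15*(C i)^0) * hI + ((1)*X^0*(C i)^0 + (2)*X^1*(C i)^1 + (-4)*X^2*(C i)^0 + (-1)*X^2*(C i)^1 + (1)*X^3*(C i)^0 + (-2)*X^3*(C i)^1 + (-2)*X^4*(C i)^0 + (2)*X^4*(C i)^1 + (2)*X^5*(C i)^0 + (-4)*X^5*(C i)^1 + (2)*X^6*(C i)^0 + (2)*X^6*(C i)^1 + (-2)*X^7*(C i)^1 + (1)*X^8*(C i)^0 + (3)*X^8*(C i)^1 + (-1)*X^9*(C i)^0 + (-1)*X^9*(C i)^1 + (3)*X^10*(C i)^0 +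 (-1)*X^11*(C i)^0 + (-1)*X^12*(C i)^1 + (-1)*X^13*(C i)^0 + (1)*X^13*(C i)^1) * h3

lemma wr2 (i : k) (hI : (C i : k[X]) ^ 2 = -1) (h3 : (3 : k[X]) = 0) :
    derivative (pF2 i) * pG2 i - pF2 i * derivative (pG2 i) = 1 := by
  have hF : derivative (pF2 i) = (-1)*X^0*(C i)^0 + (3)*X^2*(C i)^1 + (-4)*X^3*(C i)^0 + (6)*X^5*(C i)^0 + (6)*X^5*(C i)^1 + (9)*X^8*(C i)^0 + (-9)*X^8*(C i)^1 + (10)*X^9*(C i)^0 + (-10)*X^9*(C i)^1 + (12)*X^11*(C i)^0 := by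
    simp only [pF2, derivative_add, derivative_mul, derivative_sub, derivative_neg, derivative_one,
      derivative_C, derivative_X_pow, map_natCast]
    norm_num
    ring
  have hG : derivative (pG2 i) = (1)*X^0*(C i)^0 + (-3)*X^2*(C i)^0 + (-3)*X^2*(C i)^1 := by
    simp only [pG2, derivative_add, derivative_mul, derivative_sub, derivative_neg, derivative_one,
      derivative_C, derivative_X_pow, map_natCast]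
    norm_num
    ring
  rw [hF, hG]
  unfold pF2 pG2
  linear_combination ((-3)*X^8*(C i)^0 + (6)*X^11*(C i)^0 + (7)*X^12*(C i)^0) * hI + ((-1)*X^0*(C i)^0 + (1)*X^2*(C i)^0 + (2)*X^2*(C i)^1 + (-2)*X^3*(C i)^0 + (-1)*X^4*(C i)^0 + (2)*X^5*(C i)^0 + (2)*X^5*(C i)^1 + (2)*X^6*(C i)^0 + (2)*X^6*(C i)^1 + (3)*X^8*(C i)^0 + (-5)*X^8*(C i)^1 + (6)*X^9*(C i)^0 + (-6)*X^9*(C i)^1 + (3)*X^10*(C i)^0 + (-3)*X^10*(C i)^1 + (-1)*X^12*(C i)^0 + (-3)*X^14*(C i)^0 + (-3)*X^14*(C i)^1) * h3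

noncomputable def pF3 (i : k) : k[X] := (1) * X ^ 6 + (1 + C i) * X ^ 4 + (-1) * X ^ 3 + (-1) * X ^ 1 + (-1 - C i) * X ^ 0

noncomputable def pG3 (i : k) : k[X] := (C i) * X ^ 9 + (-1 + C i) * X ^ 7 + (1) * X ^ 6 + (C i) * X ^ 4 + (1 - C i) * X ^ 3 + (-1 + C i) * X ^ 1

lemma prod3 (i : k) (hI : (C i : k[X]) ^ 2 = -1) (h3 : (3 : k[X]) = 0) :
    pF3 i * pG3 i = pA i * (pB i * (pA i + pB i)) := by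
  unfold pF3 pG3 pA pB
  linear_combination ((-1)*X^1*(C i)^0 + (-3)*X^3*(C i)^0 + (1)*X^4*(C i)^0 + (-1)*X^4*(C i)^1 + (-2)*X^5*(C i)^0 + (1)*X^5*(C i)^1 + (-4)*X^6*(C i)^0 + (-2)*X^6*(C i)^1 + (1)*X^7*(C i)^0 + (-1)*X^7*(C i)^1 + (2)*X^8*(C i)^0 + (1)*X^8*(C i)^1 + (3)*X^9*(C i)^0 + (-3)*X^9*(C i)^1 + (2)*X^10*(C i)^1 + (6)*X^11*(C i)^0 + (-2)*X^11*(C i)^1 + (1)*X^12*(C i)^0 + (3)*X^12*(C i)^1 + (-1)*X^13*(C i)^0 + (-3)*X^15*(C i)^0 + (2)*X^15*(C i)^1) * hI + ((-2)*X^2*(C i)^1 + (2)*X^3*(C i)^0 + (1)*X^4*(C i)^0 + (1)*X^4*(C i)^1 + (1)*X^5*(C i)^0 + (-1)*X^5*(C i)^1 + (2)*X^6*(C i)^1 + (-2)*X^7*(C i)^0 + (2)*X^7*(C i)^1 + (-1)*X^8*(C i)^0 + (1)*X^8*(C i)^1 + (-1)*X^9*(C i)^0 + (1)*X^10*(C i)^0 + (-2)*X^10*(C i)^1 + (-2)*X^11*(C i)^0 + (-1)*X^11*(C i)^1 + (-2)*X^12*(C i)^1 + (1)*X^13*(C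 i)^1 + (1)*X^15*(C i)^0) * h3

lemma wr3 (i : k) (hI : (C i : k[X]) ^ 2 = -1) (h3 : (3 : k[X]) = 0) :
    derivative (pF3 i) * pG3 i - pF3 i * derivative (pG3 i) = 1 := by
  have hF : derivative (pF3 i) = (-1)*X^0*(C i)^0 + (-3)*X^2*(C i)^0 + (4)*X^3*(C i)^0 + (4)*X^3*(C i)^1 + (6)*X^5*(C i)^0 := by
    simp only [pF3, derivative_add, derivative_mul, derivative_sub, derivative_neg, derivative_one,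
      derivative_C, derivative_X_pow, map_natCast]
    norm_num
    ring
  have hG : derivative (pG3 i) = (-1)*X^0*(C i)^0 + (1)*X^0*(C i)^1 + (3)*X^2*(C i)^0 + (-3)*X^2*(C i)^1 + (4)*X^3*(C i)^1 + (6)*X^5*(C i)^0 + (-7)*X^6*(C i)^0 + (7)*X^6*(C i)^1 + (9)*X^8*(C i)^1 := by
    simp only [pG3, derivative_add, derivative_mul, derivative_sub, derivative_neg, derivative_one,
      derivative_C, derivative_X_pow, map_natCast]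
    norm_num
    ring
  rw [hF, hG]
  unfold pF3 pG3
  linear_combination ((1)*X^0*(C i)^0 + (-3)*X^2*(C i)^0 + (4)*X^3*(C i)^0 + (3)*X^4*(C i)^0 + (6)*X^6*(C i)^0 + (9)*X^8*(C i)^0 + (-3)*X^10*(C i)^0 + (-5)*X^12*(C i)^0) * hI + ((-1)*X^0*(C i)^0 + (2)*X^2*(C i)^0 + (-2)*X^4*(C i)^0 + (1)*X^4*(C i)^1 + (2)*X^5*(C i)^0 + (2)*X^5*(C i)^1 + (-4)*X^6*(C i)^0 + (2)*X^6*(C i)^1 + (-2)*X^7*(C i)^0 + (2)*X^7*(C i)^1 + (-1)*X^8*(C i)^0 + (2)*X^8*(C i)^1 + (-2)*X^9*(C i)^0 + (4)*X^9*(C i)^1 + (2)*X^10*(C i)^0 + (2)*X^11*(C i)^1 + (2)*X^12*(C i)^0 + (-2)*X^12*(C i)^1 + (-1)*X^14*(C i)^1) * h3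

end Pool.Agent.H647Z.LogForms
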