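import Mathlib
import Pool.Agent.H647Z.LogFormsDefs
import Pool.Agent.H647Z.LogFormsId

set_option autoImplicit false

open Polynomial

namespace Pool.Agent.H647Z.LogForms

variable {k : Type} [Field k]

/-- Nonzero, logarithmic, only zero at infinity of order 13. -/
def Good (φ : RatFunc k) : Prop := φ ≠ 0 ∧ IsLogarithmic φ ∧ OnlyZeroAtInfinity 14 φ

lemma Good.neg {φ : RatFunc k} (h : Good φ) : Good (-φ) := by
  obtain ⟨h0, ⟨a, b, ha, hb, hab⟩, h1, h2⟩ := h
  refine ⟨neg_ne_zero.2 h0, ⟨b, a, hb, ha, by rw [hab]; ring⟩, fun x => ?_, ?_⟩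
  · have : (-φ).num = -φ.num := by
      have h3 : -φ = algebraMap k[X] (RatFunc k) (-φ.num) / algebraMap k[X] (RatFunc k) φ.denom := by
        rw [map_neg, neg_div, RatFunc.num_div_denom]
      have h4 : IsCoprime (-φ.num) φ.denom := (RatFunc.isCoprime_num_denom φ).neg_left
      have h5 := RatFunc.num_denom_mul (-φ) 1
      have hd : (-φ).denom ∣ φ.denom := (RatFunc.denom_dvd φ.denom_ne_zero).2 ⟨_, h3⟩
      have hd' : φ.denom ∣ (-φ).denom := (RatFunc.denom_dvd (-φ).denom_ne_zero).2
        ⟨-(-φ).num, by rw [map_neg, neg_div, RatFunc.num_div_denom, neg_neg]⟩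
      have hdd : (-φ).denom = φ.denom :=
        Polynomial.eq_of_monic_of_associated (-φ).monic_denom φ.monic_denom
          (associated_of_dvd_dvd hd hd')
      have h6 := RatFunc.num_div_denom (-φ)
      rw [hdd] at h6
      have h7 : algebraMap k[X] (RatFunc k) φ.denom ≠ 0 :=
        RatFunc.algebraMap_ne_zero φ.denom_ne_zero
      have h8 := h6.trans h3
      rw [div_left_inj' h7] at h8
      exact RatFunc.algebraMap_injective k h8
    rw [this, eval_neg]
    exact neg_ne_zero.2 (h1 x)
  · rw [RatFunc.intDegree_neg]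
    exact h2

lemma good_inv (F G P : k[X]) (hP : F * G = P) (hw : derivative F * G - F * derivative G = 1)
    (hd : P.natDegree = 15) : Good (algebraMap k[X] (RatFunc k) P)⁻¹ := by
  have hP0 : P ≠ 0 := by
    rintro rfl
    simp at hd
  have hF : F ≠ 0 := by
    rintro rfl
    exact hP0 (by rw [← hP, zero_mul])
  have hG : G ≠ 0 := by
    rintro rfl
    exact hP0 (by rw [← hP, mul_zero])
  refine ⟨inv_ne_zero (RatFunc.algebraMap_ne_zero hP0), ⟨F, G, hF, hG, ?_⟩, fun x => ?_, ?_⟩
  · have h1 := RatFunc.algebraMap_ne_zero hF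
    have h2 := RatFunc.algebraMap_ne_zero hG
    have h3 := congrArg (algebraMap k[X] (RatFunc k)) hw
    rw [map_sub, map_mul, map_mul, map_one] at h3
    rw [← hP, map_mul, div_sub_div _ _ h1 h2, h3, one_div]
  · have h1 : ((algebraMap k[X] (RatFunc k) P)⁻¹).num ∣ 1 :=
      (RatFunc.num_dvd one_ne_zero).2 ⟨P, hP0, by rw [map_one, one_div]⟩
    intro hx
    have := eval_dvd (x := x) h1
    rw [hx, eval_one] at this
    exact one_ne_zero (zero_dvd_iff.1 this)
  · rw [RatFunc.intDegree_inv, RatFunc.intDegree_polynomial, hd]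
    norm_num

theorem exists_space [IsAlgClosed k] [Algebra (ZMod 3) k] :
    ∃ V : Submodule (ZMod 3) (RatFunc k), IsSpaceL 3 14 2 V := by
  haveI : CharP k 3 := charP_of_injective_algebraMap (algebraMap (ZMod 3) k).injective 3
  obtain ⟨i, hi⟩ := IsAlgClosed.exists_pow_nat_eq (-1 : k) (n := 2) (by norm_num)
  have h3k : (3 : k) = 0 := by simpa using CharP.cast_eq_zero k 3
  have hI : (C i : k[X]) ^ 2 = -1 := by rw [← C_pow, hi]; simp
  have h3 : (3 : k[X]) = 0 := by
    have : (3 : k[X]) = C 3 := rfl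
    rw [this, h3k, C_0]
  have n1 : (1 : k) - i ≠ 0 := fun h => one_ne_zero (α := k) (by
    linear_combination (-1 - i) * h - hi + h3k)
  have n2 : (1 : k) + i ≠ 0 := fun h => one_ne_zero (α := k) (by
    linear_combination (-1 + i) * h - hi + h3k)
  have n3 : i ≠ 0 := fun h => one_ne_zero (α := k) (by linear_combination (-i) * h + hi)
  have dA : (pA i).natDegree = 5 := by
    have : pA i = C (1 - i) * X ^ 5 + C i * X ^ 3 + C (-1 - i) * X ^ 2 + C (-1 + i) * X + C 1 := by
      simp [pA]
    rw [this]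
    compute_degree!
  have dB : (pB i).natDegree = 5 := by
    have : pB i = C (-i) * X ^ 5 + C (-i) * X ^ 3 + C (-1 - i) * X + C (-1) := by
      simp [pB]
    rw [this]
    compute_degree!
  have dS : (pA i + pB i).natDegree = 5 := by
    have : pA i + pB i = C (1 + i) * X ^ 5 + C (-1 - i) * X ^ 2 + X := by
      simp only [pA, pB, map_add, map_sub, map_neg, map_one]
      linear_combination (-(C i) * X ^ 5 - X) * h3
    rw [this]
    compute_degree!
  have dD : (pA i - pB i).natDegree = 5 := by
    have : pA i - pB i = X ^ 5 + C (-i) * X ^ 3 + C (-1 - i) * X ^ 2 + C (-i) * X + C (-1) := by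
      simp only [pA, pB, map_add, map_sub, map_neg, map_one]
      linear_combination ((C i) * X ^ 3 + C i * X + 1) * h3
    rw [this]
    compute_degree!
  have nz : ∀ p : k[X], p.natDegree = 5 → p ≠ 0 := by
    rintro p hp rfl
    simp at hp
  have deg : ∀ p q r : k[X], p.natDegree = 5 → q.natDegree = 5 → r.natDegree = 5 →
      (p * (q * r)).natDegree = 15 := by
    intro p q r hp hq hr
    rw [natDegree_mul (nz p hp) (mul_ne_zero (nz q hq) (nz r hr)),
      natDegree_mul (nz q hq) (nz r hr), hp, hq, hr]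
  have g0 := good_inv _ _ _ (prod0 i hI h3) (wr0 i hI h3) (deg _ _ _ dB dS dD)
  have g1 := good_inv _ _ _ (prod1 i hI h3) (wr1 i hI h3) (deg _ _ _ dA dS dD)
  have g2 := good_inv _ _ _ (prod2 i hI h3) (wr2 i hI h3) (deg _ _ _ dA dB dD)
  have g3 := good_inv _ _ _ (prod3 i hI h3) (wr3 i hI h3) (deg _ _ _ dA dB dS)
  have a0 := RatFunc.algebraMap_ne_zero (nz _ dA)
  have b0 := RatFunc.algebraMap_ne_zero (nz _ dB)
  have s0 := RatFunc.algebraMap_ne_zero (nz _ dS)
  have d0 := RatFunc.algebraMap_ne_zero (nz _ dD)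
  simp only [map_mul] at g0 g1 g2 g3
  simp only [map_add, map_sub] at g0 g1 g2 g3 s0 d0
  set a := algebraMap k[X] (RatFunc k) (pA i)
  set b := algebraMap k[X] (RatFunc k) (pB i)
  set φ := (b * ((a + b) * (a - b)))⁻¹ with hφ
  set ψ := (a * ((a + b) * (a - b)))⁻¹ with hψ
  have e2 : (a * (b * (a - b)))⁻¹ = φ + ψ := by
    rw [hφ, hψ]
    field_simp
  have e3 : (a * (b * (a + b)))⁻¹ = φ - ψ := by
    rw [hφ, hψ]
    field_simp
  rw [e2] at g2
  rw [e3] at g3
  have key : ∀ s t : ZMod 3, (s = 0 ∧ t = 0) ∨ Good (s • φ + t • ψ) := by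
    have tri : ∀ s : ZMod 3, s = 0 ∨ s = 1 ∨ s = -1 := by decide
    intro s t
    rcases tri s with rfl | rfl | rfl <;> rcases tri t with rfl | rfl | rfl
    · exact Or.inl ⟨rfl, rfl⟩
    · right; simpa using g1
    · right; simpa using g1.neg
    · right; simpa using g0
    · right; simpa using g2
    · right; simpa [sub_eq_add_neg] using g3
    · right; simpa using g0.neg
    · right
      have := g3.neg
      rw [neg_sub, sub_eq_neg_add] at this
      simpa using this
    · right
      have := g2.neg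
      rw [neg_add] at this
      simpa using this
  have hli : LinearIndependent (ZMod 3) ![φ, ψ] := by
    rw [LinearIndependent.pair_iff]
    intro s t hst
    rcases key s t with h | h
    · exact h
    · exact absurd hst h.1
  refine ⟨Submodule.span (ZMod 3) (Set.range ![φ, ψ]), ?_, ?_⟩
  · rw [finrank_span_eq_card hli]
    simp
  · intro ω hω hω0
    rw [Matrix.range_cons, Matrix.range_cons, Matrix.range_empty, Set.union_empty,
      Set.singleton_union, Submodule.mem_span_pair] at hω
    obtain ⟨s, t, rfl⟩ := hω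
    rcases key s t with ⟨rfl, rfl⟩ | h
    · simp at hω0
    · exact h.2

end Pool.Agent.H647Z.LogForms
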