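import Mathlib

set_option autoImplicit false

open Cardinal Set Filter

namespace Pool.Agent.H647Z.Tukey

/-- Transfinite construction of an ultrafilter meeting `ℵ₁` many tasks. -/
theorem exists_ultrafilter_tasks {Ω : Type} (J : Filter Ω) [J.NeBot] {I : Type} (hI : #I ≤ ℵ₁)
    (Done : I → Filter Ω → Prop)
    (h : ∀ t (F : Filter Ω), F.IsCountablyGenerated → (F ⊓ J).NeBot →
      ∃ F' ≤ F, F'.IsCountablyGenerated ∧ (F' ⊓ J).NeBot ∧ Done t F') :
    ∃ U : Ultrafilter Ω, (U : Filter Ω) ≤ J ∧ ∀ t, ∃ F, (U : Filter Ω) ≤ F ∧ Done t F := by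
  classical
  rcases isEmpty_or_nonempty I with hI0 | hI0
  · exact ⟨Ultrafilter.of J, Ultrafilter.of_le J, fun t => isEmptyElim t⟩
  let Om : Type := (ℵ₁ : Cardinal.{0}).ord.ToType
  have hcount : ∀ a : Om, (Iio a).Countable := by
    intro a
    rw [← Set.countable_coe_iff, ← Cardinal.mk_le_aleph0_iff, ← Cardinal.lt_aleph_one_iff]
    exact Cardinal.mk_Iio_toType_ord_lt a
  obtain ⟨e, he⟩ : ∃ e : Om → I, Function.Surjective e := by
    have h1 : #I ≤ #Om := by rw [Cardinal.mk_ord_toType]; exact hI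
    obtain ⟨j⟩ := h1
    exact ⟨Function.invFun j, Function.invFun_surjective j.injective⟩
  choose! nxt hnxt using h
  let G : Om → Filter Ω := fun a => WellFounded.fix (wellFounded_lt (α := Om))
    (fun a (G : ∀ b, b < a → Filter Ω) => nxt (e a) (⨅ b : Iio a, G b.1 b.2)) a
  have hG : ∀ a, G a = nxt (e a) (⨅ b : Iio a, G b.1) := fun a => by
    simp only [G]
    rw [WellFounded.fix_eq]
  have key : ∀ a, (G a).IsCountablyGenerated ∧ (G a ⊓ J).NeBot ∧ Done (e a) (G a) ∧
      ∀ b < a, G a ≤ G b := by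
    intro a
    induction a using (wellFounded_lt (α := Om)).induction with
    | _ a ih =>
      have := (hcount a).to_subtype
      have : ∀ b : Iio a, (G b.1).IsCountablyGenerated := fun b => (ih b.1 b.2).1
      have h1 : (⨅ b : Iio a, G b.1).IsCountablyGenerated := inferInstance
      have h2 : ((⨅ b : Iio a, G b.1) ⊓ J).NeBot := by
        rcases isEmpty_or_nonempty (Iio a) with h0 | h0
        · rw [iInf_of_empty, top_inf_eq]
          infer_instance
        · rw [iInf_inf]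
          refine iInf_neBot_of_directed' ?_ fun b => (ih b.1 b.2).2.1
          intro b c
          rcases lt_trichotomy b.1 c.1 with hbc | hbc | hbc
          · exact ⟨c, inf_le_inf_right _ ((ih c.1 c.2).2.2.2 _ hbc), le_rfl⟩
          · exact ⟨c, le_of_eq (by simp only [hbc]), le_rfl⟩
          · exact ⟨b, le_rfl, inf_le_inf_right _ ((ih b.1 b.2).2.2.2 _ hbc)⟩
      obtain ⟨h3, h4, h5, h6⟩ := hnxt (e a) _ h1 h2
      rw [← hG] at h3 h4 h5 h6
      exact ⟨h4, h5, h6, fun b hb => h3.trans (iInf_le (fun b : Iio a => G b.1) ⟨b, hb⟩)⟩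
  have : Nonempty Om := by
    obtain ⟨t⟩ := hI0
    obtain ⟨a, -⟩ := he t
    exact ⟨a⟩
  have hne : (⨅ a, G a ⊓ J).NeBot := by
    refine iInf_neBot_of_directed' ?_ fun a => (key a).2.1
    intro b c
    rcases lt_trichotomy b c with hbc | hbc | hbc
    · exact ⟨c, inf_le_inf_right _ ((key c).2.2.2 _ hbc), le_rfl⟩
    · exact ⟨c, le_of_eq (by rw [hbc]), le_rfl⟩
    · exact ⟨b, le_rfl, inf_le_inf_right _ ((key b).2.2.2 _ hbc)⟩
  refine ⟨Ultrafilter.of (⨅ a, G a ⊓ J), ?_, fun t => ?_⟩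
  · obtain ⟨a⟩ := ‹Nonempty Om›
    exact (Ultrafilter.of_le _).trans ((iInf_le _ a).trans inf_le_right)
  · obtain ⟨a, rfl⟩ := he t
    exact ⟨G a, (Ultrafilter.of_le _).trans ((iInf_le _ a).trans inf_le_left), (key a).2.2.1⟩

/-- Under CH there is a p-point. -/
theorem exists_ppoint (hCH : (𝔠 : Cardinal.{0}) = ℵ₁) :
    ∃ V : Ultrafilter ℕ, (V : Filter ℕ) ≤ atTop ∧
      ∀ S : ℕ → Set ℕ, (∀ i, S i ∈ V) → ∃ N ∈ V, ∀ i, (N \ S i).Finite := by
  have hI : #(ℕ → Set ℕ) ≤ ℵ₁ := by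
    rw [← hCH]
    simp
  obtain ⟨V, hV, h⟩ := exists_ultrafilter_tasks (atTop : Filter ℕ) hI
    (fun S F => (∃ i, (S i)ᶜ ∈ F) ∨ ∃ N ∈ F, ∀ i, (N \ S i).Finite) (by
      intro S F hF hne
      by_cases hc : ∃ i, (F ⊓ 𝓟 (S i)ᶜ ⊓ atTop).NeBot
      · obtain ⟨i, hi⟩ := hc
        exact ⟨F ⊓ 𝓟 (S i)ᶜ, inf_le_left, inferInstance, hi,
          Or.inl ⟨i, mem_inf_of_right (mem_principal_self _)⟩⟩
      · push Not at hc
        obtain ⟨x, hx⟩ := exists_seq_tendsto (F ⊓ atTop)
        refine ⟨F ⊓ 𝓟 (range x), inf_le_left, inferInstance, ?_,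
          Or.inr ⟨range x, mem_inf_of_right (mem_principal_self _), fun i => ?_⟩⟩
        · refine NeBot.mono (f := map x atTop) inferInstance ?_
          exact le_inf (le_inf (hx.trans inf_le_left) (le_principal_iff.2 range_mem_map))
            (hx.trans inf_le_right)
        · have h1 : S i ∈ F ⊓ atTop := by
            have := hc i
            rw [inf_right_comm, inf_principal_eq_bot, compl_compl] at this
            exact this
          have h2 : ∀ᶠ n in atTop, x n ∈ S i := hx h1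
          rw [← Nat.cofinite_eq_atTop, eventually_cofinite] at h2
          refine (h2.image x).subset ?_
          rintro _ ⟨⟨n, rfl⟩, hn⟩
          exact ⟨n, hn, rfl⟩)
  refine ⟨V, hV, fun S hS => ?_⟩
  obtain ⟨F, hF, ⟨i, hi⟩ | ⟨N, hN, hN'⟩⟩ := h S
  · exact absurd (hS i) (Ultrafilter.compl_mem_iff_notMem.1 (hF hi))
  · exact ⟨N, hF hN, hN'⟩

end Pool.Agent.H647Z.Tukey
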