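import Mathlib
import Pool.Agent.H647Z.TukeyDefs
import Pool.Agent.H647Z.TukeyRec

set_option autoImplicit false

open Cardinal Set Filter Topology

namespace Pool.Agent.H647Z.Tukey

/-- The `n`-th finite probability space. -/
abbrev Q (n : ℕ) : Type := (Fin n → Bool) → Bool

lemma exists_code : ∃ φ : (Σ n, Q n) → ℕ, Function.Injective φ := exists_injective_nat _

noncomputable def code : (Σ n, Q n) → ℕ := exists_code.choose

lemma code_inj : Function.Injective code := exists_code.choose_spec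

open Classical in
/-- The number of points of the `n`-th space in `S`. -/
noncomputable def cnt (n : ℕ) (S : Set ℕ) : ℕ :=
  (Finset.univ.filter fun s : Q n => code ⟨n, s⟩ ∈ S).card

/-- The `n`-th measure. -/
noncomputable def mu (n : ℕ) (S : Set ℕ) : ℝ := cnt n S / Fintype.card (Q n)

lemma cardQ_pos (n : ℕ) : (0 : ℝ) < Fintype.card (Q n) := by
  exact_mod_cast Fintype.card_pos

lemma mu_nonneg (n : ℕ) (S : Set ℕ) : 0 ≤ mu n S := by
  unfold mu
  positivity

lemma mu_mono' {n : ℕ} {S T : Set ℕ} (h : ∀ s : Q n, code ⟨n, s⟩ ∈ S → code ⟨n, s⟩ ∈ T) :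
    mu n S ≤ mu n T := by
  classical
  unfold mu cnt
  refine div_le_div_of_nonneg_right ?_ (cardQ_pos n).le
  exact_mod_cast Finset.card_le_card fun s hs => by
    simp only [Finset.mem_filter, Finset.mem_univ, true_and] at hs ⊢
    exact h s hs

lemma mu_mono {n : ℕ} {S T : Set ℕ} (h : S ⊆ T) : mu n S ≤ mu n T :=
  mu_mono' fun _ hs => h hs

lemma mu_union (n : ℕ) (S T : Set ℕ) : mu n (S ∪ T) ≤ mu n S + mu n T := by
  classical
  unfold mu cnt
  rw [← add_div]
  refine div_le_div_of_nonneg_right ?_ (cardQ_pos n).le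
  have : (Finset.univ.filter fun s : Q n => code ⟨n, s⟩ ∈ S ∪ T).card ≤
      (Finset.univ.filter fun s : Q n => code ⟨n, s⟩ ∈ S).card +
      (Finset.univ.filter fun s : Q n => code ⟨n, s⟩ ∈ T).card := by
    refine le_trans (Finset.card_le_card fun s hs => ?_) (Finset.card_union_le _ _)
    simpa using hs
  convert (Nat.cast_le (α := ℝ)).2 this using 1
  · congr
  · push_cast
    congr

lemma mu_univ (n : ℕ) : mu n univ = 1 := by
  unfold mu cnt
  simp only [mem_univ, Finset.filter_true, Finset.card_univ]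
  exact div_self (cardQ_pos n).ne'

lemma mu_empty (n : ℕ) : mu n ∅ = 0 := by
  unfold mu cnt
  simp

lemma exists_bound (f : ℕ → ℕ) (n : ℕ) : ∃ M, ∀ s : Q n, f (code ⟨n, s⟩) ≤ M :=
  ⟨Finset.univ.sup fun s : Q n => f (code ⟨n, s⟩), fun s =>
    Finset.le_sup (f := fun s : Q n => f (code ⟨n, s⟩)) (Finset.mem_univ s)⟩

open Classical in
lemma sum_mu_le {α : Type} (T : Finset α) (B : α → Set ℕ) (k n : ℕ)
    (h : ∀ x, (T.filter fun X => x ∈ B X).card ≤ k) : ∑ X ∈ T, mu n (B X) ≤ k := by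
  unfold mu
  rw [← Finset.sum_div, div_le_iff₀ (cardQ_pos n)]
  have : ∑ X ∈ T, cnt n (B X) ≤ k * Fintype.card (Q n) := by
    unfold cnt
    simp only [Finset.card_filter]
    rw [Finset.sum_comm]
    calc _ ≤ ∑ _s : Q n, k := Finset.sum_le_sum fun s _ => by
          rw [← Finset.card_filter]
          exact h _
      _ = _ := by simp [mul_comm]
  exact_mod_cast this

section

variable (V : Ultrafilter ℕ)

/-- Sets of limit measure zero. -/
def Null (S : Set ℕ) : Prop := Tendsto (fun n => mu n S) V (𝓝 0)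

variable {V}

lemma Null.mono {S T : Set ℕ} (hT : Null V T) (h : S ⊆ T) : Null V S :=
  squeeze_zero (fun n => mu_nonneg n S) (fun _ => mu_mono h) hT

lemma Null.union {S T : Set ℕ} (hS : Null V S) (hT : Null V T) : Null V (S ∪ T) :=
  squeeze_zero (fun n => mu_nonneg n _) (fun n => mu_union n S T) (by
    simpa using Tendsto.add hS hT)

lemma Null.ev {S : Set ℕ} (hS : Null V S) {δ : ℝ} (hδ : 0 < δ) : ∀ᶠ n in V, mu n S < δ :=
  Tendsto.eventually hS (gt_mem_nhds hδ)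

lemma null_of {S : Set ℕ} (h : ∀ δ > 0, ∀ᶠ n in V, mu n S ≤ δ) : Null V S := by
  refine tendsto_order.2 ⟨fun a ha => Eventually.of_forall fun n => ha.trans_le (mu_nonneg n S),
    fun a ha => ?_⟩
  filter_upwards [h (a / 2) (by linarith)] with n hn
  linarith

lemma not_null_iff {S : Set ℕ} : ¬ Null V S ↔ ∃ δ > 0, ∀ᶠ n in V, δ < mu n S := by
  constructor
  · intro h
    by_contra hc
    refine h (null_of fun δ hδ => ?_)
    have : ¬ ∀ᶠ n in V, δ < mu n S := fun h' => hc ⟨δ, hδ, h'⟩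
    rw [← Ultrafilter.eventually_not] at this
    exact this.mono fun n hn => not_lt.1 hn
  · rintro ⟨δ, hδ, h⟩ hS
    obtain ⟨n, h1, h2⟩ := (h.and (hS.ev hδ)).exists
    linarith

variable (V)

/-- The filter of the sets of limit measure one. -/
def JJ : Filter ℕ where
  sets := {S | Null V Sᶜ}
  univ_sets := by
    simp only [mem_ofPred_eq, compl_univ, Null, mu_empty]
    exact tendsto_const_nhds
  sets_of_superset := fun hS h => Null.mono hS (compl_subset_compl.2 h)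
  inter_sets := fun hS hT => by
    simp only [mem_ofPred_eq, compl_inter]
    exact Null.union hS hT

variable {V}

lemma mem_JJ {S : Set ℕ} : S ∈ JJ V ↔ Null V Sᶜ := Iff.rfl

lemma neBot_iff' {F : Filter ℕ} : (F ⊓ JJ V).NeBot ↔ ∀ S ∈ F, ¬ Null V S := by
  rw [inf_neBot_iff]
  constructor
  · intro h S hS hn
    have := h hS (show Sᶜ ∈ JJ V by rwa [mem_JJ, compl_compl])
    simp at this
  · intro h S hS T hT
    by_contra hc
    refine h S hS (Null.mono hT fun x hx hxT => hc ⟨x, hx, hxT⟩)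

instance : (JJ V).NeBot := by
  have : ((⊤ : Filter ℕ) ⊓ JJ V).NeBot := by
    rw [neBot_iff']
    intro S hS
    rw [mem_top_iff_forall, ← eq_univ_iff_forall] at hS
    subst hS
    exact not_null_iff.2 ⟨1 / 2, by norm_num, Eventually.of_forall fun n => by
      rw [mu_univ]; norm_num⟩
  rwa [top_inf_eq] at this

lemma step_b (hV : ∀ S : ℕ → Set ℕ, (∀ i, S i ∈ V) → ∃ N ∈ V, ∀ i, (N \ S i).Finite)
    (f π : ℕ → ℕ) (C : Set ℕ) {δ : ℝ} (hδ : 0 < δ)
    (h : ∀ k, ∀ᶠ n in V, δ < mu n (C ∩ {x | k < π x})) :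
    ∃ g : ℕ → ℕ, ¬ Null V (C ∩ {x | f x ≤ g (π x)}) := by
  classical
  obtain ⟨N, hN, hfin⟩ := hV (fun k => {n | δ < mu n (C ∩ {x | k < π x})}) h
  choose M hM using exists_bound f
  refine ⟨fun k => (hfin k).toFinset.sup M, not_null_iff.2 ⟨δ, hδ, ?_⟩⟩
  filter_upwards [hN, h 0] with n hn h0
  have hex : ∃ k, ¬ δ < mu n (C ∩ {x | k + 1 < π x}) := by
    obtain ⟨K, hK⟩ := exists_bound π n
    refine ⟨K, not_lt.2 (le_trans (mu_mono' (T := ∅) fun s hs => ?_) (by rw [mu_empty]; exact hδ.le))⟩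
    have := hK s
    have h2 : K + 1 < π (code ⟨n, s⟩) := hs.2
    omega
  have h1 : δ < mu n (C ∩ {x | Nat.find hex < π x}) := by
    rcases Nat.eq_zero_or_pos (Nat.find hex) with h2 | h2
    · rw [h2]; exact h0
    · have := Nat.find_min hex (m := Nat.find hex - 1) (by omega)
      rw [not_not, Nat.sub_add_cancel h2] at this
      exact this
  refine h1.trans_le (mu_mono' fun s hs => ⟨hs.1, ?_⟩)
  have h2 : Nat.find hex < π (code ⟨n, s⟩) := hs.2
  refine (hM n s).trans (Finset.le_sup (f := M) ?_)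
  rw [Finite.mem_toFinset]
  refine ⟨hn, fun h3 => Nat.find_spec hex (lt_of_lt_of_le h3 (mu_mono fun x hx => ⟨hx.1, ?_⟩))⟩
  have h4 : π (code ⟨n, s⟩) < π x := hx.2
  change Nat.find hex + 1 < π x
  omega

/-- What the construction achieves for the pair `(f, π)`. -/
def Done (V : Ultrafilter ℕ) (t : (ℕ → ℕ) × (ℕ → ℕ)) (F : Filter ℕ) : Prop :=
  (∃ g : ℕ → ℕ, {x | t.1 x ≤ g (t.2 x)} ∈ F) ∨ (∃ k, {x | t.2 x ≤ k} ∈ F) ∨
    ∃ C ∈ F, (∀ k m, Null V (C ∩ {x | t.2 x ≤ k} ∩ {x | t.1 x ≤ m})) ∧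
      ∀ δ > 0, ∃ k, ∀ᶠ n in V, mu n (C ∩ {x | k < t.2 x}) ≤ δ

lemma dense (hV : ∀ S : ℕ → Set ℕ, (∀ i, S i ∈ V) → ∃ N ∈ V, ∀ i, (N \ S i).Finite)
    (t : (ℕ → ℕ) × (ℕ → ℕ)) (F : Filter ℕ) (hF : F.IsCountablyGenerated)
    (hne : (F ⊓ JJ V).NeBot) :
    ∃ F' ≤ F, F'.IsCountablyGenerated ∧ (F' ⊓ JJ V).NeBot ∧ Done V t F' := by
  classical
  obtain ⟨f, π⟩ := t
  obtain ⟨C, hC⟩ := F.exists_antitone_basis
  have add : ∀ S, (∀ j, ¬ Null V (C j ∩ S)) → (F ⊓ 𝓟 S ⊓ JJ V).NeBot := by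
    intro S hS
    rw [neBot_iff']
    intro W hW hn
    rw [mem_inf_principal] at hW
    obtain ⟨j, hj⟩ := hC.mem_iff.1 hW
    exact hS j (hn.mono fun x hx => hj hx.1 hx.2)
  by_cases hA : ∃ k, ∀ j, ¬ Null V (C j ∩ {x | π x ≤ k})
  · obtain ⟨k, hk⟩ := hA
    exact ⟨_, inf_le_left, inferInstance, add _ hk,
      Or.inr (Or.inl ⟨k, mem_inf_of_right (mem_principal_self _)⟩)⟩
  push Not at hA
  by_cases hB : ∃ j, (∀ k m, Null V (C j ∩ {x | π x ≤ k} ∩ {x | f x ≤ m})) ∧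
      ∀ δ > 0, ∃ k, ∀ᶠ n in V, mu n (C j ∩ {x | k < π x}) ≤ δ
  · obtain ⟨j, hj⟩ := hB
    exact ⟨F, le_rfl, hF, hne, Or.inr (Or.inr ⟨C j, hC.mem j, hj⟩)⟩
  have h1 : ∀ j, ∃ g : ℕ → ℕ, ¬ Null V (C j ∩ {x | f x ≤ g (π x)}) := by
    intro j
    by_cases ha : ∀ k m, Null V (C j ∩ {x | π x ≤ k} ∩ {x | f x ≤ m})
    · have hb : ¬ ∀ δ > 0, ∃ k, ∀ᶠ n in V, mu n (C j ∩ {x | k < π x}) ≤ δ :=
        fun hb => hB ⟨j, ha, hb⟩
      simp only [not_forall, not_exists] at hb
      obtain ⟨δ, hδ, hb⟩ := hb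
      refine step_b hV f π (C j) hδ fun k => ?_
      have := hb k
      rw [← Ultrafilter.eventually_not] at this
      exact this.mono fun n hn => not_le.1 hn
    · simp only [not_forall] at ha
      obtain ⟨k, m, ha⟩ := ha
      exact ⟨fun _ => m, fun hn => ha (hn.mono fun x hx => ⟨hx.1.1, hx.2⟩)⟩
  have h2 : ∀ j, ∃ g : ℕ → ℕ, ¬ Null V (C j ∩ {x | j < π x} ∩ {x | f x ≤ g (π x)}) := by
    intro j
    obtain ⟨j', hj'⟩ := hA j
    obtain ⟨g, hg⟩ := h1 (max j j')
    refine ⟨g, fun hn => hg ((hn.union hj').mono fun x hx => ?_)⟩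
    by_cases hx' : π x ≤ j
    · exact Or.inr ⟨hC.antitone (le_max_right _ _) hx.1, hx'⟩
    · exact Or.inl ⟨⟨hC.antitone (le_max_left _ _) hx.1, not_le.1 hx'⟩, hx.2⟩
  choose g hg using h2
  refine ⟨_, inf_le_left, inferInstance,
    add {x | f x ≤ (Finset.range (π x)).sup fun j => g j (π x)} fun j hn => hg j (hn.mono ?_),
    Or.inl ⟨fun k => (Finset.range k).sup fun j => g j k,
      mem_inf_of_right (mem_principal_self _)⟩⟩
  intro x hx
  refine ⟨hx.1.1, le_trans hx.2 (Finset.le_sup (f := fun j => g j (π x)) ?_)⟩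
  exact Finset.mem_range.2 hx.1.2

end

lemma exists_sep (T : Finset (Set ℕ)) :
    ∃ m, ∀ m' > m, ∀ X ∈ T, ∀ Y ∈ T, X ∩ Iio m' = Y ∩ Iio m' → X = Y := by
  have : ∀ᶠ m' in atTop, ∀ X ∈ T, ∀ Y ∈ T, X ∩ Iio m' = Y ∩ Iio m' → X = Y := by
    rw [eventually_all_finset]
    intro X _
    rw [eventually_all_finset]
    intro Y _
    by_cases h : X = Y
    · exact Eventually.of_forall fun _ _ => h
    · obtain ⟨x, hx⟩ : ∃ x, ¬ (x ∈ X ↔ x ∈ Y) := by
        by_contra hc
        push Not at hc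
        exact h (Set.ext hc)
      filter_upwards [eventually_gt_atTop x] with m hm h'
      exfalso
      apply hx
      have := Set.ext_iff.1 h' x
      simpa [hm] using this
  obtain ⟨m, hm⟩ := eventually_atTop.1 this
  exact ⟨m, fun m' h => hm m' h.le⟩

open Classical in
lemma guess_le {f π : ℕ → ℕ} {A : ℕ → Set (Set ℕ)} (hA : ∀ n, (A n).encard ≤ π n)
    (T : Finset (Set ℕ)) {m : ℕ}
    (hm : ∀ m' > m, ∀ X ∈ T, ∀ Y ∈ T, X ∩ Iio m' = Y ∩ Iio m' → X = Y) (x : ℕ) (hx : m < f x) :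
    (T.filter fun X => X ∩ Iio (f x) ∈ A x).card ≤ π x := by
  have h1 : (((T.filter fun X => X ∩ Iio (f x) ∈ A x) : Finset (Set ℕ)) : Set (Set ℕ)).encard ≤
      (A x).encard := by
    refine encard_le_encard_of_injOn (f := fun X => X ∩ Iio (f x)) (fun X hX => ?_) ?_
    · exact (Finset.mem_filter.1 hX).2
    · intro X hX Y hY h
      exact hm _ hx X (Finset.mem_filter.1 hX).1 Y (Finset.mem_filter.1 hY).1 h
  rw [encard_coe_eq_coe_finsetCard] at h1
  exact_mod_cast h1.trans (hA x)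

lemma not_diamond {V U : Ultrafilter ℕ} (hU : (U : Filter ℕ) ≤ JJ V)
    (hD : ∀ t, ∃ F, (U : Filter ℕ) ≤ F ∧ Done V t F) : ¬ DiamondMinus U := by
  classical
  rintro ⟨f, π, A, T, hT, hA, hX, hg⟩
  have hpos : ∀ S ∈ U, ¬ Null V S := fun S hS hn =>
    Ultrafilter.compl_mem_iff_notMem.1 (hU (show Sᶜ ∈ JJ V by rwa [mem_JJ, compl_compl])) hS
  have hunc : ¬ T.Countable := by
    rw [← Set.countable_coe_iff, ← Cardinal.mk_le_aleph0_iff, hT, not_le]
    exact aleph0_lt_continuum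
  have hinf : T.Infinite := fun h => hunc h.countable
  obtain ⟨F, hF, ⟨g, h⟩ | ⟨k, h⟩ | ⟨C, hC, h1, h2⟩⟩ := hD (f, π)
  · obtain ⟨x, h1, h2⟩ := Ultrafilter.nonempty_of_mem (inter_mem (hF h) (hg g))
    have h1' : f x ≤ g (π x) := h1
    have h2' : g (π x) < f x := h2
    omega
  · obtain ⟨T', hT', hcard⟩ := hinf.exists_subset_card_eq (k + 1)
    obtain ⟨m, hm⟩ := exists_sep T'
    have h3 : ∀ᶠ x in U, ∀ X ∈ T', X ∩ Iio (f x) ∈ A x :=
      (eventually_all_finset T').2 fun X hX' => hX X (hT' hX')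
    obtain ⟨x, ⟨h4, h5⟩, h6⟩ := ((h3.and (hF h)).and (hg fun _ => m)).exists
    have h7 := guess_le (fun n => (hA n).2) T' hm x h6
    rw [Finset.filter_true_of_mem h4, hcard] at h7
    have h8 : π x ≤ k := h5
    omega
  · have h3 : ∀ X : T, ∃ p : ℕ × ℕ, ∀ᶠ n in V, 1 / ((p.2 : ℝ) + 1) <
        mu n ({x | X.1 ∩ Iio (f x) ∈ A x} ∩ (C ∩ {x | π x ≤ p.1})) := by
      intro X
      obtain ⟨δ, hδ, h4⟩ := not_null_iff.1 (hpos _ (inter_mem (hX X X.2) (hF hC)))
      obtain ⟨k, hk⟩ := h2 (δ / 2) (by linarith)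
      obtain ⟨r, hr⟩ := exists_nat_one_div_lt (show 0 < δ / 2 by linarith)
      refine ⟨(k, r), ?_⟩
      filter_upwards [h4, hk] with n h5 h6
      have h7 := mu_union n ({x | X.1 ∩ Iio (f x) ∈ A x} ∩ (C ∩ {x | π x ≤ k}))
        (C ∩ {x | k < π x})
      have h8 : mu n ({x | X.1 ∩ Iio (f x) ∈ A x} ∩ C) ≤
          mu n (({x | X.1 ∩ Iio (f x) ∈ A x} ∩ (C ∩ {x | π x ≤ k})) ∪ (C ∩ {x | k < π x})) := by
        refine mu_mono fun x hx => ?_
        by_cases hx' : π x ≤ k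
        · exact Or.inl ⟨hx.1, hx.2, hx'⟩
        · exact Or.inr ⟨hx.2, not_le.1 hx'⟩
      change 1 / ((r : ℝ) + 1) < _
      change mu n (C ∩ {x | k < π x}) ≤ δ / 2 at h6
      linarith
    choose p hp using h3
    have : Uncountable T := by
      rwa [← not_countable_iff, Set.countable_coe_iff]
    obtain ⟨⟨k, r⟩, hfib⟩ : ∃ y, (p ⁻¹' {y}).Infinite := by
      by_contra hc
      push Not at hc
      have h4 : (⋃ y, p ⁻¹' {y}).Countable := countable_iUnion fun y => (hc y).countable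
      exact not_countable_univ (h4.mono fun x _ => mem_iUnion.2 ⟨p x, rfl⟩)
    obtain ⟨T', hT', hcard⟩ := (hfib.image Subtype.val_injective.injOn).exists_subset_card_eq
      (2 * k * (r + 1) + 1)
    obtain ⟨m, hm⟩ := exists_sep T'
    have hr : (0 : ℝ) < 1 / (2 * ((r : ℝ) + 1)) := by positivity
    have h4 : ∀ᶠ n in V, ∀ X ∈ T', 1 / ((r : ℝ) + 1) <
        mu n ({x | X ∩ Iio (f x) ∈ A x} ∩ (C ∩ {x | π x ≤ k})) := by
      refine (eventually_all_finset T').2 fun X hX' => ?_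
      obtain ⟨Y, hY, rfl⟩ := hT' hX'
      have := hp Y
      rwa [show p Y = (k, r) from hY] at this
    obtain ⟨n, h5, h6⟩ := (h4.and ((h1 k m).ev hr)).exists
    have h7 := sum_mu_le T' (fun X => {x | X ∩ Iio (f x) ∈ A x} ∩ ({x | π x ≤ k} ∩ {x | m < f x}))
      k n (by
        intro x
        by_cases hx : π x ≤ k ∧ m < f x
        · refine le_trans (Finset.card_le_card fun X hX' => ?_)
            ((guess_le (fun n => (hA n).2) T' hm x hx.2).trans hx.1)
          simp only [Finset.mem_filter] at hX' ⊢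
          exact ⟨hX'.1, hX'.2.1⟩
        · refine le_trans (Finset.card_le_card (t := ∅) fun X hX' => ?_) (by simp)
          simp only [Finset.mem_filter] at hX'
          exact absurd hX'.2.2 hx)
    have h8 : ∀ X ∈ T', 1 / (2 * ((r : ℝ) + 1)) ≤
        mu n ({x | X ∩ Iio (f x) ∈ A x} ∩ ({x | π x ≤ k} ∩ {x | m < f x})) := by
      intro X hX'
      have h9 := h5 X hX'
      have h10 := mu_union n ({x | X ∩ Iio (f x) ∈ A x} ∩ ({x | π x ≤ k} ∩ {x | m < f x}))
        (C ∩ {x | π x ≤ k} ∩ {x | f x ≤ m})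
      have h11 : mu n ({x | X ∩ Iio (f x) ∈ A x} ∩ (C ∩ {x | π x ≤ k})) ≤
          mu n (({x | X ∩ Iio (f x) ∈ A x} ∩ ({x | π x ≤ k} ∩ {x | m < f x})) ∪
            (C ∩ {x | π x ≤ k} ∩ {x | f x ≤ m})) := by
        refine mu_mono fun x hx => ?_
        by_cases hx' : f x ≤ m
        · exact Or.inr ⟨hx.2, hx'⟩
        · exact Or.inl ⟨hx.1, hx.2.2, not_le.1 hx'⟩
      have h12 : 1 / ((r : ℝ) + 1) = 2 * (1 / (2 * ((r : ℝ) + 1))) := by field_simp
      change mu n (C ∩ {x | π x ≤ k} ∩ {x | f x ≤ m}) < _ at h6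
      linarith
    have h9 := (Finset.card_nsmul_le_sum T' _ _ h8).trans h7
    rw [hcard, nsmul_eq_mul, mul_one_div, div_le_iff₀ (by positivity)] at h9
    push_cast at h9
    linarith

/-- The independent sets. -/
def EE (X : ℕ → Bool) : Set ℕ := {x | ∃ n, ∃ s : Q n, code ⟨n, s⟩ = x ∧ s (fun i => X i) = true}

lemma mem_EE (X : ℕ → Bool) (n : ℕ) (s : Q n) :
    code ⟨n, s⟩ ∈ EE X ↔ s (fun i => X i) = true := by
  constructor
  · rintro ⟨n', s', h, h'⟩
    have := code_inj h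
    cases this
    exact h'
  · intro h
    exact ⟨n, s, rfl, h⟩

lemma mu_indep (n : ℕ) (T : Finset (ℕ → Bool)) (ε : (ℕ → Bool) → Bool) (S : Set ℕ)
    (hinj : Set.InjOn (fun (X : ℕ → Bool) (i : Fin n) => X i) T)
    (hS : ∀ s : Q n, code ⟨n, s⟩ ∈ S → ∀ X ∈ T, s (fun i => X i) = ε X) :
    mu n S * 2 ^ T.card ≤ 1 := by
  classical
  let t : (Fin n → Bool) → Finset Bool := fun a =>
    Finset.univ.filter fun b => ∀ X ∈ T, (fun i : Fin n => X i) = a → b = ε X
  let R : Finset (Fin n → Bool) := T.image fun X i => X i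
  have h1 : cnt n S ≤ ∏ a, (t a).card := by
    rw [← Fintype.card_piFinset]
    refine Finset.card_le_card fun s hs => ?_
    rw [Finset.mem_filter] at hs
    rw [Fintype.mem_piFinset]
    intro a
    simp only [t, Finset.mem_filter, Finset.mem_univ, true_and]
    rintro X hX rfl
    exact hS s hs.2 X hX
  have h2 : 2 ^ T.card = ∏ a, if a ∈ R then 2 else 1 := by
    rw [Finset.prod_ite_mem, Finset.univ_inter, Finset.prod_const, Finset.card_image_of_injOn hinj]
  have h3 : cnt n S * 2 ^ T.card ≤ Fintype.card (Q n) := by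
    rw [h2]
    refine (Nat.mul_le_mul_right _ h1).trans ?_
    rw [← Finset.prod_mul_distrib, Fintype.card_fun, Fintype.card_bool, ← Finset.card_univ,
      ← Finset.prod_const]
    refine Finset.prod_le_prod' fun a _ => ?_
    split_ifs with ha
    · obtain ⟨X, hX, hXa⟩ := Finset.mem_image.1 ha
      have : (t a).card ≤ 1 := Finset.card_le_one.2 fun b hb c hc => by
        rw [(Finset.mem_filter.1 hb).2 X hX hXa, (Finset.mem_filter.1 hc).2 X hX hXa]
      omega
    · simpa using Finset.card_le_univ (t a)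
  rw [mu, div_mul_eq_mul_div, div_le_one (cardQ_pos n)]
  exact_mod_cast h3

lemma tukeyTop {V U : Ultrafilter ℕ} (hV : (V : Filter ℕ) ≤ atTop) (hU : (U : Filter ℕ) ≤ JJ V) :
    TukeyTop U := by
  classical
  let ε : (ℕ → Bool) → Bool := fun X => decide (EE X ∈ U)
  let A : (ℕ → Bool) → Set ℕ := fun X => if EE X ∈ U then EE X else (EE X)ᶜ
  have hA : ∀ X n (s : Q n), code ⟨n, s⟩ ∈ A X → s (fun i => X i) = ε X := by
    intro X n s hs
    by_cases h : EE X ∈ U
    · simp only [A, ε, h, if_true, decide_true] at hs ⊢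
      exact (mem_EE X n s).1 hs
    · simp only [A, ε, h, if_false, decide_false] at hs ⊢
      simpa using fun h' => hs ((mem_EE X n s).2 h')
  refine ⟨ℕ → Bool, A, by simp, fun X => ?_, fun I _ hI hmem => ?_⟩
  · by_cases h : EE X ∈ U
    · simpa only [A, h, if_true] using h
    · simpa only [A, h, if_false] using Ultrafilter.compl_mem_iff_notMem.2 h
  · have hnull : Null V (⋂ i ∈ I, A i) := by
      refine null_of fun δ hδ => ?_
      obtain ⟨r, hr⟩ := exists_pow_lt_of_lt_one hδ (show (1 / 2 : ℝ) < 1 by norm_num)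
      obtain ⟨T, hT, hcard⟩ := hI.exists_subset_card_eq r
      have h1 : ∀ᶠ n in atTop, ∀ X ∈ T, ∀ Y ∈ T,
          (fun i : Fin n => X i) = (fun i : Fin n => Y i) → X = Y := by
        rw [eventually_all_finset]
        intro X _
        rw [eventually_all_finset]
        intro Y _
        by_cases h : X = Y
        · exact Eventually.of_forall fun _ _ => h
        · obtain ⟨x, hx⟩ := Function.ne_iff.1 h
          filter_upwards [eventually_gt_atTop x] with m hm h'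
          exact absurd (congrFun h' ⟨x, hm⟩) hx
      filter_upwards [hV h1] with n hn
      have h2 := mu_indep n T ε (⋂ i ∈ I, A i) (fun X hX Y hY h => hn X hX Y hY h)
        (fun s hs X hX => hA X n s (mem_iInter₂.1 hs X (hT hX)))
      rw [hcard] at h2
      rw [one_div, inv_pow] at hr
      have h3 : mu n (⋂ i ∈ I, A i) ≤ ((2 : ℝ) ^ r)⁻¹ := by
        rw [← one_div, le_div_iff₀ (by positivity)]
        exact h2
      linarith
    exact Ultrafilter.compl_mem_iff_notMem.1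
      (hU (show (⋂ i ∈ I, A i)ᶜ ∈ JJ V by rwa [mem_JJ, compl_compl])) hmem

theorem main (hCH : (𝔠 : Cardinal.{0}) = ℵ₁) :
    ∃ U : Ultrafilter ℕ, TukeyTop U ∧ ¬ DiamondMinus U := by
  obtain ⟨V, hV1, hV2⟩ := exists_ppoint hCH
  have hI : #((ℕ → ℕ) × (ℕ → ℕ)) ≤ ℵ₁ := by
    rw [← hCH]
    simp
  obtain ⟨U, hU, hD⟩ := exists_ultrafilter_tasks (JJ V) hI (Done V) (dense hV2)
  exact ⟨U, tukeyTop hV1 hU, not_diamond hU hD⟩

end Pool.Agent.H647Z.Tukey
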