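import Mathlib
import Pool.Agent.H647Z.TukeyMain

set_option autoImplicit false

open Set Filter Topology

namespace Pool.Agent.H647Z.TukeyF

open Pool.Agent.H647Z.Tukey

/-- Conditions. -/
structure Cond where
  W : Filter ℕ
  F : Filter ℕ
  hW : W.IsCountablyGenerated
  hF : F.IsCountablyGenerated
  ne : W.NeBot
  top : W ≤ atTop
  pos : ∀ S ∈ F, ∃ δ > 0, ∀ᶠ n in W, δ < mu n S

instance : Preorder Cond where
  le p q := p.W ≤ q.W ∧ p.F ≤ q.F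
  le_refl _ := ⟨le_rfl, le_rfl⟩
  le_trans _ _ _ h h' := ⟨h.1.trans h'.1, h.2.trans h'.2⟩

instance : Nonempty Cond :=
  ⟨⟨atTop, ⊤, inferInstance, inferInstance, inferInstance, le_rfl, fun S hS => by
    rw [mem_top_iff_forall, ← eq_univ_iff_forall] at hS
    subst hS
    exact ⟨1 / 2, by norm_num, Eventually.of_forall fun n => by rw [mu_univ]; norm_num⟩⟩⟩

lemma Cond.nonempty (p : Cond) {S : Set ℕ} (h : S ∈ p.F) : S.Nonempty := by
  by_contra hc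
  rw [not_nonempty_iff_eq_empty] at hc
  subst hc
  obtain ⟨δ, hδ, h1⟩ := p.pos _ h
  have := p.ne
  obtain ⟨n, hn⟩ := h1.exists
  rw [mu_empty] at hn
  linarith

lemma lower_bound (p : ℕ → Cond) (h : ∀ i, p (i + 1) ≤ p i) : ∃ q, ∀ i, q ≤ p i := by
  have ha : Antitone p := antitone_nat_of_succ_le h
  have hW : Directed (· ≥ ·) fun i => (p i).W :=
    Antitone.directed_ge (f := fun i => (p i).W) fun _ _ hij => (ha hij).1
  have hF : Directed (· ≥ ·) fun i => (p i).F :=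
    Antitone.directed_ge (f := fun i => (p i).F) fun _ _ hij => (ha hij).2
  have := fun i => (p i).hW
  have := fun i => (p i).hF
  refine ⟨⟨⨅ i, (p i).W, ⨅ i, (p i).F, inferInstance, inferInstance,
    iInf_neBot_of_directed hW fun i => (p i).ne, (iInf_le _ 0).trans (p 0).top, fun S hS => ?_⟩,
    fun i => ⟨iInf_le (fun i => (p i).W) i, iInf_le (fun i => (p i).F) i⟩⟩
  obtain ⟨i, hi⟩ := (mem_iInf_of_directed hF S).1 hS
  obtain ⟨δ, hδ, h1⟩ := (p i).pos S hi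
  exact ⟨δ, hδ, (iInf_le (fun i => (p i).W) i) h1⟩

lemma baire {ι : Type} [Countable ι] (D : ι → Set Cond)
    (hd : ∀ i, ∀ q ∈ D i, ∀ r ≤ q, r ∈ D i) (p : Cond)
    (h : ∀ i, ∀ q ≤ p, ∃ r ≤ q, r ∈ D i) : ∃ q ≤ p, ∀ i, q ∈ D i := by
  rcases isEmpty_or_nonempty ι with hι | hι
  · exact ⟨p, le_rfl, fun i => hι.elim i⟩
  obtain ⟨e, he⟩ := exists_surjective_nat ι
  choose g hg1 hg2 using h
  let u : ℕ → {q // q ≤ p} := fun n => Nat.rec ⟨p, le_rfl⟩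
    (fun n q => ⟨g (e n) q.1 q.2, (hg1 _ _ _).trans q.2⟩) n
  obtain ⟨q, hq⟩ := lower_bound (fun n => (u n).1) fun n => hg1 _ _ _
  refine ⟨q, hq 0, fun i => ?_⟩
  obtain ⟨n, rfl⟩ := he i
  exact hd _ _ (hg2 (e n) (u n).1 (u n).2) _ (hq (n + 1))

lemma compat (p : Cond) {V : Ultrafilter ℕ} (hV : (V : Filter ℕ) ≤ p.W) :
    (p.F ⊓ JJ V).NeBot := by
  rw [neBot_iff']
  intro S hS
  obtain ⟨δ, hδ, h⟩ := p.pos S hS
  exact not_null_iff.2 ⟨δ, hδ, hV h⟩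

lemma lift (p : Cond) {V : Ultrafilter ℕ} (hV : (V : Filter ℕ) ≤ p.W) {F : Filter ℕ}
    (hF : F ≤ p.F) (hc : F.IsCountablyGenerated) (hne : (F ⊓ JJ V).NeBot)
    {ι : Type} [Countable ι] (N : ι → Set ℕ) (hN : ∀ i, N i ∈ V) :
    ∃ q ≤ p, q.F = F ∧ ∀ i, N i ∈ q.W := by
  obtain ⟨C, hC⟩ := F.exists_antitone_basis
  have h1 := fun j => not_null_iff.1 (neBot_iff'.1 hne _ (hC.mem j))
  choose δ hδ h1 using h1
  have := p.hW
  have hle : (V : Filter ℕ) ≤ p.W ⊓ (⨅ j, 𝓟 {n | δ j < mu n (C j)}) ⊓ ⨅ i, 𝓟 (N i) :=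
    le_inf (le_inf hV (le_iInf fun j => le_principal_iff.2 (h1 j)))
      (le_iInf fun i => le_principal_iff.2 (hN i))
  refine ⟨⟨p.W ⊓ (⨅ j, 𝓟 {n | δ j < mu n (C j)}) ⊓ ⨅ i, 𝓟 (N i), F, inferInstance, hc,
    V.neBot.mono hle, (inf_le_left.trans inf_le_left).trans p.top, fun S hS => ?_⟩,
    ⟨inf_le_left.trans inf_le_left, hF⟩, rfl, fun i =>
      mem_inf_of_right (mem_iInf_of_mem i (mem_principal_self _))⟩
  obtain ⟨j, hj⟩ := hC.mem_iff.1 hS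
  refine ⟨δ j, hδ j, ?_⟩
  have : {n | δ j < mu n (C j)} ∈ p.W ⊓ (⨅ j, 𝓟 {n | δ j < mu n (C j)}) ⊓ ⨅ i, 𝓟 (N i) :=
    mem_inf_of_left (mem_inf_of_right (mem_iInf_of_mem j (mem_principal_self _)))
  filter_upwards [this] with n hn
  exact lt_of_lt_of_le hn (mu_mono hj)

lemma decide_set (p : Cond) (S : Set ℕ) : ∃ q ≤ p, S ∈ q.F ∨ Sᶜ ∈ q.F := by
  have := p.ne
  have := p.hF
  obtain ⟨V, hV⟩ := Ultrafilter.exists_le p.W
  have := compat p hV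
  obtain ⟨U, hU⟩ := Ultrafilter.exists_le (p.F ⊓ JJ V)
  have key : ∀ S ∈ U, ∃ q ≤ p, S ∈ q.F := by
    intro S hS
    obtain ⟨q, hq, h1, -⟩ := lift p hV (F := p.F ⊓ 𝓟 S) inf_le_left inferInstance
      (U.neBot.mono (le_inf (le_inf (hU.trans inf_le_left) (le_principal_iff.2 hS))
        (hU.trans inf_le_right))) (fun _ : Empty => univ) (fun i => i.elim)
    exact ⟨q, hq, h1 ▸ mem_inf_of_right (mem_principal_self _)⟩
  rcases U.mem_or_compl_mem S with h | h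
  · obtain ⟨q, hq, h1⟩ := key _ h
    exact ⟨q, hq, Or.inl h1⟩
  · obtain ⟨q, hq, h1⟩ := key _ h
    exact ⟨q, hq, Or.inr h1⟩

lemma exists_good (p : Cond) {ι : Type} [Countable ι] (S : ι → Set ℕ) :
    ∃ V : Ultrafilter ℕ, (V : Filter ℕ) ≤ p.W ∧ ∃ N ∈ V, ∀ t, S t ∈ V → (N \ S t).Finite := by
  classical
  have := p.ne
  have := p.hW
  obtain ⟨V0, hV0⟩ := Ultrafilter.exists_le p.W
  let S' : ι → Set ℕ := fun t => if S t ∈ V0 then S t else (S t)ᶜ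
  have hS' : ∀ t, S' t ∈ V0 := fun t => by
    by_cases h : S t ∈ V0
    · simpa only [S', h, if_true] using h
    · simpa only [S', h, if_false] using Ultrafilter.compl_mem_iff_notMem.2 h
  have hle : (V0 : Filter ℕ) ≤ p.W ⊓ ⨅ t, 𝓟 (S' t) :=
    le_inf hV0 (le_iInf fun t => le_principal_iff.2 (hS' t))
  have := V0.neBot.mono hle
  obtain ⟨u, hu⟩ := exists_seq_tendsto (p.W ⊓ ⨅ t, 𝓟 (S' t))
  have hV : ((hyperfilter ℕ).map u : Filter ℕ) ≤ p.W ⊓ ⨅ t, 𝓟 (S' t) :=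
    hu.mono_left Nat.hyperfilter_le_atTop
  have hm : ∀ t, S' t ∈ p.W ⊓ ⨅ t, 𝓟 (S' t) := fun t =>
    mem_inf_of_right (mem_iInf_of_mem t (mem_principal_self _))
  refine ⟨(hyperfilter ℕ).map u, hV.trans inf_le_left, range u, range_mem_map, fun t ht => ?_⟩
  have h1 : S' t = S t := by
    by_cases h : S t ∈ V0
    · simp only [S', h, if_true]
    · exfalso
      have h2 := hV (hm t)
      simp only [S', h, if_false] at h2
      exact Ultrafilter.compl_mem_iff_notMem.1 h2 ht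
  have h2 : ∀ᶠ i in atTop, u i ∈ S t := hu (h1 ▸ hm t)
  rw [← Nat.cofinite_eq_atTop, eventually_cofinite] at h2
  refine (h2.image u).subset ?_
  rintro _ ⟨⟨i, rfl⟩, hi⟩
  exact ⟨i, hi, rfl⟩

lemma step_b' {V : Ultrafilter ℕ} (f π : ℕ → ℕ) (C : Set ℕ) {δ : ℝ} (hδ : 0 < δ) {N : Set ℕ}
    (hN : N ∈ V) (hfin : ∀ k, (N \ {n | δ < mu n (C ∩ {x | k < π x})}).Finite)
    (h : ∀ᶠ n in V, δ < mu n (C ∩ {x | 0 < π x})) :
    ∃ g : ℕ → ℕ, ¬ Null V (C ∩ {x | f x ≤ g (π x)}) := by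
  classical
  choose M hM using exists_bound f
  refine ⟨fun k => (hfin k).toFinset.sup M, not_null_iff.2 ⟨δ, hδ, ?_⟩⟩
  filter_upwards [hN, h] with n hn h0
  have hex : ∃ k, ¬ δ < mu n (C ∩ {x | k + 1 < π x}) := by
    obtain ⟨K, hK⟩ := exists_bound π n
    refine ⟨K, not_lt.2 (le_trans (mu_mono' (T := ∅) fun s hs => ?_) (by rw [mu_empty]; exact hδ.le))⟩
    have := hK s
    have h2 : K + 1 < π (code ⟨n, s⟩) := hs.2
    omega
  have h1 : δ < mu n (C ∩ {x | Nat.find hex < π x}) := by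
    rcases Nat.eq_zero_or_pos (Nat.find hex) with h2 | h2
    · rw [h2]; exact h0
    · have := Nat.find_min hex (m := Nat.find hex - 1) (by omega)
      rw [not_not, Nat.sub_add_cancel h2] at this
      exact this
  refine h1.trans_le (mu_mono' fun s hs => ⟨hs.1, ?_⟩)
  have h2 : Nat.find hex < π (code ⟨n, s⟩) := hs.2
  refine (hM n s).trans (Finset.le_sup (f := M) ?_)
  rw [Finite.mem_toFinset]
  refine ⟨hn, fun h3 => Nat.find_spec hex (lt_of_lt_of_le h3 (mu_mono fun x hx => ⟨hx.1, ?_⟩))⟩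
  have h4 : π (code ⟨n, s⟩) < π x := hx.2
  change Nat.find hex + 1 < π x
  omega

lemma dense' {V : Ultrafilter ℕ} (f π : ℕ → ℕ) (F : Filter ℕ) (hF : F.IsCountablyGenerated)
    (hne : (F ⊓ JJ V).NeBot) {C : ℕ → Set ℕ} (hC : F.HasAntitoneBasis C) {N : Set ℕ} (hN : N ∈ V)
    (hV : ∀ j r k : ℕ, {n | 1 / ((r : ℝ) + 1) < mu n (C j ∩ {x | k < π x})} ∈ V →
      (N \ {n | 1 / ((r : ℝ) + 1) < mu n (C j ∩ {x | k < π x})}).Finite) :
    ∃ F' ≤ F, F'.IsCountablyGenerated ∧ (F' ⊓ JJ V).NeBot ∧ Done V (f, π) F' := by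
  classical
  have add : ∀ S, (∀ j, ¬ Null V (C j ∩ S)) → (F ⊓ 𝓟 S ⊓ JJ V).NeBot := by
    intro S hS
    rw [neBot_iff']
    intro W hW hn
    rw [mem_inf_principal] at hW
    obtain ⟨j, hj⟩ := hC.mem_iff.1 hW
    exact hS j (hn.mono fun x hx => hj hx.1 hx.2)
  by_cases hA : ∃ k, ∀ j, ¬ Null V (C j ∩ {x | π x ≤ k})
  · obtain ⟨k, hk⟩ := hA
    exact ⟨_, inf_le_left, inferInstance, add _ hk,
      Or.inr (Or.inl ⟨k, mem_inf_of_right (mem_principal_self _)⟩)⟩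
  push Not at hA
  by_cases hB : ∃ j, (∀ k m, Null V (C j ∩ {x | π x ≤ k} ∩ {x | f x ≤ m})) ∧
      ∀ δ > 0, ∃ k, ∀ᶠ n in V, mu n (C j ∩ {x | k < π x}) ≤ δ
  · obtain ⟨j, hj⟩ := hB
    exact ⟨F, le_rfl, hF, hne, Or.inr (Or.inr ⟨C j, hC.mem j, hj⟩)⟩
  have h1 : ∀ j, ∃ g : ℕ → ℕ, ¬ Null V (C j ∩ {x | f x ≤ g (π x)}) := by
    intro j
    by_cases ha : ∀ k m, Null V (C j ∩ {x | π x ≤ k} ∩ {x | f x ≤ m})
    · have hb : ¬ ∀ δ > 0, ∃ k, ∀ᶠ n in V, mu n (C j ∩ {x | k < π x}) ≤ δ :=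
        fun hb => hB ⟨j, ha, hb⟩
      simp only [not_forall, not_exists] at hb
      obtain ⟨δ, hδ, hb⟩ := hb
      obtain ⟨r, hr⟩ := exists_nat_one_div_lt hδ
      have h2 : ∀ k, ∀ᶠ n in V, 1 / ((r : ℝ) + 1) < mu n (C j ∩ {x | k < π x}) := fun k => by
        have := hb k
        rw [← Ultrafilter.eventually_not] at this
        exact this.mono fun n hn => hr.trans (not_le.1 hn)
      exact step_b' f π (C j) (by positivity) hN (fun k => hV j r k (h2 k)) (h2 0)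
    · simp only [not_forall] at ha
      obtain ⟨k, m, ha⟩ := ha
      exact ⟨fun _ => m, fun hn => ha (hn.mono fun x hx => ⟨hx.1.1, hx.2⟩)⟩
  have h2 : ∀ j, ∃ g : ℕ → ℕ, ¬ Null V (C j ∩ {x | j < π x} ∩ {x | f x ≤ g (π x)}) := by
    intro j
    obtain ⟨j', hj'⟩ := hA j
    obtain ⟨g, hg⟩ := h1 (max j j')
    refine ⟨g, fun hn => hg ((hn.union hj').mono fun x hx => ?_)⟩
    by_cases hx' : π x ≤ j
    · exact Or.inr ⟨hC.antitone (le_max_right _ _) hx.1, hx'⟩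
    · exact Or.inl ⟨⟨hC.antitone (le_max_left _ _) hx.1, not_le.1 hx'⟩, hx.2⟩
  choose g hg using h2
  refine ⟨_, inf_le_left, inferInstance,
    add {x | f x ≤ (Finset.range (π x)).sup fun j => g j (π x)} fun j hn => hg j (hn.mono ?_),
    Or.inl ⟨fun k => (Finset.range k).sup fun j => g j k,
      mem_inf_of_right (mem_principal_self _)⟩⟩
  intro x hx
  refine ⟨hx.1.1, le_trans hx.2 (Finset.le_sup (f := fun j => g j (π x)) ?_)⟩
  exact Finset.mem_range.2 hx.1.2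

/-- What a condition achieves for the pair `(f, π)`. -/
def Done' (q : Cond) (f π : ℕ → ℕ) : Prop :=
  (∃ g : ℕ → ℕ, {x | f x ≤ g (π x)} ∈ q.F) ∨ (∃ k, {x | π x ≤ k} ∈ q.F) ∨
    ∃ C ∈ q.F, (∀ k m, ∀ δ > 0, ∀ᶠ n in q.W, mu n (C ∩ {x | π x ≤ k} ∩ {x | f x ≤ m}) < δ) ∧
      ∀ δ > 0, ∃ k, ∀ᶠ n in q.W, mu n (C ∩ {x | k < π x}) ≤ δ

lemma exists_done (p : Cond) (f π : ℕ → ℕ) : ∃ q ≤ p, Done' q f π := by
  have := p.hF
  obtain ⟨C, hC⟩ := p.F.exists_antitone_basis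
  obtain ⟨V, hV, N, hN, h⟩ := exists_good p fun t : ℕ × ℕ × ℕ =>
    {n | 1 / ((t.2.1 : ℝ) + 1) < mu n (C t.1 ∩ {x | t.2.2 < π x})}
  obtain ⟨F, h1, h2, h3, h4 | h4 | ⟨D, hD, h4, h5⟩⟩ :=
    dense' f π p.F p.hF (compat p hV) hC hN fun j r k => h (j, r, k)
  · obtain ⟨q, hq, h5, -⟩ := lift p hV h1 h2 h3 (fun _ : Empty => univ) (fun i => i.elim)
    exact ⟨q, hq, Or.inl (h5 ▸ h4)⟩
  · obtain ⟨q, hq, h5, -⟩ := lift p hV h1 h2 h3 (fun _ : Empty => univ) (fun i => i.elim)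
    exact ⟨q, hq, Or.inr (Or.inl (h5 ▸ h4))⟩
  · have h6 : ∀ r : ℕ, ∃ k, ∀ᶠ n in V, mu n (D ∩ {x | k < π x}) ≤ 1 / ((r : ℝ) + 1) :=
      fun r => h5 _ (by positivity)
    choose k hk using h6
    obtain ⟨q, hq, h7, h8⟩ := lift p hV h1 h2 h3 (fun t : ℕ × ℕ × ℕ =>
      {n | mu n (D ∩ {x | π x ≤ t.1} ∩ {x | f x ≤ t.2.1}) < 1 / ((t.2.2 : ℝ) + 1)} ∩
        {n | mu n (D ∩ {x | k t.2.2 < π x}) ≤ 1 / ((t.2.2 : ℝ) + 1)})
      (fun t => inter_mem ((h4 t.1 t.2.1).ev (by positivity)) (hk _))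
    refine ⟨q, hq, Or.inr (Or.inr ⟨D, h7 ▸ hD, fun a m δ hδ => ?_, fun δ hδ => ?_⟩)⟩
    · obtain ⟨r, hr⟩ := exists_nat_one_div_lt hδ
      filter_upwards [h8 (a, m, r)] with n hn
      exact lt_trans hn.1 hr
    · obtain ⟨r, hr⟩ := exists_nat_one_div_lt hδ
      refine ⟨k r, ?_⟩
      filter_upwards [h8 (0, 0, r)] with n hn
      exact le_trans hn.2 hr.le

lemma pigeon {ι Y : Type} [Uncountable ι] [Countable Y] (Good : Cond → Y → Set ι)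
    (mono : ∀ s t, t ≤ s → ∀ y, Good s y ⊆ Good t y) (r : Cond)
    (dense : ∀ i, ∀ s ≤ r, ∃ t ≤ s, ∃ y, i ∈ Good t y) (N : Y → ℕ) :
    ∃ s ≤ r, ∃ y, ∃ I : Finset ι, I.card = N y ∧ ∀ i ∈ I, i ∈ Good s y := by
  by_contra hc
  have hfin : ∀ s ≤ r, ∀ y, (Good s y).Finite := fun s hs y => by
    by_contra h
    obtain ⟨I, h1, h2⟩ := Set.Infinite.exists_subset_card_eq h (N y)
    exact hc ⟨s, hs, y, I, h2, fun i hi => h1 hi⟩
  have hlt : ∀ s ≤ r, ∀ y, (Good s y).ncard ≤ N y := fun s hs y => by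
    by_contra h
    rw [not_le, ncard_eq_toFinset_card _ (hfin s hs y)] at h
    obtain ⟨I, h1, h2⟩ := Finset.exists_subset_card_eq h.le
    exact hc ⟨s, hs, y, I, h2, fun i hi => (hfin s hs y).mem_toFinset.1 (h1 hi)⟩
  obtain ⟨s, hs, h⟩ := baire (fun y => {s | ∀ t ≤ s, Good t y ⊆ Good s y})
    (fun y q hq q' hq' t ht => (hq t (ht.trans hq')).trans (mono _ _ hq' y)) r (by
      intro y q hq
      have hb : BddAbove {k | ∃ t ≤ q, (Good t y).ncard = k} :=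
        ⟨N y, by rintro _ ⟨t, ht, rfl⟩; exact hlt t (ht.trans hq) y⟩
      obtain ⟨t, ht, h1⟩ := Nat.sSup_mem (s := {k | ∃ t ≤ q, (Good t y).ncard = k})
        ⟨_, q, le_rfl, rfl⟩ hb
      refine ⟨t, ht, fun t' ht' => ?_⟩
      refine (eq_of_subset_of_ncard_le (mono _ _ ht' y) ?_ (hfin t' ((ht'.trans ht).trans hq) y)).ge
      rw [h1]
      exact le_csSup hb ⟨t', ht'.trans ht, rfl⟩)
  have h1 : (⋃ y, Good s y).Countable := countable_iUnion fun y => (hfin s hs y).countable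
  refine not_countable_univ (h1.mono fun i _ => ?_)
  obtain ⟨t, ht, y, hy⟩ := dense i s hs
  exact mem_iUnion.2 ⟨y, h y t ht hy⟩

end Pool.Agent.H647Z.TukeyF
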