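import Mathlib

/-!
A sentence of the forcing language of a preordered set `P` of conditions is represented by the
set of the conditions which force it. A name for a subset of a ground model set `X` is a map
`X → Set P` sending `x` to the set of the conditions attached to `x`.
-/

set_option autoImplicit false

open Set

namespace Pool.Agent.H647Z.TukeyF

universe v

variable {P : Type} [Preorder P]

/-- `p` forces `not φ` iff no `q ≤ p` forces `φ`. -/
def fnot (φ : Set P) : Set P := {p | ∀ q ≤ p, q ∉ φ}

/-- `p` forces `φ and ψ` iff it forces both. -/
def fand (φ ψ : Set P) : Set P := {p | p ∈ φ ∧ p ∈ ψ}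

/-- `p` forces `for all i, φ i` iff it forces every `φ i`. -/
def fall {ι : Sort v} (φ : ι → Set P) : Set P := {p | ∀ i, p ∈ φ i}

/-- `φ implies ψ` is `not (φ and not ψ)`. -/
def fimp (φ ψ : Set P) : Set P := fnot (fand φ (fnot ψ))

/-- `there is i with φ i` is `not for all i, not φ i`. -/
def fex {ι : Sort v} (φ : ι → Set P) : Set P := fnot (fall fun i => fnot (φ i))

/-- An absolute statement about ground model objects. -/
def fground (h : Prop) : Set P := {_p | h}

/-- `p` forces that the generic filter meets the set `N` of conditions. -/
def meets (N : Set P) : Set P := {p | ∀ q ≤ p, ∃ r ≤ q, ∃ s ∈ N, r ≤ s}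

/-- The relation named by `R` is a function from `X` to `Y`. -/
def IsFun {X Y : Type} (R : X → Y → Set P) : Set P :=
  fand (fall fun x => fex fun y => meets (R x y))
    (fall fun x => fall fun y => fall fun y' =>
      fimp (fand (meets (R x y)) (meets (R x y'))) (fground (y = y')))

/-- The extension has no new subsets of `ℕ` and no new sequences of ground model objects. -/
def NoNew (P : Type) [Preorder P] : Set P :=
  fand
    (fall fun x : ℕ → Set P => fex fun S : Set ℕ => fall fun n =>
      fand (fimp (meets (x n)) (fground (n ∈ S))) (fimp (fground (n ∈ S)) (meets (x n))))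
    (fall fun X : Type => fall fun R : ℕ → X → Set P =>
      fimp (IsFun R) (fex fun b : ℕ → X => fall fun k => meets (R k (b k))))

/-- The family of subsets of `ℕ` named by `U` is an ultrafilter. -/
def IsUltra (U : Set ℕ → Set P) : Set P :=
  fand (fnot (meets (U ∅)))
    (fand (fall fun S => fall fun T => fimp (fand (meets (U S)) (meets (U T))) (meets (U (S ∩ T))))
      (fand (fall fun S => fall fun T => fall fun _ : S ⊆ T => fimp (meets (U S)) (meets (U T)))
        (fall fun S => fimp (fnot (meets (U S))) (meets (U Sᶜ)))))

/-- Tukey-top: there are sets `A i ∈ U`, indexed by the subsets `i` of `ℕ`, such that the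
intersection over any countably infinite set of indices is not in `U`. -/
def TukeyTop (U : Set ℕ → Set P) : Set P :=
  fex fun A : Set ℕ → Set ℕ → Set P => fand (IsFun A)
    (fand (fall fun i => fall fun S => fimp (meets (A i S)) (meets (U S)))
      (fall fun I : ℕ → Set ℕ => fall fun _ : Function.Injective I => fall fun B : ℕ → Set ℕ =>
        fimp (fall fun k => meets (A (I k) (B k))) (fnot (meets (U (⋂ k, B k))))))

/-- The family of subsets of `ℕ` named by `T` has size continuum: the power set of `ℕ` injects
into it. -/
def SizeC (T : Set ℕ → Set P) : Set P :=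
  fex fun R : Set ℕ → Set ℕ → Set P => fand (IsFun R)
    (fand (fall fun i => fall fun j => fall fun X =>
        fimp (fand (meets (R i X)) (meets (R j X))) (fground (i = j)))
      (fall fun i => fall fun X => fimp (meets (R i X)) (meets (T X))))

/-- The guessing principle diamond-minus for `U`. -/
def DiamondMinus (U : Set ℕ → Set P) : Set P :=
  fex fun f : ℕ → ℕ => fex fun π : ℕ → ℕ => fex fun A : ℕ → Set (Set ℕ) =>
    fex fun T : Set ℕ → Set P => fand (SizeC T)
      (fand (fground (∀ n, (∀ a ∈ A n, a ⊆ Iio (f n)) ∧ (A n).encard ≤ π n))
        (fand (fall fun X => fimp (meets (T X)) (meets (U {n | X ∩ Iio (f n) ∈ A n})))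
          (fall fun g : ℕ → ℕ => meets (U {n | g (π n) < f n}))))

end Pool.Agent.H647Z.TukeyF
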