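import Mathlib
import Pool.Agent.H647Z.TukeyFDefs
import Pool.Agent.H647Z.TukeyF1

set_option autoImplicit false

open Set Filter Topology

namespace Pool.Agent.H647Z.TukeyF

open Pool.Agent.H647Z.Tukey (mu EE mem_EE mu_indep mu_mono mu_union sum_mu_le guess_le exists_sep
  code Q)

universe v

lemma no_diamond (r : Cond) {f π : ℕ → ℕ} {A : ℕ → Set (Set ℕ)}
    (Val : Cond → Set ℕ → Set ℕ → Prop)
    (mono : ∀ s t, t ≤ s → ∀ i X, Val s i X → Val t i X)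
    (key : ∀ i, ∀ s ≤ r, ∃ t ≤ s, ∃ X, Val t i X)
    (inj : ∀ s ≤ r, ∀ i j X, Val s i X → Val s j X → i = j)
    (hG : ∀ s i X, Val s i X → {n | X ∩ Iio (f n) ∈ A n} ∈ s.F)
    (hA : ∀ n, (A n).encard ≤ π n)
    (hg : ∀ g : ℕ → ℕ, ∀ s ≤ r, ∃ t ≤ s, {n | g (π n) < f n} ∈ t.F) : False := by
  classical
  have pig : ∀ {Y : Type} [Countable Y] (Φ : Cond → Y → Set ℕ → Prop),
      (∀ s t, t ≤ s → ∀ y X, Φ s y X → Φ t y X) → ∀ r' ≤ r,
      (∀ s ≤ r', ∀ X, {n | X ∩ Iio (f n) ∈ A n} ∈ s.F → ∃ y, Φ s y X) → ∀ N : Y → ℕ,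
      ∃ s ≤ r', ∃ y, ∃ T : Finset (Set ℕ), T.card = N y ∧
        ∀ X ∈ T, {n | X ∩ Iio (f n) ∈ A n} ∈ s.F ∧ Φ s y X := by
    intro Y _ Φ hΦ r' hr' hd N
    have : Uncountable (Set ℕ) := by
      rw [← Cardinal.aleph0_lt_mk_iff, Cardinal.mk_set, Cardinal.mk_nat]
      exact Cardinal.cantor _
    obtain ⟨s, hs, y, I, h1, h2⟩ := pigeon (fun s y => {i | ∃ X, Val s i X ∧ Φ s y X})
      (fun s t ht y i ⟨X, h1, h2⟩ => ⟨X, mono _ _ ht _ _ h1, hΦ _ _ ht _ _ h2⟩) r'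
      (fun i s hs => by
        obtain ⟨t, ht, X, hX⟩ := key i s (hs.trans hr')
        obtain ⟨y, hy⟩ := hd t (ht.trans hs) X (hG _ _ _ hX)
        exact ⟨t, ht, y, X, hX, hy⟩) N
    choose! X hX1 hX2 using h2
    refine ⟨s, hs, y, I.image X, ?_, fun Z hZ => ?_⟩
    · rw [Finset.card_image_of_injOn, h1]
      intro i hi j hj h
      exact inj s (hs.trans hr') i j (X i) (hX1 i hi) (h ▸ hX1 j hj)
    · obtain ⟨i, hi, rfl⟩ := Finset.mem_image.1 hZ
      exact ⟨hG _ _ _ (hX1 i hi), hX2 i hi⟩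
  obtain ⟨q, hq, ⟨g, h⟩ | ⟨k, h⟩ | ⟨C, hC, h1, h2⟩⟩ := exists_done r f π
  · obtain ⟨t, ht, h1⟩ := hg g q hq
    obtain ⟨x, h2, h3⟩ := t.nonempty (inter_mem (ht.2 h) h1)
    have h2' : f x ≤ g (π x) := h2
    have h3' : g (π x) < f x := h3
    omega
  · obtain ⟨s, hs, -, T', hcard, h1⟩ := pig (Y := Unit) (fun _ _ _ => True)
      (fun _ _ _ _ _ h => h) q hq (fun _ _ _ _ => ⟨(), trivial⟩) (fun _ => k + 1)
    obtain ⟨m, hm⟩ := exists_sep T'
    obtain ⟨t, ht, h2⟩ := hg (fun _ => m) s (hs.trans hq)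
    have h3 : ∀ᶠ x in t.F, ∀ X ∈ T', X ∩ Iio (f x) ∈ A x :=
      (eventually_all_finset T').2 fun X hX' => ht.2 (h1 X hX').1
    obtain ⟨x, ⟨h4, h5⟩, h6⟩ := t.nonempty (inter_mem (inter_mem h3 ((ht.trans hs).2 h)) h2)
    have h7 := guess_le hA T' hm x h6
    rw [Finset.filter_true_of_mem h4, hcard] at h7
    have h8 : π x ≤ k := h5
    omega
  · obtain ⟨s, hs, ⟨k, ρ⟩, T', hcard, h3⟩ := pig (Y := ℕ × ℕ)
      (fun s p X => ∀ᶠ n in s.W, 1 / ((p.2 : ℝ) + 1) <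
        mu n ({x | X ∩ Iio (f x) ∈ A x} ∩ (C ∩ {x | π x ≤ p.1})))
      (fun _ _ ht _ _ h => ht.1 h) q hq (by
        intro s hs X hX
        obtain ⟨δ, hδ, h4⟩ := s.pos _ (inter_mem hX (hs.2 hC))
        obtain ⟨k, hk⟩ := h2 (δ / 2) (by linarith)
        obtain ⟨r, hr⟩ := exists_nat_one_div_lt (show 0 < δ / 2 by linarith)
        refine ⟨(k, r), ?_⟩
        filter_upwards [h4, hs.1 hk] with n h5 h6
        have h7 := mu_union n ({x | X ∩ Iio (f x) ∈ A x} ∩ (C ∩ {x | π x ≤ k}))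
          (C ∩ {x | k < π x})
        have h8 : mu n ({x | X ∩ Iio (f x) ∈ A x} ∩ C) ≤
            mu n (({x | X ∩ Iio (f x) ∈ A x} ∩ (C ∩ {x | π x ≤ k})) ∪ (C ∩ {x | k < π x})) := by
          refine mu_mono fun x hx => ?_
          by_cases hx' : π x ≤ k
          · exact Or.inl ⟨hx.1, hx.2, hx'⟩
          · exact Or.inr ⟨hx.2, not_le.1 hx'⟩
        change 1 / ((r : ℝ) + 1) < _
        change mu n (C ∩ {x | k < π x}) ≤ δ / 2 at h6
        linarith) (fun p => 2 * p.1 * (p.2 + 1) + 1)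
    obtain ⟨m, hm⟩ := exists_sep T'
    have hr : (0 : ℝ) < 1 / (2 * ((ρ : ℝ) + 1)) := by positivity
    have h4 : ∀ᶠ n in s.W, ∀ X ∈ T', 1 / ((ρ : ℝ) + 1) <
        mu n ({x | X ∩ Iio (f x) ∈ A x} ∩ (C ∩ {x | π x ≤ k})) :=
      (eventually_all_finset T').2 fun X hX' => (h3 X hX').2
    have := s.ne
    obtain ⟨n, h5, h6⟩ := (h4.and (hs.1 (h1 k m _ hr))).exists
    have h7 := sum_mu_le T' (fun X => {x | X ∩ Iio (f x) ∈ A x} ∩ ({x | π x ≤ k} ∩ {x | m < f x}))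
      k n (by
        intro x
        by_cases hx : π x ≤ k ∧ m < f x
        · refine le_trans (Finset.card_le_card fun X hX' => ?_)
            ((guess_le hA T' hm x hx.2).trans hx.1)
          simp only [Finset.mem_filter] at hX' ⊢
          exact ⟨hX'.1, hX'.2.1⟩
        · refine le_trans (Finset.card_le_card (t := ∅) fun X hX' => ?_) (by simp)
          simp only [Finset.mem_filter] at hX'
          exact absurd hX'.2.2 hx)
    have h8 : ∀ X ∈ T', 1 / (2 * ((ρ : ℝ) + 1)) ≤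
        mu n ({x | X ∩ Iio (f x) ∈ A x} ∩ ({x | π x ≤ k} ∩ {x | m < f x})) := by
      intro X hX'
      have h9 := h5 X hX'
      have h10 := mu_union n ({x | X ∩ Iio (f x) ∈ A x} ∩ ({x | π x ≤ k} ∩ {x | m < f x}))
        (C ∩ {x | π x ≤ k} ∩ {x | f x ≤ m})
      have h11 : mu n ({x | X ∩ Iio (f x) ∈ A x} ∩ (C ∩ {x | π x ≤ k})) ≤
          mu n (({x | X ∩ Iio (f x) ∈ A x} ∩ ({x | π x ≤ k} ∩ {x | m < f x})) ∪
            (C ∩ {x | π x ≤ k} ∩ {x | f x ≤ m})) := by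
        refine mu_mono fun x hx => ?_
        by_cases hx' : f x ≤ m
        · exact Or.inr ⟨hx.2, hx'⟩
        · exact Or.inl ⟨hx.1, hx.2.2, not_le.1 hx'⟩
      have h12 : 1 / ((ρ : ℝ) + 1) = 2 * (1 / (2 * ((ρ : ℝ) + 1))) := by field_simp
      change mu n (C ∩ {x | π x ≤ k} ∩ {x | f x ≤ m}) < _ at h6
      linarith
    have h9 := (Finset.card_nsmul_le_sum T' _ _ h8).trans h7
    rw [hcard, nsmul_eq_mul, mul_one_div, div_le_iff₀ (by positivity)] at h9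
    push_cast at h9
    linarith

open Classical in
/-- The independent set attached to `i`. -/
noncomputable def EI (i : Set ℕ) : Set ℕ := EE fun n => decide (n ∈ i)

lemma inter_not_mem (p : Cond) {I : ℕ → Set ℕ} (hI : Function.Injective I) {B : ℕ → Set ℕ}
    (hB : ∀ k, B k = EI (I k) ∨ B k = (EI (I k))ᶜ) : (⋂ k, B k) ∉ p.F := by
  classical
  intro hmem
  obtain ⟨δ, hδ, h0⟩ := p.pos _ hmem
  let χ : ℕ → ℕ → Bool := fun k n => decide (n ∈ I k)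
  have hχ : Function.Injective χ := fun k l h => hI (by
    ext n
    have := congrFun h n
    simpa [χ] using this)
  let ε : (ℕ → Bool) → Bool := fun X => decide (∃ k, χ k = X ∧ B k = EI (I k))
  obtain ⟨r, hr⟩ := exists_pow_lt_of_lt_one hδ (show (1 / 2 : ℝ) < 1 by norm_num)
  let T : Finset (ℕ → Bool) := (Finset.range r).image χ
  have hcard : T.card = r := by
    rw [Finset.card_image_of_injective _ hχ, Finset.card_range]
  have h1 : ∀ᶠ n in atTop, ∀ X ∈ T, ∀ Y ∈ T,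
      (fun i : Fin n => X i) = (fun i : Fin n => Y i) → X = Y := by
    rw [eventually_all_finset]
    intro X _
    rw [eventually_all_finset]
    intro Y _
    by_cases h : X = Y
    · exact Eventually.of_forall fun _ _ => h
    · obtain ⟨x, hx⟩ := Function.ne_iff.1 h
      filter_upwards [eventually_gt_atTop x] with m hm h'
      exact absurd (congrFun h' ⟨x, hm⟩) hx
  have := p.ne
  obtain ⟨n, hn0, hn⟩ := (h0.and (p.top h1)).exists
  have h2 := mu_indep n T ε (⋂ k, B k) (fun X hX Y hY h => hn X hX Y hY h) (by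
    intro s hs X hX
    obtain ⟨k, -, rfl⟩ := Finset.mem_image.1 hX
    have h3 := mem_iInter.1 hs k
    by_cases h : B k = EI (I k)
    · have h4 : ε (χ k) = true := decide_eq_true ⟨k, rfl, h⟩
      rw [h4]
      rw [h] at h3
      exact (mem_EE (χ k) n s).1 h3
    · have h4 : ε (χ k) = false := decide_eq_false (by
        rintro ⟨l, h5, h6⟩
        rw [hχ h5] at h6
        exact h h6)
      rw [h4]
      rw [(hB k).resolve_left h] at h3
      exact Bool.eq_false_iff.2 fun h' => h3 ((mem_EE (χ k) n s).2 h'))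
  rw [hcard] at h2
  rw [one_div, inv_pow] at hr
  have h3 : mu n (⋂ k, B k) ≤ ((2 : ℝ) ^ r)⁻¹ := by
    rw [← one_div, le_div_iff₀ (by positivity)]
    exact h2
  linarith

section

variable {P : Type} [Preorder P]

theorem mem_fex {ι : Sort v} {φ : ι → Set P} {p : P} :
    p ∈ fex φ ↔ ∀ q ≤ p, ∃ r ≤ q, ∃ i, r ∈ φ i := by
  simp only [fex, fnot, fall, Set.mem_ofPred_eq, not_forall, not_not]
  constructor
  · intro h q hq
    obtain ⟨i, r, hr, h'⟩ := h q hq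
    exact ⟨r, hr, i, h'⟩
  · intro h q hq
    obtain ⟨r, hr, i, h'⟩ := h q hq
    exact ⟨i, r, hr, h'⟩

theorem mem_fimp {φ ψ : Set P} {p : P} :
    p ∈ fimp φ ψ ↔ ∀ q ≤ p, q ∈ φ → ∃ r ≤ q, r ∈ ψ := by
  simp only [fimp, fnot, fand, Set.mem_ofPred_eq, not_and, not_forall, not_not]
  constructor
  · intro h q hq h'
    obtain ⟨r, hr, h''⟩ := h q hq h'
    exact ⟨r, hr, h''⟩
  · intro h q hq h'
    obtain ⟨r, hr, h''⟩ := h q hq h'
    exact ⟨r, hr, h''⟩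

lemma meets_down {N : Set P} {p q : P} (h : p ∈ meets N) (hq : q ≤ p) : q ∈ meets N :=
  fun r hr => h r (hr.trans hq)

lemma meets_self {N : Set P} {p : P} (h : p ∈ N) : p ∈ meets N :=
  fun r hr => ⟨r, le_rfl, p, h, hr⟩

end

/-- The name of the generic ultrafilter. -/
def UU (S : Set ℕ) : Set Cond := {p | S ∈ p.F}

lemma of_meets {S : Set ℕ} {p : Cond} (h : p ∈ meets (UU S)) : ∃ q ≤ p, S ∈ q.F := by
  obtain ⟨r, hr, s, hs, h1⟩ := h p le_rfl
  exact ⟨r, hr, h1.2 hs⟩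

lemma noNew (p : Cond) : p ∈ NoNew Cond := by
  refine ⟨fun x => mem_fex.2 fun q _ => ?_, fun X R => mem_fimp.2 fun q _ hq => ?_⟩
  · obtain ⟨r, hr, h⟩ := baire (fun n => {r | r ∈ meets (x n) ∨ r ∈ fnot (meets (x n))})
      (fun n s hs t ht => hs.imp (fun h => meets_down h ht) fun h u hu => h u (hu.trans ht)) q
      (fun n s _ => by
        by_cases h : s ∈ fnot (meets (x n))
        · exact ⟨s, le_rfl, Or.inr h⟩
        · simp only [fnot, mem_ofPred_eq, not_forall, not_not] at h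
          obtain ⟨t, ht, h⟩ := h
          exact ⟨t, ht, Or.inl h⟩)
    refine ⟨r, hr, {n | r ∈ meets (x n)}, fun n => ⟨mem_fimp.2 fun s hs h1 => ⟨s, le_rfl, ?_⟩,
      mem_fimp.2 fun s hs h1 => ⟨s, le_rfl, meets_down h1 hs⟩⟩⟩
    exact (h n).resolve_right fun h2 => h2 s hs h1
  · obtain ⟨r, hr, h⟩ := baire (fun k => {r | ∃ y, r ∈ meets (R k y)})
      (fun k s ⟨y, hy⟩ t ht => ⟨y, meets_down hy ht⟩) q (fun k => mem_fex.1 (hq.1 k))
    choose b hb using h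
    exact ⟨r, hr, mem_fex.2 fun s hs => ⟨s, le_rfl, b, fun k => meets_down (hb k) hs⟩⟩

lemma isUltra (p : Cond) : p ∈ IsUltra UU := by
  refine ⟨fun q _ h => ?_, fun S T => mem_fimp.2 fun q _ h => ?_,
    fun S T hST => mem_fimp.2 fun q _ h => ?_, fun S => mem_fimp.2 fun q _ h => ?_⟩
  · obtain ⟨r, -, h1⟩ := of_meets h
    simpa using r.nonempty h1
  · obtain ⟨r, hr, h1⟩ := of_meets h.1
    obtain ⟨s, hs, h2⟩ := of_meets (meets_down h.2 hr)
    exact ⟨s, hs.trans hr, meets_self (inter_mem (hs.2 h1) h2)⟩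
  · obtain ⟨r, hr, h1⟩ := of_meets h
    exact ⟨r, hr, meets_self (mem_of_superset h1 hST)⟩
  · obtain ⟨r, hr, h1 | h1⟩ := decide_set q S
    · exact absurd (meets_self (N := UU S) h1) (h r hr)
    · exact ⟨r, hr, meets_self h1⟩

lemma tukeyTop (p : Cond) : p ∈ TukeyTop UU := by
  refine mem_fex.2 fun q _ => ⟨q, le_rfl,
    fun i S => {p | S ∈ p.F ∧ (S = EI i ∨ S = (EI i)ᶜ)},
    ⟨fun i => mem_fex.2 fun r _ => ?_, fun i S S' => mem_fimp.2 fun r _ h => ⟨r, le_rfl, ?_⟩⟩,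
    fun i S => mem_fimp.2 fun r _ h => ?_,
    fun I hI B => mem_fimp.2 fun r _ h => ⟨r, le_rfl, fun s _ hs => ?_⟩⟩
  · obtain ⟨s, hs, h1 | h1⟩ := decide_set r (EI i)
    · exact ⟨s, hs, _, meets_self ⟨h1, Or.inl rfl⟩⟩
    · exact ⟨s, hs, _, meets_self ⟨h1, Or.inr rfl⟩⟩
  · obtain ⟨s, hs, t, ⟨h1, h2⟩, h3⟩ := h.1 r le_rfl
    obtain ⟨u, hu, t', ⟨h4, h5⟩, h6⟩ := h.2 s hs
    have h7 := u.nonempty (inter_mem ((hu.trans h3).2 h1) (h6.2 h4))
    change S = S'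
    rcases h2 with rfl | rfl <;> rcases h5 with rfl | rfl
    · rfl
    · simp at h7
    · simp at h7
    · rfl
  · obtain ⟨s, hs, t, ⟨h1, -⟩, h3⟩ := h r le_rfl
    exact ⟨s, hs, meets_self (h3.2 h1)⟩
  · obtain ⟨t, -, ht⟩ := of_meets hs
    refine inter_not_mem t hI (fun k => ?_) ht
    obtain ⟨_, -, _, ⟨-, h2⟩, -⟩ := h k r le_rfl
    exact h2

lemma notDiamond (p : Cond) : p ∈ fnot (DiamondMinus UU) := by
  intro q _ h
  obtain ⟨q1, -, f, h⟩ := mem_fex.1 h q le_rfl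
  obtain ⟨q2, -, π, h⟩ := mem_fex.1 h q1 le_rfl
  obtain ⟨q3, -, A, h⟩ := mem_fex.1 h q2 le_rfl
  obtain ⟨q4, -, T, h1, h2, h3, h4⟩ := mem_fex.1 h q3 le_rfl
  obtain ⟨r, hr, R, ⟨h5, -⟩, h6, h7⟩ := mem_fex.1 h1 q4 le_rfl
  refine no_diamond r (f := f) (π := π) (A := A)
    (fun s i X => s ∈ meets (R i X) ∧ {n | X ∩ Iio (f n) ∈ A n} ∈ s.F)
    (fun s t ht i X h => ⟨meets_down h.1 ht, ht.2 h.2⟩) (fun i s hs => ?_)
    (fun s hs i j X hi hj => ?_) (fun s i X h => h.2) (fun n => (h2 n).2)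
    (fun g s hs => of_meets (meets_down (h4 g) (hs.trans hr)))
  · obtain ⟨t, ht, X, hX⟩ := mem_fex.1 (h5 i) s hs
    obtain ⟨u, hu, h8⟩ := mem_fimp.1 (h7 i X) t (ht.trans hs) hX
    obtain ⟨w, hw, h9⟩ := mem_fimp.1 (h3 X) u ((hu.trans (ht.trans hs)).trans hr) h8
    obtain ⟨z, hz, h10⟩ := of_meets h9
    exact ⟨z, hz.trans (hw.trans (hu.trans ht)), X, meets_down hX (hz.trans (hw.trans hu)), h10⟩
  · obtain ⟨_, -, h8⟩ := mem_fimp.1 (h6 i j X) s hs ⟨hi.1, hj.1⟩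
    exact h8

theorem main : ∃ (P : Type) (_ : Preorder P), Nonempty P ∧ ∀ p : P, p ∈ NoNew P ∧
    p ∈ fex fun U : Set ℕ → Set P =>
      fand (IsUltra U) (fand (TukeyTop U) (fnot (DiamondMinus U))) :=
  ⟨Cond, inferInstance, inferInstance, fun p => ⟨noNew p, mem_fex.2 fun q _ =>
    ⟨q, le_rfl, UU, isUltra q, tukeyTop q, notDiamond q⟩⟩⟩

end Pool.Agent.H647Z.TukeyF
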